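import Pool.Agent.Helper31.SR.Arc

/-!
# Project MEI (M2): the own coordinate of a point outside of the ball is not positive

* `bar0_nonpos`, `bar_nonpos`: a placed point with `Q_i ≥ 0` has `bar i ≤ 0`;
* `sM_self`, `am_le_MA`: the columns of an arc carry its mass;
* `b3_ge`: the coordinates of the highest point sum up to at least `1`.
-/

set_option autoImplicit false

namespace Helper41.VMaj

open Set Metric MeasureTheory Helper80.CW Helper82.CW Helper14.CW Helper93.MEI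
open Helper14.MEI2 Pool.Agent.Helper52.MEI Pool.Agent.Helper73.MEI Helper41.MEI
open Helper37.MEI
open Pool.Agent.Helper31.SR

open scoped RealInnerProductSpace ENNReal

/-! ### placed points -/

/-- a placed point outside of the ball around the vertex `0` has `bar 0 ≤ 0` -/
theorem bar0_nonpos {a : Fin 4 → E3} (g : Gram4 (al a)) {q : E3} (hq : Pl a q)
    (hQ : 0 ≤ Qv a 0 q) : bar a 0 q ≤ 0 := by
  by_contra hneg
  push Not at hneg
  have hs := bar_sum g q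
  have e := Qv_eq g 0 q
  have hp := (pl_iff g).1 hq
  have p12 := hp 1 2 (by decide)
  have p21 := hp 2 1 (by decide)
  have p13 := hp 1 3 (by decide)
  have p31 := hp 3 1 (by decide)
  have p23 := hp 2 3 (by decide)
  have p32 := hp 3 2 (by decide)
  have p01 := hp 0 1 (by decide)
  have p02 := hp 0 2 (by decide)
  have p03 := hp 0 3 (by decide)
  obtain ⟨b0, hb0⟩ : ∃ b, b = bar a 0 q := ⟨_, rfl⟩
  obtain ⟨b1, hb1⟩ : ∃ b, b = bar a 1 q := ⟨_, rfl⟩
  obtain ⟨b2, hb2⟩ : ∃ b, b = bar a 2 q := ⟨_, rfl⟩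
  obtain ⟨b3, hb3⟩ : ∃ b, b = bar a 3 q := ⟨_, rfl⟩
  rw [← hb0, ← hb1, ← hb2, ← hb3] at hs e
  rw [← hb0] at hneg p01 p02 p03
  rw [← hb1] at p12 p21 p13 p31 p01
  rw [← hb2] at p12 p21 p23 p32 p02
  rw [← hb3] at p13 p31 p23 p32 p03
  rw [e] at hQ
  have key : (b1 - b2) ^ 2 + (b2 - b3) ^ 2 + (b1 - b3) ^ 2 ≤ 2 := by
    have c : ∀ u v : ℝ, 0 ≤ u → 0 ≤ v → u + v ≤ 1 → u ^ 2 + v ^ 2 + (u + v) ^ 2 ≤ 2 := by
      intro u v hu hv huv
      have h1 : (u + v) ^ 2 ≤ 1 := by nlinarith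
      nlinarith [mul_nonneg hu hv]
    rcases le_total b1 b2 with h12 | h12 <;> rcases le_total b2 b3 with h23 | h23 <;>
      rcases le_total b1 b3 with h13 | h13
    · have := c (b2 - b1) (b3 - b2) (by linarith) (by linarith) (by linarith)
      linarith [this, show (b2 - b1 + (b3 - b2)) ^ 2 = (b1 - b3) ^ 2 by ring,
        show (b2 - b1) ^ 2 = (b1 - b2) ^ 2 by ring, show (b3 - b2) ^ 2 = (b2 - b3) ^ 2 by ring]
    · have := c (b2 - b1) (b3 - b2) (by linarith) (by linarith) (by linarith)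
      linarith [this, show (b2 - b1 + (b3 - b2)) ^ 2 = (b1 - b3) ^ 2 by ring,
        show (b2 - b1) ^ 2 = (b1 - b2) ^ 2 by ring, show (b3 - b2) ^ 2 = (b2 - b3) ^ 2 by ring]
    · have := c (b3 - b1) (b2 - b3) (by linarith) (by linarith) (by linarith)
      linarith [this, show (b3 - b1 + (b2 - b3)) ^ 2 = (b1 - b2) ^ 2 by ring,
        show (b3 - b1) ^ 2 = (b1 - b3) ^ 2 by ring]
    · have := c (b1 - b3) (b2 - b1) (by linarith) (by linarith) (by linarith)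
      linarith [this, show (b1 - b3 + (b2 - b1)) ^ 2 = (b2 - b3) ^ 2 by ring,
        show (b2 - b1) ^ 2 = (b1 - b2) ^ 2 by ring]
    · have := c (b1 - b2) (b3 - b1) (by linarith) (by linarith) (by linarith)
      linarith [this, show (b1 - b2 + (b3 - b1)) ^ 2 = (b2 - b3) ^ 2 by ring,
        show (b3 - b1) ^ 2 = (b1 - b3) ^ 2 by ring]
    · have := c (b3 - b2) (b1 - b3) (by linarith) (by linarith) (by linarith)
      linarith [this, show (b3 - b2 + (b1 - b3)) ^ 2 = (b1 - b2) ^ 2 by ring,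
        show (b3 - b2) ^ 2 = (b2 - b3) ^ 2 by ring]
    · have := c (b1 - b2) (b2 - b3) (by linarith) (by linarith) (by linarith)
      linarith [this, show (b1 - b2 + (b2 - b3)) ^ 2 = (b1 - b3) ^ 2 by ring]
    · have := c (b1 - b2) (b2 - b3) (by linarith) (by linarith) (by linarith)
      linarith [this, show (b1 - b2 + (b2 - b3)) ^ 2 = (b1 - b3) ^ 2 by ring]
  have s2 : b1 + b2 + b3 = 1 - b0 := by linarith
  have s3 : 3 * (b1 ^ 2 + b2 ^ 2 + b3 ^ 2) =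
      (b1 + b2 + b3) ^ 2 + ((b1 - b2) ^ 2 + (b2 - b3) ^ 2 + (b1 - b3) ^ 2) := by ring
  rw [s2] at s3
  have hb : b0 ≤ 1 := by linarith
  nlinarith [mul_nonneg hneg.le (sub_nonneg.2 hb)]

/-- the same for any vertex -/
theorem bar_nonpos {a : Fin 4 → E3} (g : Gram4 (al a)) (i : Fin 4) {q : E3} (hq : Pl a q)
    (hQ : 0 ≤ Qv a i q) : bar a i q ≤ 0 := by
  have h1 := bar0_nonpos (gram_perm g (Equiv.swap 0 i)) (Pl_perm (Equiv.swap 0 i) hq)
    (by rw [Qv_perm, Equiv.swap_apply_left]; exact hQ)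
  rwa [bar_perm, Equiv.swap_apply_left] at h1

section arcs
variable {a : Fin 4 → E3} {σ : Measure (E3 × E3)} {K : Set E3} {S : Fin 4 → ℝ}
  {c : Fin 4 → E3} {z : Fin 4 → Fin 4 → E3} {l : Fin 3 → Bool → Bool → E3 × E3 → ℝ}

/-- the own coordinate of an arc is not positive -/
theorem sM_self (ha : ∀ i j, i ≠ j → dist (a i) (a j) = 1) (hl : Lok a l)
    (hσ : ∀ᵐ z ∂σ, z.1 ∈ K ∧ z.2 ∈ K) (hp : ∀ x ∈ K, Pl a x) (m : Fin 3) (e i : Bool) :
    sM σ a l m e i (vx m e i) ≤ 0 := by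
  unfold sM
  apply integral_nonpos_of_ae
  filter_upwards [ae_restrict_of_ae hσ] with z hz
  rcases le_total (Qv a (vx m e i) z.2) 0 with h | h
  · show den a l m e i z * bar a (vx m e i) z.2 ≤ 0
    rw [den_zero m e i h, zero_mul]
  · exact mul_nonpos_of_nonneg_of_nonpos (den_nonneg hl m e i z)
      (bar_nonpos (gram_of_dist ha) _ (hp _ hz.2) h)

/-- **the columns of an arc carry its mass** -/
theorem am_le_MA [IsFiniteMeasure σ] (ha : ∀ i j, i ≠ j → dist (a i) (a j) = 1) (hl : Lok a l)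
    (hK : IsCompact K) (hσ : ∀ᵐ z ∂σ, z.1 ∈ K ∧ z.2 ∈ K) (hp : ∀ x ∈ K, Pl a x)
    (τ : Equiv.Perm (Fin 4)) (p : Fin 3) :
    am σ a l (τ 0) (τ p.succ) ≤ MA σ a l τ p 0 + MA σ a l τ p 1 + MA σ a l τ p 2 := by
  have hne : τ 0 ≠ τ p.succ := fun h => (Fin.succ_ne_zero p) (τ.injective h).symm
  have hv := idx_vx (τ 0) (τ p.succ) hne
  have h1 := sM_sum ha hl hK hσ hp (idx (τ 0) (τ p.succ)).1 (idx (τ 0) (τ p.succ)).2.1
    (idx (τ 0) (τ p.succ)).2.2
  have h2 := sM_self ha hl hσ hp (idx (τ 0) (τ p.succ)).1 (idx (τ 0) (τ p.succ)).2.1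
    (idx (τ 0) (τ p.succ)).2.2
  rw [hv.1] at h2
  rw [← Equiv.sum_comp τ, Fin.sum_univ_four] at h1
  have m1 := le_pp (sM σ a l (idx (τ 0) (τ p.succ)).1 (idx (τ 0) (τ p.succ)).2.1
    (idx (τ 0) (τ p.succ)).2.2 (τ 1))
  have m2 := le_pp (sM σ a l (idx (τ 0) (τ p.succ)).1 (idx (τ 0) (τ p.succ)).2.1
    (idx (τ 0) (τ p.succ)).2.2 (τ 2))
  have m3 := le_pp (sM σ a l (idx (τ 0) (τ p.succ)).1 (idx (τ 0) (τ p.succ)).2.1
    (idx (τ 0) (τ p.succ)).2.2 (τ 3))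
  have e : am σ a l (τ 0) (τ p.succ) = sm σ a l (idx (τ 0) (τ p.succ)).1
    (idx (τ 0) (τ p.succ)).2.1 (idx (τ 0) (τ p.succ)).2.2 := rfl
  have e0 : MA σ a l τ p 0 = pp (sM σ a l (idx (τ 0) (τ p.succ)).1 (idx (τ 0) (τ p.succ)).2.1
    (idx (τ 0) (τ p.succ)).2.2 (τ 1)) := rfl
  have e1 : MA σ a l τ p 1 = pp (sM σ a l (idx (τ 0) (τ p.succ)).1 (idx (τ 0) (τ p.succ)).2.1
    (idx (τ 0) (τ p.succ)).2.2 (τ 2)) := rfl
  have e2 : MA σ a l τ p 2 = pp (sM σ a l (idx (τ 0) (τ p.succ)).1 (idx (τ 0) (τ p.succ)).2.1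
    (idx (τ 0) (τ p.succ)).2.2 (τ 3)) := rfl
  rw [e, e0, e1, e2]
  linarith

/-- the coordinates of the highest point sum up to at least `1` -/
theorem b3_ge {a : Fin 4 → E3} (g : Gram4 (al a)) {x : E3} (hq : Pl a x)
    (hQ : 0 ≤ Qv a 0 x) : 1 ≤ b3 a x 0 + b3 a x 1 + b3 a x 2 := by
  have h1 := b3_sum g x
  have h2 := bar0_nonpos g hq hQ
  linarith

end arcs

end Helper41.VMaj
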