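import Pool.Agent.Helper99.MEI.PartsB
import Pool.Agent.Helper41.MEI.VBar

/-!
# Project MEI (M2), w-term: value majorants in coverage form

`GM + Σ T3 S = PV (R + PT S, s0 - ζ.R, E - M.R, E + M.S)`. For any `r ≥ R`, `b = ζ + LN ζ`:
* `PV_val`: `PV .. ≤ Σ vv (S + r) + lam alP (s0 - b.r) + Σ (aw + gw) (E - M.r)`;
* `val_corner`: the same at a corner, minus a load without nodes;
* `val_body`, `val_uni`: the value of the strips on the body, any radii / uniform radii;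
* `valZ_uni`: what `inst_Z` drops, uniform radii.
-/

set_option autoImplicit false

namespace Helper41.VMaj

open Set Metric MeasureTheory Helper80.CW Helper82.CW Helper14.CW Helper93.MEI Helper78.MEI
open Helper82.M2 Helper14.MEI2 Pool.Agent.Helper52.MEI Pool.Agent.Helper73.MEI Helper41.MEI
open Helper37.MEI Helper99.MEI
open Pool.Agent.Helper55.Sx (Sim)
open Pool.Agent.Helper55.Mass (LN LN_nonneg vv vv_nonneg vv_le Id)
open Pool.Agent.Helper55.Apex (nc vt_vv)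
open Pool.Agent.Helper55.ApexP (PN alP alP_nonneg alP_zeta alP_le xx_mu mu_bal)
open Pool.Agent.Helper55.Fill (xx rr rr_nonneg xx_nonneg xx_le xx_feas)
open Pool.Agent.Helper73.MEI.SideP (flP flP_nonneg flP_zero flP_pair)
open Pool.Agent.Helper96.Kap (kap kap_nonneg kap_add)
open Pool.Agent.Helper31.SR
open Helper75.MEI2 (mu vt)
open scoped RealInnerProductSpace ENNReal

section abs
variable {N : Fin 3 → Fin 3 → ℝ} (hN : ∀ k m, 0 ≤ N k m) (hd : ∀ k, N k k = 0) {c0 : ℝ}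
  (hc : c0 < 1) (hcol : ∀ m, nc N m ≤ c0)
include hN hd hc hcol

/-- the leaks of the nodes cover the leaks of the apex -/
theorem LN_cover {φ lam : ℝ} (hφ : 0 < φ) (hl0 : 0 ≤ lam) (hl1 : lam ≤ 1 - φ)
    {ζ ζp : Fin 3 → ℝ} (hζp : ∀ k, 0 < ζp k) (hζ : ∀ k, ζ k ≤ ζp k)
    {t : ℝ × ℝ} (ht : t ∈ Sim) (k : Fin 3) :
    lam * alP N ζp t * LN N ζ k ≤ LN N (xx N (vv t)) k := by
  have hal0 := mul_nonneg hl0 (alP_nonneg (N := N) hζp t)
  have s20 : ∀ m, 0 ≤ S2 (fun p => φ * flP (PN N) p t) m := fun m => by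
    have f := fun p => mul_nonneg hφ.le (flP_nonneg (P := PN N) p t)
    have f0 := f 0
    have f1 := f 1
    have f2 := f 2
    unfold S2
    fin_cases m
    · simp only [Fin.zero_eta]
      linarith
    · simp only [Fin.mk_one]
      linarith
    · simp only [Fin.reduceFinMk]
      linarith
  have r1 : ∀ m, lam * alP N ζp t * ζ m ≤ xx N (vv t) m := fun m => by
    have h1 := room hN hd hc hcol hφ hl0 hl1 hζp ht m
    have h2 := mul_le_mul_of_nonneg_left (hζ m) hal0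
    have h3 := s20 m
    linarith
  have e0 := mul_le_mul_of_nonneg_left (r1 0) (hN k 0)
  have e1 := mul_le_mul_of_nonneg_left (r1 1) (hN k 1)
  have e2 := mul_le_mul_of_nonneg_left (r1 2) (hN k 2)
  unfold LN
  linarith

omit hd in
/-- the residual arcs fit in the residual -/
theorem gw_cover {A' : ℝ} (hA' : 0 < A') {β ρ : Fin 3 → ℝ} (hβ0 : ∀ p, 0 ≤ β p)
    (hK : ∀ p, β p * ρ p ≤ A' * Id (fun t => kap N (vv t) p))
    {M : Fin 3 → Fin 3 → ℝ} (hMl : ∀ l, M l l = 0) (hMρ : ∀ l k, k ≠ l → M l k ≤ ρ l)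
    {t : ℝ × ℝ} (ht : t ∈ Sim) (k : Fin 3) :
    gw A' N β 0 t * M 0 k + gw A' N β 1 t * M 1 k + gw A' N β 2 t * M 2 k ≤ rr N (vv t) k := by
  have h3 : ∀ p, gw A' N β p t * M p k ≤ if p = k then 0 else kap N (vv t) p := by
    intro p
    by_cases e : p = k
    · rw [e, hMl, if_pos rfl, mul_zero]
    · rw [if_neg e]
      have k1 := mul_le_mul_of_nonneg_left (hMρ p k (Ne.symm e)) (ast0 hN hc hcol hA' hβ0 ht p)
      exact k1.trans (ast_room hN hc hcol hA' hK ht p)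
  have h4 : (if (0 : Fin 3) = k then 0 else kap N (vv t) 0)
      + (if (1 : Fin 3) = k then 0 else kap N (vv t) 1)
      + (if (2 : Fin 3) = k then 0 else kap N (vv t) 2) =
      S2 (fun p => kap N (vv t) p) k := by
    unfold S2
    fin_cases k <;> simp <;> ring
  have a0 := h3 0
  have a1 := h3 1
  have a2 := h3 2
  have a3 := kap_S2 hN hc hcol ht k
  linarith

/-- **the value in coverage form** -/
theorem PV_val {A' φ lam : ℝ} (hA' : 0 < A') (hφ : 0 < φ) (hl0 : 0 ≤ lam) (hl1 : lam ≤ 1 - φ)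
    {ζ ζp : Fin 3 → ℝ} (hζp : ∀ k, 0 < ζp k) (hζ : ∀ k, ζ k ≤ ζp k)
    {β ρ : Fin 3 → ℝ} (hβ0 : ∀ p, 0 ≤ β p) (hβ1 : ∀ p, β p ≤ 1)
    (hK : ∀ p, β p * ρ p ≤ A' * Id (fun t => kap N (vv t) p))
    (hF : ∀ p, (1 - β p) * ρ p ≤ φ * (A' * Id (flP (PN N) p)))
    {M : Fin 3 → Fin 3 → ℝ} (hMl : ∀ l, M l l = 0) (hMρ : ∀ l k, k ≠ l → M l k ≤ ρ l)
    {E R r S : Fin 3 → ℝ} {s0 : ℝ} (hR : ∀ k, R k ≤ r k) (hr : ∀ k, 0 ≤ r k)
    (hS : ∀ k, 0 ≤ S k) {t : ℝ × ℝ} (ht : t ∈ Sim) :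
    PV A' N ζp lam φ β (fun k => R k + PT N S k) (s0 - (ζ 0 * R 0 + ζ 1 * R 1 + ζ 2 * R 2))
        (fun l => E l - (M l 0 * R 0 + M l 1 * R 1 + M l 2 * R 2))
        (fun l => E l + (M l 0 * S 0 + M l 1 * S 1 + M l 2 * S 2)) t ≤
      (vv t 0 * (S 0 + r 0) + vv t 1 * (S 1 + r 1) + vv t 2 * (S 2 + r 2))
      + lam * alP N ζp t * (s0 - ((ζ 0 + LN N ζ 0) * r 0 + (ζ 1 + LN N ζ 1) * r 1
        + (ζ 2 + LN N ζ 2) * r 2))
      + (aw A' N φ β 0 t * (E 0 - (M 0 0 * r 0 + M 0 1 * r 1 + M 0 2 * r 2))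
        + aw A' N φ β 1 t * (E 1 - (M 1 0 * r 0 + M 1 1 * r 1 + M 1 2 * r 2))
        + aw A' N φ β 2 t * (E 2 - (M 2 0 * r 0 + M 2 1 * r 1 + M 2 2 * r 2)))
      + (gw A' N β 0 t * (E 0 - (M 0 0 * r 0 + M 0 1 * r 1 + M 0 2 * r 2))
        + gw A' N β 1 t * (E 1 - (M 1 0 * r 0 + M 1 1 * r 1 + M 1 2 * r 2))
        + gw A' N β 2 t * (E 2 - (M 2 0 * r 0 + M 2 1 * r 1 + M 2 2 * r 2))) := by
  have hX := fun k => Xk_nonneg hN hd hc hcol hA' hφ hl0 hl1 hζp hζ hβ1 hMl hMρ hF ht k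
  have hY := fun k => LN_cover hN hd hc hcol hφ hl0 hl1 hζp hζ ht k
  have hW := fun k => gw_cover hN hc hcol hA' hβ0 hK hMl hMρ ht k
  have eX : ∀ k, Xk A' N ζ ζp lam (fun p t => φ * flP (PN N) p t) β M t k =
      xx N (vv t) k - (lam * alP N ζp t * ζ k + (aw A' N φ β 0 t * M 0 k
        + aw A' N φ β 1 t * M 1 k + aw A' N φ β 2 t * M 2 k)) := fun k => by
    unfold Xk aw
    rw [Fin.sum_univ_three]
  have eR : ∀ k, rr N (vv t) k = vv t k - (xx N (vv t) k + LN N (xx N (vv t)) k) := fun k => rfl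
  have d := PT_dual N S (xx N (vv t))
  have a : ∀ k, 0 ≤ (xx N (vv t) k - (lam * alP N ζp t * ζ k + (aw A' N φ β 0 t * M 0 k
        + aw A' N φ β 1 t * M 1 k + aw A' N φ β 2 t * M 2 k))) * (r k - R k) := fun k => by
    have := hX k
    rw [eX] at this
    exact mul_nonneg this (sub_nonneg.2 (hR k))
  have b : ∀ k, 0 ≤ (LN N (xx N (vv t)) k - lam * alP N ζp t * LN N ζ k) * r k := fun k =>
    mul_nonneg (sub_nonneg.2 (hY k)) (hr k)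
  have e : ∀ k, 0 ≤ ((vv t k - (xx N (vv t) k + LN N (xx N (vv t)) k))
      - (gw A' N β 0 t * M 0 k + gw A' N β 1 t * M 1 k + gw A' N β 2 t * M 2 k)) *
        (S k + r k) := fun k => by
    have := hW k
    rw [eR] at this
    exact mul_nonneg (sub_nonneg.2 this) (add_nonneg (hS k) (hr k))
  have a0 := a 0
  have a1 := a 1
  have a2 := a 2
  have b0 := b 0
  have b1 := b 1
  have b2 := b 2
  have e0 := e 0
  have e1 := e 1
  have e2 := e 2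
  unfold PV
  linarith

/-- **the value at a corner**, minus a load `(0, e', c', c')` without nodes -/
theorem val_corner {A' φ lam : ℝ} (hA' : 0 < A') (hφ : 0 < φ) (hl0 : 0 ≤ lam)
    (hl1 : lam ≤ 1 - φ) {ζ ζp : Fin 3 → ℝ} (hζp : ∀ k, 0 < ζp k) (hζ : ∀ k, ζ k ≤ ζp k)
    {β ρ : Fin 3 → ℝ} (hβ0 : ∀ p, 0 ≤ β p) (hβ1 : ∀ p, β p ≤ 1)
    (hK : ∀ p, β p * ρ p ≤ A' * Id (fun t => kap N (vv t) p))
    (hF : ∀ p, (1 - β p) * ρ p ≤ φ * (A' * Id (flP (PN N) p)))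
    {M : Fin 3 → Fin 3 → ℝ} (hMl : ∀ l, M l l = 0) (hMρ : ∀ l k, k ≠ l → M l k ≤ ρ l)
    {E R r S c' : Fin 3 → ℝ} {s0 e' g rA Cer ν : ℝ} (hR : ∀ k, R k ≤ r k) (hr : ∀ k, 0 ≤ r k)
    (hS : ∀ k, 0 ≤ S k) (hrA : 0 ≤ rA)
    (hap : s0 - ((ζ 0 + LN N ζ 0) * r 0 + (ζ 1 + LN N ζ 1) * r 1 + (ζ 2 + LN N ζ 2) * r 2) - e' ≤
      rA * (ζp 0 + ζp 1 + ζp 2)) (hg : 0 ≤ g)
    (hcc : ∀ p, E p - (M p 0 * r 0 + M p 1 * r 1 + M p 2 * r 2) - c' p ≤ g * ρ p)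
    (hCer : 0 ≤ Cer) (hC3 : (∀ p, β p = 0) ∨ g ≤ Cer)
    {t : ℝ × ℝ} (ht : t ∈ Sim) {i j k : Fin 3} (hij : i ≠ j) (hik : i ≠ k) (hjk : j ≠ k)
    (hν : rr N (vv t) j + rr N (vv t) k ≤ ν * (vv t j + vv t k)) :
    PV A' N ζp lam φ β (fun k => R k + PT N S k) (s0 - (ζ 0 * R 0 + ζ 1 * R 1 + ζ 2 * R 2))
        (fun l => E l - (M l 0 * R 0 + M l 1 * R 1 + M l 2 * R 2))
        (fun l => E l + (M l 0 * S 0 + M l 1 * S 1 + M l 2 * S 2)) t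
      - PV A' N ζp lam φ β (fun _ => 0) e' c' c' t ≤
      (vv t 0 * (S 0 + r 0) + vv t 1 * (S 1 + r 1) + vv t 2 * (S 2 + r 2))
      + lam * rA + (φ * g + Cer * ν) * (vv t j + vv t k) := by
  have hb : ∀ k, 0 ≤ vv t k := fun k => vv_nonneg ht k
  have h0 := PV_val hN hd hc hcol hA' hφ hl0 hl1 hζp hζ hβ0 hβ1 hK hF hMl hMρ (E := E) (s0 := s0)
    hR hr hS ht
  have h1 := drop_apex hN hd hc hcol hζp hl0 hrA hap ht
  have h2 := drop_arc hN hd hc hcol hφ hA' hβ1 hF hg hcc ht hij hik hjk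
  have h3 := mul_le_mul_of_nonneg_left (min_le_left (xx N (vv t) j + xx N (vv t) k) (1 / 2))
    (mul_nonneg hφ.le hg)
  have h4 := mul_le_mul_of_nonneg_left
    (add_le_add (xx_le hN hc hcol hb j) (xx_le hN hc hcol hb k)) (mul_nonneg hφ.le hg)
  have r0 := add_nonneg (rr_nonneg hN hc hcol hb j) (rr_nonneg hN hc hcol hb k)
  have h5 : gw A' N β 0 t * (E 0 - (M 0 0 * r 0 + M 0 1 * r 1 + M 0 2 * r 2) - c' 0)
        + gw A' N β 1 t * (E 1 - (M 1 0 * r 0 + M 1 1 * r 1 + M 1 2 * r 2) - c' 1)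
        + gw A' N β 2 t * (E 2 - (M 2 0 * r 0 + M 2 1 * r 1 + M 2 2 * r 2) - c' 2) ≤
      Cer * (rr N (vv t) j + rr N (vv t) k) := by
    rcases hC3 with hz | hC3
    · have e : ∀ p, gw A' N β p t = 0 := fun p => by
        unfold gw ast
        rw [hz p, zero_mul]
      rw [e, e, e]
      simp only [zero_mul, add_zero]
      exact mul_nonneg hCer r0
    · exact (drop_res hN hc hcol hA' hβ0 hK hg hcc ht hij hik hjk).trans
        (mul_le_mul_of_nonneg_right hC3 r0)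
  have h6 := mul_le_mul_of_nonneg_left hν hCer
  have e0 : PV A' N ζp lam φ β (fun _ => 0) e' c' c' t = lam * alP N ζp t * e'
      + (aw A' N φ β 0 t * c' 0 + aw A' N φ β 1 t * c' 1 + aw A' N φ β 2 t * c' 2)
      + (gw A' N β 0 t * c' 0 + gw A' N β 1 t * c' 1 + gw A' N β 2 t * c' 2) := by
    unfold PV
    ring
  rw [e0]
  linarith

end abs

section arcs
variable {a : Fin 4 → E3} {σ : Measure (E3 × E3)} {K : Set E3} {S : Fin 4 → ℝ}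
  {c : Fin 4 → E3} {z : Fin 4 → Fin 4 → E3} {l : Fin 3 → Bool → Bool → E3 × E3 → ℝ}

/-- the two main columns -/
theorem am_le_MB [IsFiniteMeasure σ] (ha : ∀ i j, i ≠ j → dist (a i) (a j) = 1) (hl : Lok a l)
    (hK : IsCompact K) (hσ : ∀ᵐ z ∂σ, z.1 ∈ K ∧ z.2 ∈ K) (hp : ∀ x ∈ K, Pl a x)
    (τ : Equiv.Perm (Fin 4)) (p : Fin 3) {δ : ℝ} (hδ : MA σ a l τ p p ≤ δ) :
    am σ a l (τ 0) (τ p.succ) - δ ≤ MB σ a l τ p 0 + MB σ a l τ p 1 + MB σ a l τ p 2 := by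
  have h1 := am_le_MA ha hl hK hσ hp τ p
  unfold MB
  fin_cases p
  · simp only [Fin.zero_eta] at h1 hδ ⊢
    simp only [if_true, show ¬ ((1 : Fin 3) = 0) by decide, show ¬ ((2 : Fin 3) = 0) by decide,
      if_false]
    linarith
  · simp only [Fin.mk_one] at h1 hδ ⊢
    simp only [if_true, show ¬ ((0 : Fin 3) = 1) by decide, show ¬ ((2 : Fin 3) = 1) by decide,
      if_false]
    linarith
  · simp only [Fin.reduceFinMk] at h1 hδ ⊢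
    simp only [if_true, show ¬ ((0 : Fin 3) = 2) by decide, show ¬ ((1 : Fin 3) = 2) by decide,
      if_false]
    linarith

/-- **the level of an arc against uniform radii** -/
theorem arc_uni [IsFiniteMeasure σ] (ha : ∀ i j, i ≠ j → dist (a i) (a j) = 1) (hl : Lok a l)
    (hK : IsCompact K) (hσ : ∀ᵐ z ∂σ, z.1 ∈ K ∧ z.2 ∈ K) (hp : ∀ x ∈ K, Pl a x)
    (τ : Equiv.Perm (Fin 4)) (p : Fin 3) {δ s r : ℝ} (hδ : MA σ a l τ p p ≤ δ)
    (hQ : ∀ x ∈ K, Qv a (τ 0) x ≤ s) (hr : s ≤ r) (hr0 : 0 ≤ r) :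
    aE σ a l (τ 0) (τ p.succ) - (MB σ a l τ p 0 * r + MB σ a l τ p 1 * r + MB σ a l τ p 2 * r) ≤
      r * δ := by
  have hne : τ 0 ≠ τ p.succ := fun h => (Fin.succ_ne_zero p) (τ.injective h).symm
  have h1 := aE_le ha hl hK hσ hp hne hQ
  have h2 := am_nonneg (σ := σ) hl (τ 0) (τ p.succ)
  have h3 := mul_le_mul_of_nonneg_right hr h2
  have h4 := mul_le_mul_of_nonneg_left (am_le_MB ha hl hK hσ hp τ p hδ) hr0
  linarith

/-! ### on the body -/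

/-- **the value of the strips on the body**, any radii `r ≥ R` -/
theorem val_body (h : CN K σ a c) (v : Viol K a S) (hz : CV a K z)
    (τ : Equiv.Perm (Fin 4)) {A' : ℝ} (hA' : 0 < A')
    {ρ β : Fin 3 → ℝ} (hMρ : ∀ p k, k ≠ p → MA σ a l τ p k ≤ ρ p)
    {N : Fin 3 → Fin 3 → ℝ} (hNd : N = NM (fun i => a (τ i)) (fun i j => z (τ i) (τ j)))
    {R r : Fin 3 → ℝ} (hR : ∀ k, R k ≤ r k) (hr : ∀ k, 0 ≤ r k)
    {ζ ζp : Fin 3 → ℝ} (hζp : ∀ k, 0 < ζp k) (hζ : ∀ k, ζ k ≤ ζp k)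
    {φ lam : ℝ} (hφ : 0 < φ) (hl0 : 0 ≤ lam) (hl1 : lam ≤ 1 - φ)
    (hβ0 : ∀ p, 0 ≤ β p) (hβ1 : ∀ p, β p ≤ 1)
    (hK : ∀ p, β p * ρ p ≤ A' * Id (fun t => kap N (vv t) p))
    (hF : ∀ p, (1 - β p) * ρ p ≤ φ * (A' * Id (flP (PN N) p)))
    {E c' : Fin 3 → ℝ} {s0 e' g rA Cer ν : ℝ} (hrA : 0 ≤ rA)
    (hap : s0 - ((ζ 0 + LN N ζ 0) * r 0 + (ζ 1 + LN N ζ 1) * r 1 + (ζ 2 + LN N ζ 2) * r 2) - e' ≤
      rA * (ζp 0 + ζp 1 + ζp 2)) (hg : 0 ≤ g)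
    (hcc : ∀ p, E p - (MB σ a l τ p 0 * r 0 + MB σ a l τ p 1 * r 1 + MB σ a l τ p 2 * r 2)
      - c' p ≤ g * ρ p)
    (hCer : 0 ≤ Cer) (hC3 : (∀ p, β p = 0) ∨ g ≤ Cer)
    {t : ℝ × ℝ} (ht : t ∈ Sim) {i j k : Fin 3} (hij : i ≠ j) (hik : i ≠ k) (hjk : j ≠ k)
    (hν : rr N (vv t) j + rr N (vv t) k ≤ ν * (vv t j + vv t k)) :
    GM A' N ζ ζp lam (fun p t => φ * flP (PN N) p t) (fun p t => kap N (vv t) p) β
        (MB σ a l τ) E R (fun k => S (τ k.succ)) s0 t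
      - (-(T3 t 0 * S (τ 1) + T3 t 1 * S (τ 2) + T3 t 2 * S (τ 3))
        + PV A' N ζp lam φ β (fun _ => 0) e' c' c' t) ≤
      (vv t 0 * (S (τ 1) + r 0) + vv t 1 * (S (τ 2) + r 1) + vv t 2 * (S (τ 3) + r 2))
      + lam * rA + (φ * g + Cer * ν) * (vv t j + vv t k) := by
  have h' := h.perm τ
  have v' := viol_perm v τ
  have hz' := hz.perm τ
  have hN : ∀ k m, 0 ≤ N k m := fun k m => by
    rw [hNd]
    exact NM_nonneg h' v' hz' k m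
  have hd : ∀ k, N k k = 0 := fun k => by
    rw [hNd]
    exact NM_diag k
  have hcol : ∀ m, nc N m ≤ 9 / 10 := fun m => by
    rw [hNd]
    exact nc_le h' v' hz' m
  have hc : (9 / 10 : ℝ) < 1 := by norm_num
  have hM : ∀ p k, k ≠ p → MB σ a l τ p k ≤ ρ p := fun p k hk => by
    unfold MB
    rw [if_neg hk]
    exact hMρ p k hk
  have h1 := val_corner hN hd hc hcol hA' hφ hl0 hl1 hζp hζ hβ0 hβ1 hK hF
    (fun p => MB_diag (σ := σ) (a := a) (l := l) τ p) hM (S := fun k => S (τ k.succ)) hR hr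
    (fun k => v.nn _) hrA hap hg hcc hCer hC3 ht hij hik hjk hν
  have u1 : τ (Fin.succ 0) = τ 1 := rfl
  have u2 : τ (Fin.succ 1) = τ 2 := rfl
  have u3 : τ (Fin.succ 2) = τ 3 := rfl
  rw [GM_PV]
  beta_reduce at h1
  rw [u1, u2, u3] at h1 ⊢
  linarith

/-- **the value of the strips, uniform radii**: `E ≤ C + r + (φ g + Cer ν) (x + y)` -/
theorem val_uni [IsFiniteMeasure σ] (h : CN K σ a c) (v : Viol K a S) (hz : CV a K z)
    (τ : Equiv.Perm (Fin 4)) {A' : ℝ} (hA' : 0 < A') (hl : Lok a l)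
    {δ dE : Fin 3 → ℝ} (hδ : ∀ p, MA σ a l τ p p ≤ δ p) (hdE : ∀ p, 0 ≤ dE p)
    {ρ β : Fin 3 → ℝ} (hρ : ∀ p, 0 < ρ p) (hMρ : ∀ p k, k ≠ p → MA σ a l τ p k ≤ ρ p)
    {x : E3} (hx : x ∈ K)
    {N : Fin 3 → Fin 3 → ℝ} (hNd : N = NM (fun i => a (τ i)) (fun i j => z (τ i) (τ j)))
    {R : Fin 3 → ℝ} {r : ℝ} (hR : ∀ k, R k ≤ r) (hsr : S (τ 0) ≤ r)
    (hxs : Qv a (τ 0) x = S (τ 0) ∨ (S (τ 0) = 0 ∧ ∀ k, R k = 0))
    {ζ ζp : Fin 3 → ℝ} (hζd : ζ = zc (fun i => a (τ i)) N x) (hζp : ∀ k, 0 < ζp k)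
    (hζ : ∀ k, ζ k ≤ ζp k)
    {φ lam : ℝ} (hφ : 0 < φ) (hl0 : 0 ≤ lam) (hl1 : lam ≤ 1 - φ)
    (hβ0 : ∀ p, 0 ≤ β p) (hβ1 : ∀ p, β p ≤ 1)
    (hK : ∀ p, β p * ρ p ≤ A' * Id (fun t => kap N (vv t) p))
    (hF : ∀ p, (1 - β p) * ρ p ≤ φ * (A' * Id (flP (PN N) p)))
    {g Cer ν : ℝ} (hg : 0 ≤ g) (hgr : ∀ p, r * δ p ≤ g * ρ p)
    (hCer : 0 ≤ Cer) (hC3 : (∀ p, β p = 0) ∨ g ≤ Cer)
    {t : ℝ × ℝ} (ht : t ∈ Sim) {i j k : Fin 3} (hij : i ≠ j) (hik : i ≠ k) (hjk : j ≠ k)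
    (hν : rr N (vv t) j + rr N (vv t) k ≤ ν * (vv t j + vv t k)) :
    GM A' N ζ ζp lam (fun p t => φ * flP (PN N) p t) (fun p t => kap N (vv t) p) β
        (MB σ a l τ) (fun p => aE σ a l (τ 0) (τ p.succ) - dE p) R
        (fun k => S (τ k.succ)) (S (τ 0)) t
      + (T3 t 0 * S (τ 1) + T3 t 1 * S (τ 2) + T3 t 2 * S (τ 3)) ≤
      (vv t 0 * S (τ 1) + vv t 1 * S (τ 2) + vv t 2 * S (τ 3)) + r
      + (φ * g + Cer * ν) * (vv t j + vv t k) := by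
  have h' := h.perm τ
  have v' := viol_perm v τ
  have hz' := hz.perm τ
  have hN : ∀ k m, 0 ≤ N k m := fun k m => by
    rw [hNd]
    exact NM_nonneg h' v' hz' k m
  have hd : ∀ k, N k k = 0 := fun k => by
    rw [hNd]
    exact NM_diag k
  have hcol : ∀ m, nc N m ≤ 9 / 10 := fun m => by
    rw [hNd]
    exact nc_le h' v' hz' m
  have hc : (9 / 10 : ℝ) < 1 := by norm_num
  have hgm := gram_of_dist h'.ha
  have hbal : ∀ k, ζ k + LN N ζ k = b3 (fun i => a (τ i)) x k := fun k => by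
    rw [hζd]
    exact mu_bal hN hd hc hcol (b3 (fun i => a (τ i)) x) k
  have s0 := v.nn (τ 0)
  have hr0 : 0 ≤ r := s0.trans hsr
  have hvs := vv_sum t
  have eP : PV A' N ζp lam φ β (fun _ => 0) 0 (fun _ => 0) (fun _ => 0) t = 0 := by
    unfold PV
    ring
  have hδ0 : ∀ p, 0 ≤ δ p := fun p => (MA_nonneg τ p p).trans (hδ p)
  rcases hxs with hxs | ⟨hs0, hRz⟩
  · have hb3 : 1 ≤ b3 (fun i => a (τ i)) x 0 + b3 (fun i => a (τ i)) x 1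
        + b3 (fun i => a (τ i)) x 2 :=
      b3_ge hgm (h'.hp x hx) (by
        have e : Qv (fun i => a (τ i)) 0 x = Qv a (τ 0) x := rfl
        rw [e, hxs]
        exact s0)
    have key := val_body (σ := σ) (l := l) h v hz τ hA' hMρ hNd (r := fun _ => r) hR
      (fun _ => hr0) hζp hζ hφ hl0 hl1 hβ0 hβ1 hK hF
      (E := fun p => aE σ a l (τ 0) (τ p.succ) - dE p) (c' := fun _ => 0) (s0 := S (τ 0))
      (e' := 0) (g := g) (rA := 0) (Cer := Cer) (ν := ν) le_rfl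
      (by
        rw [hbal, hbal, hbal]
        have := mul_le_mul_of_nonneg_right hb3 hr0
        linarith) hg
      (fun p => by
        have k1 := arc_uni h.ha hl h.cpt h.pm.mem h.hp τ p (hδ p) (v.le (τ 0)) hsr hr0
        have k2 := hgr p
        have k3 := hdE p
        linarith) hCer hC3 ht hij hik hjk hν
    rw [eP] at key
    have hv3 : vv t 0 * r + vv t 1 * r + vv t 2 * r = r := by
      rw [← add_mul, ← add_mul, hvs, one_mul]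
    linarith
  · have key := val_body (σ := σ) (l := l) h v hz τ hA' hMρ hNd (R := R) (r := fun _ => 0)
      (fun k => (hRz k).le) (fun _ => le_rfl) hζp hζ hφ hl0 hl1 hβ0 hβ1 hK hF
      (E := fun p => aE σ a l (τ 0) (τ p.succ) - dE p) (c' := fun _ => 0) (s0 := S (τ 0))
      (e' := 0) (g := g) (rA := 0) (Cer := Cer) (ν := ν) le_rfl
      (by
        rw [hs0]
        linarith) hg
      (fun p => by
        have k1 := arc_uni h.ha hl h.cpt h.pm.mem h.hp τ p (hδ p) (v.le (τ 0)) hs0.le le_rfl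
        have k3 := hdE p
        have k4 := mul_nonneg hg (hρ p).le
        linarith) hCer hC3 ht hij hik hjk hν
    rw [eP] at key
    linarith

/-- **what `inst_Z` drops, uniform radii**: shares `θZ` of the apex and `θA` of the arcs kept -/
theorem valZ_uni [IsFiniteMeasure σ] (h : CN K σ a c) (v : Viol K a S) (hz : CV a K z)
    (τ : Equiv.Perm (Fin 4)) {A' : ℝ} (hA' : 0 < A') (hl : Lok a l)
    {δ dE : Fin 3 → ℝ} (hδ : ∀ p, MA σ a l τ p p ≤ δ p) (hdE : ∀ p, 0 ≤ dE p)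
    {ρ β : Fin 3 → ℝ} (hMρ : ∀ p k, k ≠ p → MA σ a l τ p k ≤ ρ p)
    {x : E3} (hx : x ∈ K)
    {N : Fin 3 → Fin 3 → ℝ} (hNd : N = NM (fun i => a (τ i)) (fun i j => z (τ i) (τ j)))
    {R : Fin 3 → ℝ} {r : ℝ} (hR : ∀ k, R k ≤ r) (hsr : S (τ 0) ≤ r)
    (hxs : Qv a (τ 0) x = S (τ 0))
    {ζ ζp : Fin 3 → ℝ} (hζd : ζ = zc (fun i => a (τ i)) N x) (hζp : ∀ k, 0 < ζp k)
    (hζ : ∀ k, ζ k ≤ ζp k)
    {φ lam : ℝ} (hφ : 0 < φ) (hl0 : 0 ≤ lam) (hl1 : lam ≤ 1 - φ)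
    (hβ0 : ∀ p, 0 ≤ β p) (hβ1 : ∀ p, β p ≤ 1)
    (hK : ∀ p, β p * ρ p ≤ A' * Id (fun t => kap N (vv t) p))
    (hF : ∀ p, (1 - β p) * ρ p ≤ φ * (A' * Id (flP (PN N) p)))
    {θZ θA : ℝ} (hA0 : 0 ≤ θA) (hA1 : θA ≤ 1)
    {rA : ℝ} (hrA : 0 ≤ rA)
    (hap : (S (τ 0) - r) - θZ * (S (τ 0) + ((ζ 0 + LN N ζ 0) * S (τ 1)
      + (ζ 1 + LN N ζ 1) * S (τ 2) + (ζ 2 + LN N ζ 2) * S (τ 3))) ≤ rA * (ζp 0 + ζp 1 + ζp 2))
    {g Cer ν : ℝ} (hg : 0 ≤ g) (hgr : ∀ p, r * δ p ≤ g * ρ p)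
    (hCer : 0 ≤ Cer) (hC3 : (∀ p, β p = 0) ∨ g ≤ Cer)
    {t : ℝ × ℝ} (ht : t ∈ Sim) {i j k : Fin 3} (hij : i ≠ j) (hik : i ≠ k) (hjk : j ≠ k)
    (hν : rr N (vv t) j + rr N (vv t) k ≤ ν * (vv t j + vv t k)) :
    GM A' N ζ ζp lam (fun p t => φ * flP (PN N) p t) (fun p t => kap N (vv t) p) β
        (MB σ a l τ) (fun p => aE σ a l (τ 0) (τ p.succ) - dE p) R
        (fun k => S (τ k.succ)) (S (τ 0)) t
      - (-(T3 t 0 * S (τ 1) + T3 t 1 * S (τ 2) + T3 t 2 * S (τ 3))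
        + PV A' N ζp lam φ β (fun _ => 0)
        (θZ * (Qv a (τ 0) x + ((ζ 0 + LN N ζ 0) * S (τ 1) + (ζ 1 + LN N ζ 1) * S (τ 2)
          + (ζ 2 + LN N ζ 2) * S (τ 3))))
        (fun p => θA * ((aE σ a l (τ 0) (τ p.succ) - dE p) + (MB σ a l τ p 0 * S (τ 1)
          + MB σ a l τ p 1 * S (τ 2) + MB σ a l τ p 2 * S (τ 3))))
        (fun p => θA * ((aE σ a l (τ 0) (τ p.succ) - dE p) + (MB σ a l τ p 0 * S (τ 1)
          + MB σ a l τ p 1 * S (τ 2) + MB σ a l τ p 2 * S (τ 3)))) t) ≤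
      (vv t 0 * S (τ 1) + vv t 1 * S (τ 2) + vv t 2 * S (τ 3)) + r + lam * rA
      + (φ * g + Cer * ν) * (vv t j + vv t k) := by
  have h' := h.perm τ
  have v' := viol_perm v τ
  have hz' := hz.perm τ
  have hN : ∀ k m, 0 ≤ N k m := fun k m => by
    rw [hNd]
    exact NM_nonneg h' v' hz' k m
  have hd : ∀ k, N k k = 0 := fun k => by
    rw [hNd]
    exact NM_diag k
  have hcol : ∀ m, nc N m ≤ 9 / 10 := fun m => by
    rw [hNd]
    exact nc_le h' v' hz' m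
  have hc : (9 / 10 : ℝ) < 1 := by norm_num
  have hgm := gram_of_dist h'.ha
  have hbal : ∀ k, ζ k + LN N ζ k = b3 (fun i => a (τ i)) x k := fun k => by
    rw [hζd]
    exact mu_bal hN hd hc hcol (b3 (fun i => a (τ i)) x) k
  have s0 := v.nn (τ 0)
  have hr0 : 0 ≤ r := s0.trans hsr
  have hvs := vv_sum t
  have hb3 : 1 ≤ b3 (fun i => a (τ i)) x 0 + b3 (fun i => a (τ i)) x 1
      + b3 (fun i => a (τ i)) x 2 :=
    b3_ge hgm (h'.hp x hx) (by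
      have e : Qv (fun i => a (τ i)) 0 x = Qv a (τ 0) x := rfl
      rw [e, hxs]
      exact s0)
  have key := val_body (σ := σ) (l := l) h v hz τ hA' hMρ hNd (r := fun _ => r) hR
    (fun _ => hr0) hζp hζ hφ hl0 hl1 hβ0 hβ1 hK hF
    (E := fun p => aE σ a l (τ 0) (τ p.succ) - dE p)
    (c' := fun p => θA * ((aE σ a l (τ 0) (τ p.succ) - dE p) + (MB σ a l τ p 0 * S (τ 1)
          + MB σ a l τ p 1 * S (τ 2) + MB σ a l τ p 2 * S (τ 3)))) (s0 := S (τ 0))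
    (e' := θZ * (Qv a (τ 0) x + ((ζ 0 + LN N ζ 0) * S (τ 1) + (ζ 1 + LN N ζ 1) * S (τ 2)
          + (ζ 2 + LN N ζ 2) * S (τ 3)))) (g := g) (rA := rA) (Cer := Cer) (ν := ν) hrA
    (by
      rw [hbal, hbal, hbal] at hap ⊢
      have := mul_le_mul_of_nonneg_right hb3 hr0
      rw [hxs]
      linarith) hg
    (fun p => by
      have k1 := arc_uni h.ha hl h.cpt h.pm.mem h.hp τ p (hδ p) (v.le (τ 0)) hsr hr0
      have k2 := hgr p
      have k3 := hdE p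
      have k4 : 0 ≤ aE σ a l (τ 0) (τ p.succ) + (MB σ a l τ p 0 * S (τ 1)
          + MB σ a l τ p 1 * S (τ 2) + MB σ a l τ p 2 * S (τ 3)) := by
        have m0 := mul_nonneg (MB_nonneg (σ := σ) (a := a) (l := l) τ p 0) (v.nn (τ 1))
        have m1 := mul_nonneg (MB_nonneg (σ := σ) (a := a) (l := l) τ p 1) (v.nn (τ 2))
        have m2 := mul_nonneg (MB_nonneg (σ := σ) (a := a) (l := l) τ p 2) (v.nn (τ 3))
        have m3 := aE_nonneg (σ := σ) hl (τ 0) (τ p.succ)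
        linarith
      have k5 := mul_nonneg hA0 k4
      have k6 := mul_le_mul_of_nonneg_right hA1 k3
      linarith) hCer hC3 ht hij hik hjk hν
  have hv3 : vv t 0 * r + vv t 1 * r + vv t 2 * r = r := by
    rw [← add_mul, ← add_mul, hvs, one_mul]
  linarith

end arcs

end Helper41.VMaj
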