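import Pool.Agent.Helper41.MEI.ArcV6
import Pool.Agent.Helper93.MEI.Blk6

/-!
# Project MEI (M2): the columns of the arcs of a face, all typed pieces together

`MA_sn`: signed bound (`SgB`) and bound of the negative part (`NgB`) give the columns.
`sgB_93`: the signed bound of `Helper93.MEI.Blk.mom_wt2` (slab `t`, bulk `θ`).
-/

set_option autoImplicit false

namespace Helper41.ArcY

open Set MeasureTheory Metric Helper80.CW Helper82.CW Helper14.CW Helper93.MEI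
open Helper14.MEI2 Pool.Agent.Helper73.MEI Helper37.MEI Helper41.MEI
open Pool.Agent.Helper31.SR Helper41.ArcT Helper41.ArcV
open Pool.Agent.Helper95.MEI.Fub (Zp int_cont co_e Zp_meas)
open scoped RealInnerProductSpace

variable {a : Fin 4 → E3} {K : Set E3} {σ : Measure (E3 × E3)}
  {l : Fin 3 → Bool → Bool → E3 × E3 → ℝ}

/-- an affine bound of the negative parts of the moments of the full weight -/
def NgB (σ : Measure (E3 × E3)) (a : Fin 4 → E3) (S : Fin 4 → ℝ) (n0 n1 n2 n3 : ℝ) : Prop :=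
  ∀ (m : Fin 3) (e i : Bool) (k k' : Fin 4), (k = 2 ∧ k' = 3 ∨ k = 3 ∧ k' = 2) →
    ∫ z in EE a m e, wt (ap a m e) i z.1 * max (-bar a (pf m e k) z.2) 0 ∂σ ≤
      n0 + n1 * S (pf m e k') + n2 * S (pf m e k) + n3 * (S (pf m e 0) + S (pf m e 1))

theorem vx_sum (S : Fin 4 → ℝ) (m : Fin 3) (e i : Bool) :
    S (vx m e i) + S (vx m e (!i)) = S (pf m e 0) + S (pf m e 1) := by
  cases i
  · rfl
  · show S (pf m e 1) + S (pf m e 0) = _
    ring

/-- **columns of a density below the full weight** -/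
theorem pos_sn [IsFiniteMeasure σ] (h : PM K σ) {S : Fin 4 → ℝ} {n0 n1 n2 n3 : ℝ}
    (hn : NgB σ a S n0 n1 n2 n3)
    (m : Fin 3) (e i : Bool) {k k' : Fin 4} (hk : k = 2 ∧ k' = 3 ∨ k = 3 ∧ k' = 2)
    {d : E3 × E3 → ℝ} (hd1 : ∀ᵐ z ∂σ, d z ≤ wt (ap a m e) i z.1)
    (hi1 : Integrable (fun z => d z * max (bar a (pf m e k) z.2) 0) σ)
    (hi2 : Integrable (fun z => d z * bar a (pf m e k) z.2) σ) :
    ∫ z in EE a m e, d z * max (bar a (pf m e k) z.2) 0 ∂σ ≤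
      (∫ z in EE a m e, d z * bar a (pf m e k) z.2 ∂σ) +
      (n0 + n1 * S (pf m e k') + n2 * S (pf m e k) +
        n3 * (S (pf m e 0) + S (pf m e 1))) := by
  have h1 := hn m e i k k' hk
  have i2 : Integrable (fun z : E3 × E3 => wt (ap a m e) i z.1 *
      max (-bar a (pf m e k) z.2) 0) σ :=
    int_cont h.cpt h.mem (((wt_cont (ap a m e) i).comp
      continuous_fst).mul (((Pool.Agent.Helper95.MEI.Fub.bar_cont a (pf m e k)).comp
        continuous_snd).neg.max continuous_const))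
  have h2 : ∫ z in EE a m e, d z * max (bar a (pf m e k) z.2) 0 ∂σ ≤
      ∫ z in EE a m e, (d z * bar a (pf m e k) z.2 +
        wt (ap a m e) i z.1 * max (-bar a (pf m e k) z.2) 0) ∂σ := by
    refine integral_mono_ae hi1.integrableOn (hi2.integrableOn.add i2.integrableOn) ?_
    filter_upwards [ae_restrict_of_ae (s := EE a m e) hd1] with z z1
    have z2 := mul_le_mul_of_nonneg_right z1 (le_max_right (-bar a (pf m e k) z.2) 0)
    have z3 : d z * max (bar a (pf m e k) z.2) 0 = d z * bar a (pf m e k) z.2 +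
        d z * max (-bar a (pf m e k) z.2) 0 := by
      rcases le_total 0 (bar a (pf m e k) z.2) with h0 | h0
      · rw [max_eq_left h0, max_eq_right (by linarith)]; ring
      · rw [max_eq_right h0, max_eq_left (by linarith)]; ring
    show d z * max (bar a (pf m e k) z.2) 0 ≤ d z * bar a (pf m e k) z.2 + _
    rw [z3]
    linarith
  rw [integral_add hi2.integrableOn i2.integrableOn] at h2
  linarith

/-- **the two columns of an arc**, any admissible losses -/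
theorem sM_sn [IsFiniteMeasure σ] (ha : ∀ i j, i ≠ j → dist (a i) (a j) = 1)
    (hl : Lok a l) (h : PM K σ) (hp : ∀ x ∈ K, Pl a x) {S : Fin 4 → ℝ}
    {n0 n1 n2 n3 C0 α γ β0 β1 : ℝ} (hs : SgB σ a S C0 α γ β0 β1) (hn : NgB σ a S n0 n1 n2 n3)
    (m : Fin 3) (e i : Bool) {k k' : Fin 4} (hk : k = 2 ∧ k' = 3 ∨ k = 3 ∧ k' = 2) :
    max (sM σ a l m e i (pf m e k)) 0 ≤
      (C0 + n0) + (α + n1) * S (pf m e k') + (γ + n2) * S (pf m e k) +
        (β0 + n3) * S (vx m e i) + (β1 + n3) * S (vx m e (!i)) := by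
  obtain ⟨C, hC⟩ := den_bdd ha hl h.cpt h.mem hp m e i
  have hwc := wt_cont (ap a m e) i
  have hbc := Pool.Agent.Helper95.MEI.Fub.bar_cont a (pf m e k)
  have i2 : Integrable (fun z : E3 × E3 => wt (ap a m e) i z.1 *
      max (bar a (pf m e k) z.2) 0) σ :=
    int_cont h.cpt h.mem ((hwc.comp continuous_fst).mul
      ((hbc.comp continuous_snd).max continuous_const))
  have h1 := pos_sn h hn m e i hk (d := fun z => wt (ap a m e) i z.1)
    (Filter.Eventually.of_forall fun z => le_rfl) i2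
    (int_cont h.cpt h.mem ((hwc.comp continuous_fst).mul (hbc.comp continuous_snd)))
  have h2 := hs m e i k k' hk
  have h4 : n3 * (S (vx m e i) + S (vx m e (!i))) =
      n3 * (S (pf m e 0) + S (pf m e 1)) := by rw [vx_sum S m e i]
  have h5 : ∫ z in EE a m e, wt (ap a m e) i z.1 * max (bar a (pf m e k) z.2) 0 ∂σ ≤
      (C0 + n0) + (α + n1) * S (pf m e k') + (γ + n2) * S (pf m e k) +
        (β0 + n3) * S (vx m e i) + (β1 + n3) * S (vx m e (!i)) := by linarith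
  refine le_trans ?_ h5
  have i1 := dens_int (σ := σ) h.cpt h.mem (den_meas hl m e i) (den_nn hl m e i) hC
    ((Pool.Agent.Helper95.MEI.Fub.bar_cont a (pf m e k)).comp continuous_snd)
  unfold sM
  apply max_le
  · refine integral_mono_ae i1.integrableOn i2.integrableOn ?_
    filter_upwards [ae_restrict_of_ae h.mem] with z hz
    have h1 := den_nonneg hl m e i z
    have h2 := den_le (hgp ha) hl m e i (hp _ hz.1)
    have h3 : bar a (pf m e k) z.2 ≤ max (bar a (pf m e k) z.2) 0 := le_max_left _ _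
    have h4 : 0 ≤ max (bar a (pf m e k) z.2) 0 := le_max_right _ _
    exact (mul_le_mul_of_nonneg_left h3 h1).trans (mul_le_mul_of_nonneg_right h2 h4)
  · apply integral_nonneg_of_ae
    filter_upwards [ae_restrict_of_ae h.mem] with z hz
    exact mul_nonneg (wt_nonneg (hgp ha m e) i (Pl_perm _ (hp _ hz.1))) (le_max_right _ _)

/-- **the two columns of the arc `p` of the face of `τ 0`**; `k` the column, `j` the other end -/
theorem MA_sn [IsFiniteMeasure σ] (ha : ∀ i j, i ≠ j → dist (a i) (a j) = 1)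
    (hl : Lok a l) (h : PM K σ) (hp : ∀ x ∈ K, Pl a x) {S : Fin 4 → ℝ}
    {n0 n1 n2 n3 C0 α γ β0 β1 : ℝ} (hs : SgB σ a S C0 α γ β0 β1) (hn : NgB σ a S n0 n1 n2 n3)
    (τ : Equiv.Perm (Fin 4)) {p k j : Fin 3} (hk : k ≠ p) (hj : j ≠ p) (hjk : j ≠ k) :
    MA σ a l τ p k ≤ (C0 + n0) + (α + n1) * S (τ j.succ) +
      (γ + n2) * S (τ k.succ) + (β0 + n3) * S (τ 0) + (β1 + n3) * S (τ p.succ) := by
  have hne : τ 0 ≠ τ p.succ := fun h => (Fin.succ_ne_zero p) (τ.injective h).symm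
  have h1 : τ k.succ ≠ τ 0 := fun h => (Fin.succ_ne_zero k) (τ.injective h)
  have h2 : τ k.succ ≠ τ p.succ := fun h => hk (Fin.succ_injective _ (τ.injective h))
  have hv := idx_vx (τ 0) (τ p.succ) hne
  have hτ : S (τ 0) + S (τ 1) + S (τ 2) + S (τ 3) = sS S := by
    have h3 := Equiv.sum_comp τ S
    rw [Fin.sum_univ_four, Fin.sum_univ_four] at h3
    exact h3
  have h3 := sum3 (fun r => S (τ r.succ)) p k j hk.symm hjk.symm hj
  have h3' : S (τ p.succ) + S (τ k.succ) + S (τ j.succ) = S (τ 1) + S (τ 2) + S (τ 3) := h3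
  have h4 := vx_sum S (idx (τ 0) (τ p.succ)).1 (idx (τ 0) (τ p.succ)).2.1
    (idx (τ 0) (τ p.succ)).2.2
  rw [hv.1, hv.2] at h4
  have h5 := sS_pf S (idx (τ 0) (τ p.succ)).1 (idx (τ 0) (τ p.succ)).2.1
  unfold MA Pool.Agent.Helper31.SR.aM pp
  rcases idx_pf (τ 0) (τ p.succ) (τ k.succ) hne h1 h2 with h6 | h6
  · have g := sM_sn ha hl h hp hs hn (idx (τ 0) (τ p.succ)).1
      (idx (τ 0) (τ p.succ)).2.1 (idx (τ 0) (τ p.succ)).2.2 (k := 2) (k' := 3)
      (Or.inl ⟨rfl, rfl⟩)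
    rw [hv.1, hv.2, h6] at g
    rw [h6] at h5
    have h7 : S (pf (idx (τ 0) (τ p.succ)).1 (idx (τ 0) (τ p.succ)).2.1 3) = S (τ j.succ) := by
      linarith
    rw [h7] at g
    exact g
  · have g := sM_sn ha hl h hp hs hn (idx (τ 0) (τ p.succ)).1
      (idx (τ 0) (τ p.succ)).2.1 (idx (τ 0) (τ p.succ)).2.2 (k := 3) (k' := 2)
      (Or.inr ⟨rfl, rfl⟩)
    rw [hv.1, hv.2, h6] at g
    rw [h6] at h5
    have h7 : S (pf (idx (τ 0) (τ p.succ)).1 (idx (τ 0) (τ p.succ)).2.1 2) = S (τ j.succ) := by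
      linarith
    rw [h7] at g
    exact g

/-- one number for all columns -/
theorem MA_rho_sn [IsFiniteMeasure σ] (ha : ∀ i j, i ≠ j → dist (a i) (a j) = 1)
    (hl : Lok a l) (h : PM K σ) (hp : ∀ x ∈ K, Pl a x) {S : Fin 4 → ℝ} (hS0 : ∀ i, 0 ≤ S i)
    {n0 n1 n2 n3 C0 α γ β0 β1 c X : ℝ} (hs : SgB σ a S C0 α γ β0 β1)
    (hn : NgB σ a S n0 n1 n2 n3) (hT : S 0 + S 1 + S 2 + S 3 ≤ X) (hc : 0 ≤ c)
    (c1 : α + n1 ≤ c) (c2 : γ + n2 ≤ c) (c3 : β0 + n3 ≤ c) (c4 : β1 + n3 ≤ c)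
    (τ : Equiv.Perm (Fin 4)) {p k : Fin 3} (hk : k ≠ p) :
    MA σ a l τ p k ≤ (C0 + n0) + c * X := by
  obtain ⟨j, hj, hjk⟩ : ∃ j : Fin 3, j ≠ p ∧ j ≠ k := by
    revert hk
    fin_cases p <;> fin_cases k <;> decide
  have h1 := MA_sn ha hl h hp hs hn τ hk hj hjk
  have hτ : S (τ 0) + S (τ 1) + S (τ 2) + S (τ 3) = S 0 + S 1 + S 2 + S 3 := by
    have h3 := Equiv.sum_comp τ S
    rw [Fin.sum_univ_four, Fin.sum_univ_four] at h3
    exact h3
  have h3 := sum3 (fun r => S (τ r.succ)) p k j hk.symm hjk.symm hj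
  have h3' : S (τ p.succ) + S (τ k.succ) + S (τ j.succ) = S (τ 1) + S (τ 2) + S (τ 3) := h3
  have a0 := mul_le_mul_of_nonneg_right c3 (hS0 (τ 0))
  have a1 := mul_le_mul_of_nonneg_right c4 (hS0 (τ p.succ))
  have a2 := mul_le_mul_of_nonneg_right c2 (hS0 (τ k.succ))
  have a3 := mul_le_mul_of_nonneg_right c1 (hS0 (τ j.succ))
  have a4 : c * (S (τ 0) + S (τ p.succ) + S (τ k.succ) + S (τ j.succ)) ≤ c * X :=
    mul_le_mul_of_nonneg_left (by linarith) hc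
  linarith

section inst
variable [IsFiniteMeasure σ] (ha : ∀ i j, i ≠ j → dist (a i) (a j) = 1) (h : PM K σ)
  (hull : ∀ p, (∀ q ∈ K, ‖p - q‖ ≤ 1) → p ∈ K) (hp : ∀ x ∈ K, Pl a x)
  {B : Fin 3 → Bool → OrthonormalBasis (Fin 3) ℝ E3}
  (hB : ∀ m e, Fr (fun i => a (pr m e i)) (B m e)) {S : Fin 4 → ℝ} (hS0 : ∀ i, 0 ≤ S i)
  (hQ : ∀ i, ∀ q ∈ K, Qv a i q ≤ S i)

/-- constant of the signed bound: slab `t`, bulk `θ` -/
noncomputable def c93 (t θ : ℝ) : ℝ :=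
  0.03561 - (θ * (2 - θ) * 0.003487 + θ ^ 2 * (3 - 2 * θ) * 0.0008877) +
    0.2942 * t ^ 3 - 0.14 * t ^ 4 + 0.1157 * t ^ 5

include ha h hull hp hB hS0 hQ in
/-- **the signed bounds of `Helper93.MEI.Blk.mom_wt2`** -/
theorem sgB_93 {t θ : ℝ} (t0 : 0 ≤ t) (t1 : t ≤ 3 / 10) (u0 : 0 ≤ θ) (u1 : θ ≤ 1) :
    SgB σ a S (c93 t θ) (0.2986 - 0.5798 * t) 0 (0.07317 + 0.02322 * θ + 0.00823 * θ ^ 2)
      (0.05728 + 0.01992 * θ + 0.00734 * θ ^ 2) := by
  intro m e i k k' hk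
  have h1 := Helper93.MEI.Blk.mom_wt2 h ha hull hp hB hS0 hQ t0 t1 u0 u1 m e i hk
  have e1 : pf m e (if i then 1 else 0) = vx m e i := by
    cases i <;> rfl
  have e2 : pf m e (if i then 0 else 1) = vx m e (!i) := by
    cases i <;> rfl
  rw [e1, e2] at h1
  unfold c93
  linarith

include ha h hull hp hB hS0 hQ in
theorem ngB_A (hT : sS S ≤ 0.0144) : NgB σ a S 0.00192 0.0334 0.0361 0.023 :=
  fun m e i _ _ hk => Helper41.ArcV6.neg_allA h ha hull hp hB hS0 hQ hT m e i hk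

include ha h hull hp hB hS0 hQ in
theorem ngB_6 (hT : sS S ≤ 0.0604) : NgB σ a S 0.00194 0.0372 0.0484 0.0261 :=
  fun m e i _ _ hk => Helper41.ArcV6.neg_all6 h ha hull hp hB hS0 hQ hT m e i hk

include ha h hull hp hB hS0 hQ in
theorem ngB_9 (hT : sS S ≤ 0.0904) : NgB σ a S 0.00237 0.0452 0.0631 0.0313 :=
  fun m e i _ _ hk => Helper41.ArcV.neg_all h ha hull hp hB hS0 hQ hT m e i hk

variable (hl : Lok a l)

include ha h hull hp hB hS0 hQ hl in
/-- sum at most `0.0144` -/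
theorem MA_A (hT : sS S ≤ 0.0144) (τ : Equiv.Perm (Fin 4)) {p k j : Fin 3} (hk : k ≠ p)
    (hj : j ≠ p) (hjk : j ≠ k) :
    MA σ a l τ p k ≤ 0.03316 + 0.332 * S (τ j.succ) + 0.0361 * S (τ k.succ) +
      0.1277 * S (τ 0) + 0.1076 * S (τ p.succ) := by
  have h1 := MA_sn ha hl h hp (sgB_93 ha h hull hp hB hS0 hQ (t := 0) (θ := 1) le_rfl
    (by norm_num) (by norm_num) le_rfl) (ngB_A ha h hull hp hB hS0 hQ hT) τ hk hj hjk
  unfold c93 at h1
  norm_num at h1 ⊢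
  have a0 := hS0 (τ 0)
  have a1 := hS0 (τ p.succ)
  linarith

include ha h hull hp hB hS0 hQ hl in
/-- sum at most `0.0144`, one number -/
theorem MA_rhoA {X : ℝ} (hT : S 0 + S 1 + S 2 + S 3 ≤ X) (hX : X ≤ 0.0144)
    (τ : Equiv.Perm (Fin 4)) {p k : Fin 3} (hk : k ≠ p) :
    MA σ a l τ p k ≤ 0.03316 + 0.332 * X := by
  have hT' : sS S ≤ 0.0144 := hT.trans hX
  have h1 := MA_rho_sn ha hl h hp hS0 (sgB_93 ha h hull hp hB hS0 hQ (t := 0) (θ := 1) le_rfl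
    (by norm_num) (by norm_num) le_rfl) (ngB_A ha h hull hp hB hS0 hQ hT') hT (c := 0.332)
    (by norm_num) (by norm_num) (by norm_num) (by norm_num) (by norm_num) τ hk
  unfold c93 at h1
  norm_num at h1 ⊢
  linarith

include ha h hull hp hB hS0 hQ hl in
/-- sum at most `0.0604`, one number -/
theorem MA_rho6 {X : ℝ} (hT : S 0 + S 1 + S 2 + S 3 ≤ X) (hX : X ≤ 0.0604)
    (τ : Equiv.Perm (Fin 4)) {p k : Fin 3} (hk : k ≠ p) :
    MA σ a l τ p k ≤ 0.03318 + 0.3358 * X := by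
  have hT' : sS S ≤ 0.0604 := hT.trans hX
  have h1 := MA_rho_sn ha hl h hp hS0 (sgB_93 ha h hull hp hB hS0 hQ (t := 0) (θ := 1) le_rfl
    (by norm_num) (by norm_num) le_rfl) (ngB_6 ha h hull hp hB hS0 hQ hT') hT (c := 0.3358)
    (by norm_num) (by norm_num) (by norm_num) (by norm_num) (by norm_num) τ hk
  unfold c93 at h1
  norm_num at h1 ⊢
  linarith

include ha h hull hp hB hS0 hQ hl in
/-- sum at most `0.0604`: slab `t`, bulk `θ` free -/
theorem MA_6 (hT : sS S ≤ 0.0604) {t θ : ℝ} (t0 : 0 ≤ t) (t1 : t ≤ 3 / 10) (u0 : 0 ≤ θ)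
    (u1 : θ ≤ 1) (τ : Equiv.Perm (Fin 4)) {p k j : Fin 3} (hk : k ≠ p)
    (hj : j ≠ p) (hjk : j ≠ k) :
    MA σ a l τ p k ≤ (c93 t θ + 0.00194) + (0.3358 - 0.5798 * t) * S (τ j.succ) +
      0.0484 * S (τ k.succ) + (0.09927 + 0.02322 * θ + 0.00823 * θ ^ 2) * S (τ 0) +
      (0.08338 + 0.01992 * θ + 0.00734 * θ ^ 2) * S (τ p.succ) := by
  have h1 := MA_sn ha hl h hp (sgB_93 ha h hull hp hB hS0 hQ t0 t1 u0 u1)
    (ngB_6 ha h hull hp hB hS0 hQ hT) τ hk hj hjk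
  linarith

include ha h hull hp hB hS0 hQ hl in
/-- sum at most `0.0904`: slab `t`, bulk `θ` free -/
theorem MA_9 (hT : sS S ≤ 0.0904) {t θ : ℝ} (t0 : 0 ≤ t) (t1 : t ≤ 3 / 10) (u0 : 0 ≤ θ)
    (u1 : θ ≤ 1) (τ : Equiv.Perm (Fin 4)) {p k j : Fin 3} (hk : k ≠ p)
    (hj : j ≠ p) (hjk : j ≠ k) :
    MA σ a l τ p k ≤ (c93 t θ + 0.00237) + (0.3438 - 0.5798 * t) * S (τ j.succ) +
      0.0631 * S (τ k.succ) + (0.10447 + 0.02322 * θ + 0.00823 * θ ^ 2) * S (τ 0) +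
      (0.08858 + 0.01992 * θ + 0.00734 * θ ^ 2) * S (τ p.succ) := by
  have h1 := MA_sn ha hl h hp (sgB_93 ha h hull hp hB hS0 hQ t0 t1 u0 u1)
    (ngB_9 ha h hull hp hB hS0 hQ hT) τ hk hj hjk
  linarith

end inst

end Helper41.ArcY
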