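import Pool.Agent.Helper41.MEI.ArcV

/-!
# Project MEI (M2): the columns of the arcs of a face, levels of sum at most `0.0904`

`MA_of_signed`: from ANY affine bound of the signed moments of the full weight.
-/

set_option autoImplicit false

namespace Helper41.ArcV

open Set MeasureTheory Metric Helper80.CW Helper82.CW Helper14.CW Helper93.MEI
open Helper14.MEI2 Pool.Agent.Helper73.MEI Helper37.MEI Helper41.MEI
open Pool.Agent.Helper31.SR Helper41.ArcT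
open Pool.Agent.Helper95.MEI.Fub (Zp int_cont co_e Zp_meas)
open scoped RealInnerProductSpace

variable {a : Fin 4 → E3} {K : Set E3} {σ : Measure (E3 × E3)}
  {l : Fin 3 → Bool → Bool → E3 × E3 → ℝ}

/-- an affine bound of the signed moments of the full weight -/
def SgB (σ : Measure (E3 × E3)) (a : Fin 4 → E3) (S : Fin 4 → ℝ) (C0 α γ β0 β1 : ℝ) : Prop :=
  ∀ (m : Fin 3) (e i : Bool) (k k' : Fin 4), (k = 2 ∧ k' = 3 ∨ k = 3 ∧ k' = 2) →
    ∫ z in EE a m e, wt (ap a m e) i z.1 * bar a (pf m e k) z.2 ∂σ ≤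
      C0 + α * S (pf m e k') + γ * S (pf m e k) + β0 * S (vx m e i) + β1 * S (vx m e (!i))

/-- **the positive parts of the moments of the full weight** -/
theorem ppm_of_signed [IsFiniteMeasure σ] (h : PM K σ)
    (ha : ∀ i j, i ≠ j → dist (a i) (a j) = 1)
    (hull : ∀ p, (∀ q ∈ K, ‖p - q‖ ≤ 1) → p ∈ K) (hp : ∀ x ∈ K, Pl a x)
    {B : Fin 3 → Bool → OrthonormalBasis (Fin 3) ℝ E3}
    (hB : ∀ m e, Fr (fun i => a (pr m e i)) (B m e)) {S : Fin 4 → ℝ} (hS0 : ∀ i, 0 ≤ S i)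
    (hQ : ∀ i, ∀ q ∈ K, Qv a i q ≤ S i) (hT : sS S ≤ 0.0904) {C0 α γ β0 β1 : ℝ}
    (hs : SgB σ a S C0 α γ β0 β1)
    (m : Fin 3) (e i : Bool) {k k' : Fin 4} (hk : k = 2 ∧ k' = 3 ∨ k = 3 ∧ k' = 2) :
    ∫ z in EE a m e, wt (ap a m e) i z.1 * max (bar a (pf m e k) z.2) 0 ∂σ ≤
      (C0 + 0.00237) + (α + 0.0452) * S (pf m e k') + (γ + 0.0631) * S (pf m e k) +
        (β0 + 0.0313) * S (vx m e i) + (β1 + 0.0313) * S (vx m e (!i)) := by
  have hgp := hgp ha m e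
  have hwc := wt_cont (ap a m e) i
  have hbc := Pool.Agent.Helper95.MEI.Fub.bar_cont a (pf m e k)
  have h1 := pos_of_signed h ha hull hp hB hS0 hQ hT m e i hk
    (d := fun z => wt (ap a m e) i z.1)
    (by
      filter_upwards [h.mem] with z hz
      exact wt_nonneg hgp i (Pl_perm _ (hp _ hz.1)))
    (Filter.Eventually.of_forall fun z => le_rfl)
    (int_cont h.cpt h.mem ((hwc.comp continuous_fst).mul
      ((hbc.comp continuous_snd).max continuous_const)))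
    (int_cont h.cpt h.mem ((hwc.comp continuous_fst).mul (hbc.comp continuous_snd)))
  have h2 := hs m e i k k' hk
  have h3 : S (vx m e i) + S (vx m e (!i)) = S (pf m e 0) + S (pf m e 1) := by
    cases i
    · rfl
    · show S (pf m e 1) + S (pf m e 0) = _
      ring
  have h4 : 0.0313 * (S (vx m e i) + S (vx m e (!i))) =
      0.0313 * (S (pf m e 0) + S (pf m e 1)) := by rw [h3]
  linarith

/-- **the two columns of an arc**, any admissible losses -/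
theorem sM_of_signed [IsFiniteMeasure σ] (ha : ∀ i j, i ≠ j → dist (a i) (a j) = 1)
    (hl : Lok a l) (h : PM K σ)
    (hull : ∀ p, (∀ q ∈ K, ‖p - q‖ ≤ 1) → p ∈ K) (hp : ∀ x ∈ K, Pl a x)
    {B : Fin 3 → Bool → OrthonormalBasis (Fin 3) ℝ E3}
    (hB : ∀ m e, Fr (fun i => a (pr m e i)) (B m e)) {S : Fin 4 → ℝ} (hS0 : ∀ i, 0 ≤ S i)
    (hQ : ∀ i, ∀ q ∈ K, Qv a i q ≤ S i) (hT : sS S ≤ 0.0904) {C0 α γ β0 β1 : ℝ}
    (hs : SgB σ a S C0 α γ β0 β1)
    (m : Fin 3) (e i : Bool) {k k' : Fin 4} (hk : k = 2 ∧ k' = 3 ∨ k = 3 ∧ k' = 2) :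
    max (sM σ a l m e i (pf m e k)) 0 ≤
      (C0 + 0.00237) + (α + 0.0452) * S (pf m e k') + (γ + 0.0631) * S (pf m e k) +
        (β0 + 0.0313) * S (vx m e i) + (β1 + 0.0313) * S (vx m e (!i)) := by
  obtain ⟨C, hC⟩ := den_bdd ha hl h.cpt h.mem hp m e i
  refine le_trans ?_ (ppm_of_signed h ha hull hp hB hS0 hQ hT hs m e i hk)
  have i1 := dens_int (σ := σ) h.cpt h.mem (den_meas hl m e i) (den_nn hl m e i) hC
    ((Pool.Agent.Helper95.MEI.Fub.bar_cont a (pf m e k)).comp continuous_snd)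
  have i2 : Integrable (fun z : E3 × E3 => wt (ap a m e) i z.1 *
      max (bar a (pf m e k) z.2) 0) σ :=
    int_cont h.cpt h.mem (((wt_cont (ap a m e) i).comp
      continuous_fst).mul (((Pool.Agent.Helper95.MEI.Fub.bar_cont a (pf m e k)).comp
        continuous_snd).max continuous_const))
  unfold sM
  apply max_le
  · refine integral_mono_ae i1.integrableOn i2.integrableOn ?_
    filter_upwards [ae_restrict_of_ae h.mem] with z hz
    have h1 := den_nonneg hl m e i z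
    have h2 := den_le (hgp ha) hl m e i (hp _ hz.1)
    have h3 : bar a (pf m e k) z.2 ≤ max (bar a (pf m e k) z.2) 0 := le_max_left _ _
    have h4 : 0 ≤ max (bar a (pf m e k) z.2) 0 := le_max_right _ _
    exact (mul_le_mul_of_nonneg_left h3 h1).trans (mul_le_mul_of_nonneg_right h2 h4)
  · apply integral_nonneg_of_ae
    filter_upwards [ae_restrict_of_ae h.mem] with z hz
    exact mul_nonneg (wt_nonneg (hgp ha m e) i (Pl_perm _ (hp _ hz.1))) (le_max_right _ _)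

/-- **the two columns of the arc `p` of the face of `τ 0`**; `k` the column, `j` the other end -/
theorem MA_of_signed [IsFiniteMeasure σ] (ha : ∀ i j, i ≠ j → dist (a i) (a j) = 1)
    (hl : Lok a l) (h : PM K σ) (hull : ∀ p, (∀ q ∈ K, ‖p - q‖ ≤ 1) → p ∈ K)
    (hp : ∀ x ∈ K, Pl a x)
    {B : Fin 3 → Bool → OrthonormalBasis (Fin 3) ℝ E3}
    (hB : ∀ m e, Fr (fun i => a (pr m e i)) (B m e)) {S : Fin 4 → ℝ} (hS0 : ∀ i, 0 ≤ S i)
    (hQ : ∀ i, ∀ q ∈ K, Qv a i q ≤ S i) (hT : S 0 + S 1 + S 2 + S 3 ≤ 0.0904)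
    {C0 α γ β0 β1 : ℝ} (hs : SgB σ a S C0 α γ β0 β1)
    (τ : Equiv.Perm (Fin 4)) {p k j : Fin 3} (hk : k ≠ p) (hj : j ≠ p) (hjk : j ≠ k) :
    MA σ a l τ p k ≤ (C0 + 0.00237) + (α + 0.0452) * S (τ j.succ) +
      (γ + 0.0631) * S (τ k.succ) + (β0 + 0.0313) * S (τ 0) + (β1 + 0.0313) * S (τ p.succ) := by
  have hne : τ 0 ≠ τ p.succ := fun h => (Fin.succ_ne_zero p) (τ.injective h).symm
  have h1 : τ k.succ ≠ τ 0 := fun h => (Fin.succ_ne_zero k) (τ.injective h)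
  have h2 : τ k.succ ≠ τ p.succ := fun h => hk (Fin.succ_injective _ (τ.injective h))
  have hv := idx_vx (τ 0) (τ p.succ) hne
  have hτ : S (τ 0) + S (τ 1) + S (τ 2) + S (τ 3) = sS S := by
    have h3 := Equiv.sum_comp τ S
    rw [Fin.sum_univ_four, Fin.sum_univ_four] at h3
    exact h3
  have h3 := sum3 (fun r => S (τ r.succ)) p k j hk.symm hjk.symm hj
  have h3' : S (τ p.succ) + S (τ k.succ) + S (τ j.succ) = S (τ 1) + S (τ 2) + S (τ 3) := h3
  have vs : ∀ (m : Fin 3) (e i : Bool), S (vx m e i) + S (vx m e (!i)) =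
      S (pf m e 0) + S (pf m e 1) := by
    intro m e i
    cases i
    · rfl
    · show S (pf m e 1) + S (pf m e 0) = _
      ring
  have h4 := vs (idx (τ 0) (τ p.succ)).1 (idx (τ 0) (τ p.succ)).2.1 (idx (τ 0) (τ p.succ)).2.2
  rw [hv.1, hv.2] at h4
  have h5 := sS_pf S (idx (τ 0) (τ p.succ)).1 (idx (τ 0) (τ p.succ)).2.1
  unfold MA aM pp
  rcases idx_pf (τ 0) (τ p.succ) (τ k.succ) hne h1 h2 with h6 | h6
  · have g := sM_of_signed ha hl h hull hp hB hS0 hQ hT hs (idx (τ 0) (τ p.succ)).1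
      (idx (τ 0) (τ p.succ)).2.1 (idx (τ 0) (τ p.succ)).2.2 (k := 2) (k' := 3)
      (Or.inl ⟨rfl, rfl⟩)
    rw [hv.1, hv.2, h6] at g
    rw [h6] at h5
    have h7 : S (pf (idx (τ 0) (τ p.succ)).1 (idx (τ 0) (τ p.succ)).2.1 3) = S (τ j.succ) := by
      linarith
    rw [h7] at g
    exact g
  · have g := sM_of_signed ha hl h hull hp hB hS0 hQ hT hs (idx (τ 0) (τ p.succ)).1
      (idx (τ 0) (τ p.succ)).2.1 (idx (τ 0) (τ p.succ)).2.2 (k := 3) (k' := 2)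
      (Or.inr ⟨rfl, rfl⟩)
    rw [hv.1, hv.2, h6] at g
    rw [h6] at h5
    have h7 : S (pf (idx (τ 0) (τ p.succ)).1 (idx (τ 0) (τ p.succ)).2.1 2) = S (τ j.succ) := by
      linarith
    rw [h7] at g
    exact g

/-- the signed bounds of `Helper53.MEI.momw_all` -/
theorem sgB_typed [IsFiniteMeasure σ] (h : PM K σ)
    (ha : ∀ i j, i ≠ j → dist (a i) (a j) = 1)
    (hull : ∀ p, (∀ q ∈ K, ‖p - q‖ ≤ 1) → p ∈ K) (hp : ∀ x ∈ K, Pl a x)
    {B : Fin 3 → Bool → OrthonormalBasis (Fin 3) ℝ E3}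
    (hB : ∀ m e, Fr (fun i => a (pr m e i)) (B m e)) {S : Fin 4 → ℝ} (hS0 : ∀ i, 0 ≤ S i)
    (hQ : ∀ i, ∀ q ∈ K, Qv a i q ≤ S i) : SgB σ a S 0.03578 0.328 0 0.0732 0.0573 := by
  intro m e i k k' hk
  have h1 := Helper53.MEI.momw_all h ha hull hp hB hS0 hQ m e i hk
  have s0 := hS0 (pf m e 0)
  have s1 := hS0 (pf m e 1)
  have s2 := hS0 (pf m e 2)
  have s3 := hS0 (pf m e 3)
  refine h1.trans ?_
  have e1 : 0.07317 * S (pf m e (if i then 1 else 0)) + 0.05728 * S (pf m e (if i then 0 else 1)) ≤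
      0.0732 * S (vx m e i) + 0.0573 * S (vx m e (!i)) := by
    cases i
    · show 0.07317 * S (pf m e 0) + 0.05728 * S (pf m e 1) ≤
        0.0732 * S (pf m e 0) + 0.0573 * S (pf m e 1)
      linarith
    · show 0.07317 * S (pf m e 1) + 0.05728 * S (pf m e 0) ≤
        0.0732 * S (pf m e 1) + 0.0573 * S (pf m e 0)
      linarith
  have e2 : 0 ≤ S (pf m e k') := hS0 _
  linarith

/-- **typed numbers** -/
theorem MA_typed [IsFiniteMeasure σ] (ha : ∀ i j, i ≠ j → dist (a i) (a j) = 1)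
    (hl : Lok a l) (h : PM K σ) (hull : ∀ p, (∀ q ∈ K, ‖p - q‖ ≤ 1) → p ∈ K)
    (hp : ∀ x ∈ K, Pl a x)
    {B : Fin 3 → Bool → OrthonormalBasis (Fin 3) ℝ E3}
    (hB : ∀ m e, Fr (fun i => a (pr m e i)) (B m e)) {S : Fin 4 → ℝ} (hS0 : ∀ i, 0 ≤ S i)
    (hQ : ∀ i, ∀ q ∈ K, Qv a i q ≤ S i) (hT : S 0 + S 1 + S 2 + S 3 ≤ 0.0904)
    (τ : Equiv.Perm (Fin 4)) {p k j : Fin 3} (hk : k ≠ p) (hj : j ≠ p) (hjk : j ≠ k) :
    MA σ a l τ p k ≤ 0.03815 + 0.3732 * S (τ j.succ) +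
      0.0631 * S (τ k.succ) + 0.1045 * S (τ 0) + 0.0886 * S (τ p.succ) := by
  have h1 := MA_of_signed ha hl h hull hp hB hS0 hQ hT (sgB_typed h ha hull hp hB hS0 hQ)
    τ hk hj hjk
  norm_num at h1 ⊢
  linarith

end Helper41.ArcV
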