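import Pool.Agent.Helper41.MEI.ArcL

/-!
# Project MEI (M2): regime II with `κ = .26`, losses `l2`
-/

set_option autoImplicit false

namespace Helper41.MEI

open Set Metric MeasureTheory Helper80.CW Helper14.CW Helper14.MEI2
open Helper93.MEI Helper37.MEI
open Pool.Agent.Helper73.MEI (PM TE pf pr pr_apply pf_bij lE_le)
open Pool.Agent.Helper95.MEI.Cst (fAs vAs vAx v_hi v_lo)
open scoped RealInnerProductSpace Real

section
variable {a : Fin 4 → E3} {K : Set E3} {σ : Measure (E3 × E3)} [IsFiniteMeasure σ]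
  {B : Fin 3 → Bool → OrthonormalBasis (Fin 3) ℝ E3}

/-- **regime II** (`κ = .26`) with the losses `l2` -/
theorem asm26 (h : PM K σ) (ha : ∀ i j, i ≠ j → dist (a i) (a j) = 1)
    (hp : ∀ x ∈ K, Pl a x) (hz : ∀ᵐ z ∂σ, Pl a z.1 ∧ ∀ k, bar a k z.1 ≠ 0)
    (hull : ∀ p, (∀ q ∈ K, ‖p - q‖ ≤ 1) → p ∈ K)
    (hB : ∀ m e, Fr (fun i => a (pr m e i)) (B m e)) {s : Fin 4 → ℝ} (hs0 : ∀ i, 0 ≤ s i)
    (hs : ∀ i, s i ≤ 0.2) (hQ : ∀ i, ∀ q ∈ K, Qv a i q ≤ s i) :
    ∑ i, (Helper33.MEI.Wi a i K σ 3.83 - LLs σ a (l2 a) i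
        - (0.0284 * s i + 0.501 * s i ^ 3)) - 6.0e-4 ≤
    4.08 * (volume.real K - Helper82.CW.VM) := by
  have h1 := Helper33.MEI.star_W 0.26 h ha hp hz hB
  have h2 : ∀ m e, -(sL σ a (l2 a) m e false + sL σ a (l2 a) m e true) ≤
      TE (B m e) (cen a) σ := by
    intro m e
    have hc : cen (fun i => a (pr m e i)) = cen a := cen_perm _
    have h3 := TE_ls h (hap ha m e) (hB m e)
    rw [show cen (ap a m e) = cen a from hc] at h3
    exact h3
  have h4 : ∀ m, -(0.26 * (vAs - vAx)) ≤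
      0.26 * ((vAs - vAx) - Pool.Agent.Helper73.MEI.lE (B m false) (cen a) K -
        Pool.Agent.Helper73.MEI.lE (B m true) (cen a) K)
        - 0.26 * ((vAs - vAx) - max (Pool.Agent.Helper73.MEI.lE (B m false) (cen a) K)
          (Pool.Agent.Helper73.MEI.lE (B m true) (cen a) K)) := by
    intro m
    have l0 := lE_le (K := K) (b := B m false) (cen a)
    have l1 := lE_le (K := K) (b := B m true) (cen a)
    rcases le_total (Pool.Agent.Helper73.MEI.lE (B m false) (cen a) K)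
      (Pool.Agent.Helper73.MEI.lE (B m true) (cen a) K) with h5 | h5
    · rw [max_eq_right h5]; linarith
    · rw [max_eq_left h5]; linarith
  have h5 := Pool.Agent.Helper52.MEI.ET_row0 h ha hp
  have h6 := Pool.Agent.Helper52.MEI.tau_20 ha h.cpt hull hs0 hs hQ
  have h7 := Helper72.MEI.xiE_sum ha hB hull hs0 hQ
  have h8 := Helper72.MEI.beE_sum ha hB hp hs0 hQ
  have h9 := sum_LLs (a := a) (σ := σ) (l := l2 a)
  have h10 := v_hi
  have f0 := h2 0 false
  have f1 := h2 1 false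
  have f2 := h2 2 false
  have t0 := h2 0 true
  have t1 := h2 1 true
  have t2 := h2 2 true
  have g0 := h4 0
  have g1 := h4 1
  have g2 := h4 2
  have e1 : (3.57 + 0.26 : ℝ) = 3.83 := by norm_num
  have i0 := hs0 0
  have i1 := hs0 1
  have i2 := hs0 2
  have i3 := hs0 3
  have p0 := pow_nonneg i0 2
  have p1 := pow_nonneg i1 2
  have p2 := pow_nonneg i2 2
  have p3 := pow_nonneg i3 2
  have c0 := pow_nonneg i0 3
  have c1 := pow_nonneg i1 3
  have c2 := pow_nonneg i2 3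
  have c3 := pow_nonneg i3 3
  rw [e1] at h1
  simp only [Fin.sum_univ_three, Fin.sum_univ_four, Fintype.sum_bool] at h1 h7 h8 h9 ⊢
  norm_num at h1 h6 h7 h8 h10 ⊢
  linarith

end

end Helper41.MEI
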