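import Pool.Agent.Helper41.MEI.ArcT
import Pool.Agent.Helper31.SR.Arc

/-!
# Project MEI (M2): the columns of the arcs of a face
-/

set_option autoImplicit false

namespace Helper41.ArcT

open Set MeasureTheory Metric Helper80.CW Helper82.CW Helper14.CW Helper93.MEI
open Helper14.MEI2 Pool.Agent.Helper73.MEI Helper37.MEI Helper41.MEI
open Pool.Agent.Helper31.SR
open scoped RealInnerProductSpace

theorem sum3 (f : Fin 3 → ℝ) : ∀ p k j : Fin 3, p ≠ k → k ≠ j → j ≠ p →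
    f p + f k + f j = f 0 + f 1 + f 2 := by
  intro p k j h1 h2 h3
  fin_cases p <;> fin_cases k <;> fin_cases j <;> simp at h1 h2 h3 ⊢ <;> ring

variable {a : Fin 4 → E3} {K : Set E3} {σ : Measure (E3 × E3)}
  {l : Fin 3 → Bool → Bool → E3 × E3 → ℝ}

/-- **the two columns of the arc `p` of the face of `τ 0`**; `k` the column, `j` the other end -/
theorem MA_ppm [IsFiniteMeasure σ] (ha : ∀ i j, i ≠ j → dist (a i) (a j) = 1) (hl : Lok a l)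
    (h : PM K σ) (hull : ∀ p, (∀ q ∈ K, ‖p - q‖ ≤ 1) → p ∈ K) (hp : ∀ x ∈ K, Pl a x)
    {B : Fin 3 → Bool → OrthonormalBasis (Fin 3) ℝ E3}
    (hB : ∀ m e, Fr (fun i => a (pr m e i)) (B m e)) {S : Fin 4 → ℝ} (hS0 : ∀ i, 0 ≤ S i)
    (hQ : ∀ i, ∀ q ∈ K, Qv a i q ≤ S i) (hT : S 0 + S 1 + S 2 + S 3 ≤ 0.0604)
    (τ : Equiv.Perm (Fin 4)) {p k j : Fin 3} (hk : k ≠ p) (hj : j ≠ p) (hjk : j ≠ k) :
    MA σ a l τ p k ≤ 0.03772 + 0.3652 * S (τ j.succ) + 0.0484 * S (τ k.succ) +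
      0.0993 * (S (τ 0) + S (τ p.succ)) := by
  have hne : τ 0 ≠ τ p.succ := fun h => (Fin.succ_ne_zero p) (τ.injective h).symm
  have h1 : τ k.succ ≠ τ 0 := fun h => (Fin.succ_ne_zero k) (τ.injective h)
  have h2 : τ k.succ ≠ τ p.succ := fun h => hk (Fin.succ_injective _ (τ.injective h))
  have hv := idx_vx (τ 0) (τ p.succ) hne
  have hτ : S (τ 0) + S (τ 1) + S (τ 2) + S (τ 3) = sS S := by
    have h3 := Equiv.sum_comp τ S
    rw [Fin.sum_univ_four, Fin.sum_univ_four] at h3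
    exact h3
  have h3 := sum3 (fun r => S (τ r.succ)) p k j hk.symm hjk.symm hj
  have h3' : S (τ p.succ) + S (τ k.succ) + S (τ j.succ) = S (τ 1) + S (τ 2) + S (τ 3) := h3
  have vs : ∀ (m : Fin 3) (e i : Bool), S (vx m e i) + S (vx m e (!i)) =
      S (pf m e 0) + S (pf m e 1) := by
    intro m e i
    cases i
    · show S (pf m e 0) + S (pf m e 1) = _
      rfl
    · show S (pf m e 1) + S (pf m e 0) = _
      ring
  have h4 := vs (idx (τ 0) (τ p.succ)).1 (idx (τ 0) (τ p.succ)).2.1 (idx (τ 0) (τ p.succ)).2.2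
  rw [hv.1, hv.2] at h4
  have h5 := sS_pf S (idx (τ 0) (τ p.succ)).1 (idx (τ 0) (τ p.succ)).2.1
  unfold MA aM pp
  rcases idx_pf (τ 0) (τ p.succ) (τ k.succ) hne h1 h2 with h6 | h6
  · have g := sM_ppm ha hl h hull hp hB hS0 hQ hT (idx (τ 0) (τ p.succ)).1
      (idx (τ 0) (τ p.succ)).2.1 (idx (τ 0) (τ p.succ)).2.2 (k := 2) (k' := 3)
      (Or.inl ⟨rfl, rfl⟩)
    rw [h6] at g h5
    refine g.trans ?_
    linarith
  · have g := sM_ppm ha hl h hull hp hB hS0 hQ hT (idx (τ 0) (τ p.succ)).1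
      (idx (τ 0) (τ p.succ)).2.1 (idx (τ 0) (τ p.succ)).2.2 (k := 3) (k' := 2)
      (Or.inr ⟨rfl, rfl⟩)
    rw [h6] at g h5
    refine g.trans ?_
    linarith

/-- all columns at once -/
theorem MA_rho [IsFiniteMeasure σ] (ha : ∀ i j, i ≠ j → dist (a i) (a j) = 1) (hl : Lok a l)
    (h : PM K σ) (hull : ∀ p, (∀ q ∈ K, ‖p - q‖ ≤ 1) → p ∈ K) (hp : ∀ x ∈ K, Pl a x)
    {B : Fin 3 → Bool → OrthonormalBasis (Fin 3) ℝ E3}
    (hB : ∀ m e, Fr (fun i => a (pr m e i)) (B m e)) {S : Fin 4 → ℝ} (hS0 : ∀ i, 0 ≤ S i)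
    (hQ : ∀ i, ∀ q ∈ K, Qv a i q ≤ S i) {X : ℝ} (hT : S 0 + S 1 + S 2 + S 3 ≤ X)
    (hX : X ≤ 0.0604) (τ : Equiv.Perm (Fin 4)) {p k : Fin 3} (hk : k ≠ p) :
    MA σ a l τ p k ≤ 0.03772 + 0.3652 * X := by
  obtain ⟨j, hj, hjk⟩ : ∃ j : Fin 3, j ≠ p ∧ j ≠ k := by
    revert hk
    fin_cases p <;> fin_cases k <;> decide
  have h1 := MA_ppm ha hl h hull hp hB hS0 hQ (hT.trans hX) τ hk hj hjk
  have hτ : S (τ 0) + S (τ 1) + S (τ 2) + S (τ 3) = S 0 + S 1 + S 2 + S 3 := by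
    have h3 := Equiv.sum_comp τ S
    rw [Fin.sum_univ_four, Fin.sum_univ_four] at h3
    exact h3
  have h3 := sum3 (fun r => S (τ r.succ)) p k j hk.symm hjk.symm hj
  have h3' : S (τ p.succ) + S (τ k.succ) + S (τ j.succ) = S (τ 1) + S (τ 2) + S (τ 3) := h3
  have a0 := hS0 (τ 0)
  have a1 := hS0 (τ p.succ)
  have a2 := hS0 (τ k.succ)
  have a3 := hS0 (τ j.succ)
  linarith

end Helper41.ArcT
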