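import Pool.Agent.Helper41.MEI.Exs

/-!
# Project MEI (M2): the loss densities `ls`, `cs` of an edge cell
-/

namespace Helper41.MEI

open Set Metric MeasureTheory Helper80.CW Helper14.CW Helper14.MEI2
open Helper93.MEI Helper37.MEI
open Pool.Agent.Helper8.MEI (DD DD_pos)
open Pool.Agent.Helper73.MEI (PM TE TE_exc pr)
open Pool.Agent.Helper95.MEI.Fub (Zp exc exc_cont eX_cont eY_cont eW_cont Qv_cont pp_cont
  DDe_cont bar_cont int_cont)
open scoped RealInnerProductSpace Real

section defs
variable (a : Fin 4 → E3)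

/-- the own vertex -/
def vi (i : Bool) : Fin 4 := if i then 1 else 0
/-- the other end of the edge `01` -/
def vo (i : Bool) : Fin 4 := if i then 0 else 1

/-- numerator of the weight of helper37 -/
noncomputable def wn (i : Bool) (x : E3) : ℝ :=
  1 / 2 + (if i then -(7 * eX a x / 16) else 7 * eX a x / 16)

/-- loss charged to the vertex `vi i` -/
noncomputable def ls (i : Bool) (z : E3 × E3) : ℝ :=
  pp (wn a i z.1 * pp (Qv a (vi i) z.2) - wn a (!i) z.1 * pp (-Qv a (vo i) z.2)) /
    (4 * DD (eX a z.1) (eY a z.1) (eW a z.1))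

/-- its density against `pp Q` -/
noncomputable def cs (i : Bool) (z : E3 × E3) : ℝ := ls a i z / pp (Qv a (vi i) z.2)

end defs

section
variable {a : Fin 4 → E3}

theorem wn_add (i : Bool) (x : E3) : wn a i x + wn a (!i) x = 1 := by
  unfold wn
  cases i
  · simp only [Bool.false_eq_true, if_false, Bool.not_false, if_true]; ring
  · simp only [Bool.false_eq_true, if_false, Bool.not_true, if_true]; ring

theorem wn_ge (h : Gram4 (al a)) (i : Bool) {x : E3} (hx : Pl a x) : 9 / 32 ≤ wn a i x := by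
  obtain ⟨_, h1, _⟩ := pl_e h hx
  obtain ⟨k1, k2⟩ := abs_le.1 h1
  unfold wn
  cases i
  · simp only [Bool.false_eq_true, if_false]; linarith
  · simp only [if_true]; linarith

theorem wt_wn (i : Bool) (x : E3) :
    wt a i x = wn a i x / (4 * DD (eX a x) (eY a x) (eW a x)) := rfl

theorem D4_pos (x : E3) : 0 < 4 * DD (eX a x) (eY a x) (eW a x) := by
  have := DD_pos (eX a x) (eY a x) (eW a x)
  positivity

theorem wt_add (x : E3) :
    wt a false x + wt a true x = 1 / (4 * DD (eX a x) (eY a x) (eW a x)) := by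
  rw [wt_wn, wt_wn, ← add_div]
  have := wn_add (a := a) false x
  rw [Bool.not_false] at this
  rw [this]

theorem ls_nonneg (i : Bool) (z : E3 × E3) : 0 ≤ ls a i z :=
  div_nonneg (pp_nonneg _) (D4_pos _).le

theorem wn_cont (a : Fin 4 → E3) (i : Bool) : Continuous (wn a i) := by
  have h1 := eX_cont a
  unfold wn
  cases i
  · simp only [Bool.false_eq_true, if_false]; fun_prop
  · simp only [if_true]; fun_prop

theorem ls_cont (a : Fin 4 → E3) (i : Bool) : Continuous (ls a i) := by
  unfold ls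
  refine Continuous.div ?_ (continuous_const.mul (DDe_cont a)) fun z => (D4_pos _).ne'
  refine pp_cont.comp ?_
  refine Continuous.sub ?_ ?_
  · exact ((wn_cont a i).comp continuous_fst).mul
      (pp_cont.comp ((Qv_cont a (vi i)).comp continuous_snd))
  · exact ((wn_cont a (!i)).comp continuous_fst).mul
      (pp_cont.comp ((Qv_cont a (vo i)).comp continuous_snd).neg)

theorem pp_mono {x y : ℝ} (h : x ≤ y) : pp x ≤ pp y := max_le_max h le_rfl

theorem ls_le (h : Gram4 (al a)) (i : Bool) {z : E3 × E3} (hz : Pl a z.1) :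
    ls a i z ≤ wt a i z.1 * pp (Qv a (vi i) z.2) := by
  rw [wt_wn, div_mul_eq_mul_div]
  unfold ls
  apply div_le_div_of_nonneg_right _ (D4_pos _).le
  have h1 := wn_ge h i hz
  have h2 := wn_ge h (!i) hz
  have h3 := pp_nonneg (Qv a (vi i) z.2)
  have h4 := mul_nonneg (by linarith : 0 ≤ wn a (!i) z.1) (pp_nonneg (-Qv a (vo i) z.2))
  have h5 := mul_nonneg (by linarith : 0 ≤ wn a i z.1) h3
  exact max_le (by linarith) h5

/-- the loss vanishes when `Q ≤ 0` -/
theorem ls_eq (h : Gram4 (al a)) (i : Bool) {z : E3 × E3} (hz : Pl a z.1) :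
    ls a i z = cs a i z * pp (Qv a (vi i) z.2) := by
  unfold cs
  rcases eq_or_ne (pp (Qv a (vi i) z.2)) 0 with h0 | h0
  · have h1 := ls_le h i hz
    rw [h0, mul_zero] at h1
    have h2 := ls_nonneg (a := a) i z
    rw [h0, mul_zero]
    linarith
  · rw [div_mul_cancel₀ _ h0]

theorem cs_nonneg (i : Bool) (z : E3 × E3) : 0 ≤ cs a i z :=
  div_nonneg (ls_nonneg _ _) (pp_nonneg _)

theorem cs_le (h : Gram4 (al a)) (i : Bool) {z : E3 × E3} (hz : Pl a z.1) :
    cs a i z ≤ wt a i z.1 := by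
  unfold cs
  rcases eq_or_ne (pp (Qv a (vi i) z.2)) 0 with h0 | h0
  · rw [h0, div_zero, wt_wn]
    exact div_nonneg (by linarith [wn_ge h i hz]) (D4_pos _).le
  · have h1 : 0 < pp (Qv a (vi i) z.2) := lt_of_le_of_ne (pp_nonneg _) (Ne.symm h0)
    rw [div_le_iff₀ h1]
    exact ls_le h i hz

theorem cs_zero (i : Bool) {z : E3 × E3} (hz : Qv a (vi i) z.2 ≤ 0) : cs a i z = 0 := by
  unfold cs
  have e : pp (Qv a (vi i) z.2) = 0 := max_eq_right hz
  rw [e, div_zero]

theorem cs_meas (a : Fin 4 → E3) (i : Bool) : Measurable (cs a i) := by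
  unfold cs
  exact (ls_cont a i).measurable.div
    (pp_cont.comp ((Qv_cont a (vi i)).comp continuous_snd)).measurable

/-- **the excess of an edge pair is at least minus the two losses** -/
theorem exs_ge (z : E3 × E3) : -(ls a false z + ls a true z) ≤ exc a z := by
  have hD := D4_pos (a := a) z.1
  have e1 : exc a z = (-(wn a false z.1 * Qv a 0 z.2 + wn a true z.1 * Qv a 1 z.2)) /
      (4 * DD (eX a z.1) (eY a z.1) (eW a z.1)) := by
    unfold exc wn
    congr 1
    simp only [Bool.false_eq_true, if_false, if_true]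
    ring
  have e2 : ls a false z + ls a true z =
      (pp (wn a false z.1 * pp (Qv a 0 z.2) - wn a true z.1 * pp (-Qv a 1 z.2)) +
        pp (wn a true z.1 * pp (Qv a 1 z.2) - wn a false z.1 * pp (-Qv a 0 z.2))) /
      (4 * DD (eX a z.1) (eY a z.1) (eW a z.1)) := by
    rw [add_div]
    rfl
  rw [e1, e2, ← neg_div]
  apply div_le_div_of_nonneg_right _ hD.le
  have p0 := pp_sub (Qv a 0 z.2)
  have p1 := pp_sub (Qv a 1 z.2)
  have q0 := le_pp (wn a false z.1 * pp (Qv a 0 z.2) - wn a true z.1 * pp (-Qv a 1 z.2))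
  have q1 := le_pp (wn a true z.1 * pp (Qv a 1 z.2) - wn a false z.1 * pp (-Qv a 0 z.2))
  have e3 : wn a false z.1 * Qv a 0 z.2 + wn a true z.1 * Qv a 1 z.2 =
      (wn a false z.1 * pp (Qv a 0 z.2) - wn a true z.1 * pp (-Qv a 1 z.2)) +
      (wn a true z.1 * pp (Qv a 1 z.2) - wn a false z.1 * pp (-Qv a 0 z.2)) := by
    calc wn a false z.1 * Qv a 0 z.2 + wn a true z.1 * Qv a 1 z.2 =
        wn a false z.1 * (pp (Qv a 0 z.2) - pp (-Qv a 0 z.2)) +
        wn a true z.1 * (pp (Qv a 1 z.2) - pp (-Qv a 1 z.2)) := by rw [p0, p1]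
      _ = _ := by ring
  linarith

/-- the loss is at most the old negative part -/
theorem ls_add_le (h : Gram4 (al a)) {z : E3 × E3} (hz : Pl a z.1) :
    ls a false z + ls a true z ≤ Pool.Agent.Helper95.MEI.Fub.exn a z := by
  rw [exn_split]
  exact add_le_add (ls_le h false hz) (ls_le h true hz)

/-- **the third coordinate**: on the loss pairs the coordinate of the other end of the edge is
almost nonpositive (`= 0` if `S ≤ .026`) -/
theorem cs_bar (h : Gram4 (al a)) (i : Bool) {z : E3 × E3} (hz : Pl a z.1) (hq : Pl a z.2)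
    {S : ℝ} (hS : Qv a (vi i) z.2 ≤ S) (hS1 : S ≤ 3 / 20) :
    cs a i z * pp (bar a (vo i) z.2) ≤
      8 / 9 * pp (√S - 0.1623) ^ 2 * (wt a false z.1 + wt a true z.1) := by
  have hs := bar_sum h z.2
  have hp := (pl_iff h).1 hq
  have hD := D4_pos (a := a) z.1
  have key : pp (wn a i z.1 * pp (Qv a (vi i) z.2) - wn a (!i) z.1 * pp (-Qv a (vo i) z.2)) *
      pp (bar a (vo i) z.2) ≤ pp (Qv a (vi i) z.2) * (8 / 9 * pp (√S - 0.1623) ^ 2) := by
    have hw := wn_ge h (!i) hz
    have hw2 := wn_add (a := a) i z.1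
    have e1 : wn a i z.1 = 1 - wn a (!i) z.1 := by linarith
    rw [e1]
    cases i
    · simp only [vi, vo, Bool.false_eq_true, if_false] at hS ⊢
      refine third_real (x := bar a 0 z.2) (u := bar a 2 z.2) (v := bar a 3 z.2) (by linarith)
        (hp 0 2 (by decide)) (hp 0 3 (by decide)) (hp 1 2 (by decide)) (hp 1 3 (by decide))
        (hp 2 3 (by decide)) (hp 3 2 (by decide)) (hp 2 0 (by decide)) (hp 3 0 (by decide))
        ?_ ?_ hw hS hS1
      · rw [Qv_eq h]
        ring
      · rw [Qv_eq h, Qv_eq h]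
        ring
    · simp only [vi, vo, if_true] at hS ⊢
      refine third_real (x := bar a 1 z.2) (u := bar a 2 z.2) (v := bar a 3 z.2) (by linarith)
        (hp 1 2 (by decide)) (hp 1 3 (by decide)) (hp 0 2 (by decide)) (hp 0 3 (by decide))
        (hp 2 3 (by decide)) (hp 3 2 (by decide)) (hp 2 1 (by decide)) (hp 3 1 (by decide))
        ?_ ?_ hw hS hS1
      · rw [Qv_eq h]
        ring
      · rw [Qv_eq h, Qv_eq h]
        ring
  rw [wt_add]
  unfold cs
  rcases eq_or_ne (pp (Qv a (vi i) z.2)) 0 with h0 | h0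
  · rw [h0, div_zero, zero_mul]
    positivity
  · have h1 : 0 < pp (Qv a (vi i) z.2) := lt_of_le_of_ne (pp_nonneg _) (Ne.symm h0)
    rw [div_mul_eq_mul_div, div_le_iff₀ h1]
    unfold ls
    rw [div_mul_eq_mul_div, mul_one_div, div_mul_eq_mul_div]
    apply div_le_div_of_nonneg_right _ hD.le
    linarith

/-- for `S ≤ .026` the third coordinate vanishes on the loss pairs -/
theorem cs_bar_zero (h : Gram4 (al a)) (i : Bool) {z : E3 × E3} (hz : Pl a z.1) (hq : Pl a z.2)
    (hS : Qv a (vi i) z.2 ≤ 0.026) : cs a i z * pp (bar a (vo i) z.2) = 0 := by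
  have h1 := cs_bar h i hz hq hS (by norm_num)
  have h2 : √(0.026 : ℝ) ≤ 0.1623 := by
    rw [show (0.1623 : ℝ) = √(0.1623 ^ 2) from (Real.sqrt_sq (by norm_num)).symm]
    apply Real.sqrt_le_sqrt
    norm_num
  have h3 : pp (√(0.026 : ℝ) - 0.1623) = 0 := max_eq_right (by linarith)
  rw [h3] at h1
  have h4 := mul_nonneg (cs_nonneg (a := a) i z) (pp_nonneg (bar a (vo i) z.2))
  nlinarith

/-- the excess of an edge cell is at least minus the integral of the two losses -/
theorem TE_ls {K : Set E3} {σ : Measure (E3 × E3)} [IsFiniteMeasure σ]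
    {b : OrthonormalBasis (Fin 3) ℝ E3} (hP : PM K σ)
    (ha : ∀ i j, i ≠ j → dist (a i) (a j) = 1) (hb : Fr a b) :
    -((∫ z in Zp a 2 3, ls a false z ∂σ) + ∫ z in Zp a 2 3, ls a true z ∂σ) ≤
      TE b (cen a) σ := by
  have i1 := (int_cont hP.cpt hP.mem (ls_cont a false)).integrableOn (s := Zp a 2 3)
  have i2 := (int_cont hP.cpt hP.mem (ls_cont a true)).integrableOn (s := Zp a 2 3)
  rw [TE_exc hP ha hb, ← integral_add i1 i2, ← integral_neg]
  refine integral_mono (i1.add i2).neg
    (int_cont hP.cpt hP.mem (exc_cont a)).integrableOn fun z => ?_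
  exact exs_ge z

end

end Helper41.MEI
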