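import Pool.Agent.Helper41.MEI.Exs2
import Pool.Agent.Helper37.MEI.LossG
import Pool.Agent.Helper21.MEI.Mom
import Pool.Agent.Helper78.MEI.Asm

/-!
# Project MEI (M2): arc loads of a general loss density

`l m e i z` is the loss charged to the vertex `vx m e i` by the pair `z` of the cell `(m, e)`.
Everything the face theorem needs (load, mass, moments) is proved for every admissible system
`Lok a l`; `l2 a` is the system of `Exs2` (third coordinate of the moment almost nonpositive).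
-/

namespace Helper41.MEI

open Set Metric MeasureTheory Helper80.CW Helper14.CW Helper14.MEI2
open Helper93.MEI Helper37.MEI
open Pool.Agent.Helper8.MEI (DD DD_pos)
open Pool.Agent.Helper73.MEI (PM TE TE_exc pf pr pr_apply pf_bij beE)
open Pool.Agent.Helper95.MEI.Fub (Zp exc exc_cont eX_cont eY_cont eW_cont Qv_cont pp_cont
  DDe_cont int_cont Zp_meas)
open Pool.Agent.Helper95.MEI.Cst (fAs vAs vAx v_hi v_lo)
open scoped RealInnerProductSpace Real

/-- admissible systems of losses -/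
structure Lok (a : Fin 4 → E3) (l : Fin 3 → Bool → Bool → E3 × E3 → ℝ) : Prop where
  cont : ∀ m e i, Continuous (l m e i)
  nn : ∀ m e i z, 0 ≤ l m e i z
  le : ∀ m e i (z : E3 × E3), Pl a z.1 →
    l m e i z ≤ wt (ap a m e) i z.1 * pp (Qv a (vx m e i) z.2)

section defs
variable (σ : Measure (E3 × E3)) (a : Fin 4 → E3) (l : Fin 3 → Bool → Bool → E3 × E3 → ℝ)

/-- density of the loss against `pp Q` -/
noncomputable def den (m : Fin 3) (e i : Bool) (z : E3 × E3) : ℝ :=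
  l m e i z / pp (Qv a (vx m e i) z.2)

/-- loss, mass, first moment of one (edge, vertex) -/
noncomputable def sL (m : Fin 3) (e i : Bool) : ℝ := ∫ z in EE a m e, l m e i z ∂σ
noncomputable def sm (m : Fin 3) (e i : Bool) : ℝ := ∫ z in EE a m e, den a l m e i z ∂σ
noncomputable def sM (m : Fin 3) (e i : Bool) (k : Fin 4) : ℝ :=
  ∫ z in EE a m e, den a l m e i z * bar a k z.2 ∂σ

/-- the loss of a vertex -/
noncomputable def LLs (j : Fin 4) : ℝ :=
  ∑ x : Fin 3 × Bool × Bool, if vx x.1 x.2.1 x.2.2 = j then sL σ a l x.1 x.2.1 x.2.2 else 0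

end defs

theorem vx_vi (m : Fin 3) (e i : Bool) : vx m e i = pf m e (vi i) := by
  cases i <;> rfl

theorem vx_vo (m : Fin 3) (e i : Bool) : vx m e (!i) = pf m e (vo i) := by
  cases i <;> rfl

section
variable {a : Fin 4 → E3} {l : Fin 3 → Bool → Bool → E3 × E3 → ℝ} {K : Set E3}
  {σ : Measure (E3 × E3)}

theorem den_nonneg (hl : Lok a l) (m : Fin 3) (e i : Bool) (z : E3 × E3) :
    0 ≤ den a l m e i z := div_nonneg (hl.nn m e i z) (pp_nonneg _)

theorem den_zero (m : Fin 3) (e i : Bool) {z : E3 × E3} (hz : Qv a (vx m e i) z.2 ≤ 0) :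
    den a l m e i z = 0 := by
  have e1 : pp (Qv a (vx m e i) z.2) = 0 := max_eq_right hz
  unfold den
  rw [e1, div_zero]

theorem den_meas (hl : Lok a l) (m : Fin 3) (e i : Bool) : Measurable (den a l m e i) := by
  have h1 := (hl.cont m e i).measurable
  have h2 : Continuous (fun z : E3 × E3 => pp (Qv a (vx m e i) z.2)) :=
    pp_cont.comp ((Qv_cont a _).comp continuous_snd)
  exact h1.div h2.measurable

/-- the loss is `den * pp Q` -/
theorem l_eq (hl : Lok a l) (m : Fin 3) (e i : Bool) {z : E3 × E3} (hz : Pl a z.1) :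
    l m e i z = den a l m e i z * pp (Qv a (vx m e i) z.2) := by
  unfold den
  by_cases h0 : pp (Qv a (vx m e i) z.2) = 0
  · have h1 := hl.le m e i z hz
    rw [h0, mul_zero] at h1
    have h2 := hl.nn m e i z
    rw [h0, div_zero, zero_mul]
    linarith
  · field_simp

theorem den_Q (m : Fin 3) (e i : Bool) (z : E3 × E3) :
    den a l m e i z * Qv a (vx m e i) z.2 =
      den a l m e i z * pp (Qv a (vx m e i) z.2) := by
  rcases le_total (Qv a (vx m e i) z.2) 0 with h0 | h0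
  · rw [den_zero m e i h0, zero_mul, zero_mul]
  · rw [show pp (Qv a (vx m e i) z.2) = Qv a (vx m e i) z.2 from max_eq_left h0]

theorem den_le (hg : ∀ m e, Gram4 (al (ap a m e))) (hl : Lok a l) (m : Fin 3) (e i : Bool)
    {z : E3 × E3} (hz : Pl a z.1) : den a l m e i z ≤ wt (ap a m e) i z.1 := by
  have hw := wt_nonneg (hg m e) i (Pl_perm _ hz)
  unfold den
  by_cases h0 : pp (Qv a (vx m e i) z.2) = 0
  · rw [h0, div_zero]
    exact hw
  · have h1 : 0 < pp (Qv a (vx m e i) z.2) := lt_of_le_of_ne (pp_nonneg _) (Ne.symm h0)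
    rw [div_le_iff₀ h1]
    exact hl.le m e i z hz

variable (ha : ∀ i j, i ≠ j → dist (a i) (a j) = 1)
include ha

/-- the densities are bounded -/
theorem den_bdd (hl : Lok a l) (hK : IsCompact K) (hσ : ∀ᵐ z ∂σ, z.1 ∈ K ∧ z.2 ∈ K)
    (hp : ∀ x ∈ K, Pl a x) (m : Fin 3) (e i : Bool) :
    ∃ C, ∀ᵐ z ∂σ, den a l m e i z ≤ C := by
  obtain ⟨C, hC⟩ := hK.exists_bound_of_continuousOn (wt_cont (ap a m e) i).continuousOn
  refine ⟨C, ?_⟩
  filter_upwards [hσ] with z hz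
  have h1 := den_le (hgp ha) hl m e i (hp _ hz.1)
  have h2 := hC _ hz.1
  rw [Real.norm_eq_abs] at h2
  exact h1.trans ((le_abs_self _).trans h2)

omit ha in
theorem den_nn (hl : Lok a l) (m : Fin 3) (e i : Bool) : ∀ᵐ z ∂σ, 0 ≤ den a l m e i z :=
  Filter.Eventually.of_forall (den_nonneg hl m e i)

omit ha in
theorem sL_eq (hl : Lok a l) (hσ : ∀ᵐ z ∂σ, z.1 ∈ K ∧ z.2 ∈ K)
    (hp : ∀ x ∈ K, Pl a x) (m : Fin 3) (e i : Bool) :
    sL σ a l m e i = ∫ z in EE a m e, den a l m e i z * Qv a (vx m e i) z.2 ∂σ := by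
  unfold sL
  apply integral_congr_ae
  filter_upwards [ae_restrict_of_ae hσ] with z hz
  rw [l_eq hl m e i (hp _ hz.1), den_Q]

omit ha in
theorem sL_nonneg (hl : Lok a l) (m : Fin 3) (e i : Bool) : 0 ≤ sL σ a l m e i :=
  integral_nonneg (hl.nn m e i)

omit ha in
theorem sm_nonneg (hl : Lok a l) (m : Fin 3) (e i : Bool) : 0 ≤ sm σ a l m e i :=
  integral_nonneg (den_nonneg hl m e i)

/-- **load of one arc** -/
theorem arc_cpl [IsFiniteMeasure σ] (hl : Lok a l) (hK : IsCompact K)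
    (hσ : ∀ᵐ z ∂σ, z.1 ∈ K ∧ z.2 ∈ K) (hp : ∀ x ∈ K, Pl a x) (m : Fin 3) (e i : Bool) {r : E3}
    (hr : ∀ z ∈ K, ‖z - r‖ ≤ 1) :
    sL σ a l m e i + sm σ a l m e i * ‖a (vx m e i) - r‖ ^ 2 ≤
      2 * ∑ k, sM σ a l m e i k * yv a (vx m e i) k r := by
  obtain ⟨C, hC⟩ := den_bdd ha hl hK hσ hp m e i
  rw [sL_eq hl hσ hp]
  exact cplG (gram_of_dist ha) hK hσ (den_meas hl m e i) (den_nn hl m e i) hC _ _ hr

/-- loss against mass -/
theorem sL_le [IsFiniteMeasure σ] (hl : Lok a l) (hK : IsCompact K)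
    (hσ : ∀ᵐ z ∂σ, z.1 ∈ K ∧ z.2 ∈ K) (hp : ∀ x ∈ K, Pl a x) {S : ℝ} (m : Fin 3) (e i : Bool)
    (hQ : ∀ x ∈ K, Qv a (vx m e i) x ≤ S) :
    sL σ a l m e i ≤ S * sm σ a l m e i := by
  obtain ⟨C, hC⟩ := den_bdd ha hl hK hσ hp m e i
  rw [sL_eq hl hσ hp]
  unfold sm
  rw [← integral_const_mul]
  have i1 := (dens_int hK hσ (den_meas hl m e i) (den_nn hl m e i) hC
    ((Qv_cont a (vx m e i)).comp continuous_snd)).integrableOn (s := EE a m e)
  have i2 := (dens_int1 (den_meas hl m e i) (den_nn hl m e i) hC).integrableOn (s := EE a m e)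
  refine integral_mono_ae i1 (i2.const_mul S) ?_
  filter_upwards [ae_restrict_of_ae hσ] with z hz
  have h1 := mul_le_mul_of_nonneg_left (hQ _ hz.2) (den_nonneg hl m e i z)
  show den a l m e i z * Qv a (vx m e i) z.2 ≤ S * den a l m e i z
  linarith

/-- total of the moments -/
theorem sM_sum [IsFiniteMeasure σ] (hl : Lok a l) (hK : IsCompact K)
    (hσ : ∀ᵐ z ∂σ, z.1 ∈ K ∧ z.2 ∈ K) (hp : ∀ x ∈ K, Pl a x) (m : Fin 3) (e i : Bool) :
    ∑ k, sM σ a l m e i k = sm σ a l m e i := by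
  obtain ⟨C, hC⟩ := den_bdd ha hl hK hσ hp m e i
  have i1 : ∀ k, IntegrableOn (fun z : E3 × E3 => den a l m e i z * bar a k z.2) (EE a m e) σ :=
    fun k => (dens_int hK hσ (den_meas hl m e i) (den_nn hl m e i) hC
      ((bar_cont a k).comp continuous_snd)).integrableOn
  unfold sM sm
  rw [← integral_finsetSum _ fun k _ => i1 k]
  apply integral_congr_ae
  filter_upwards with z
  have hb := bar_sum (gram_of_dist ha) z.2
  rw [← Finset.mul_sum, Fin.sum_univ_four, hb, mul_one]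

/-- **mass below the mass of the weight** -/
theorem sm_le [IsFiniteMeasure σ] (hl : Lok a l) (hK : IsCompact K)
    (hσ : ∀ᵐ z ∂σ, z.1 ∈ K ∧ z.2 ∈ K) (hp : ∀ x ∈ K, Pl a x) (m : Fin 3) (e i : Bool) :
    sm σ a l m e i ≤ ∫ z in EE a m e, wt (ap a m e) i z.1 ∂σ := by
  obtain ⟨C, hC⟩ := den_bdd ha hl hK hσ hp m e i
  refine massG hK hσ (den_meas hl m e i) (den_nn hl m e i) hC (wt_cont _ i) ?_
  filter_upwards [ae_restrict_of_ae hσ] with z hz
  exact den_le (hgp ha) hl m e i (hp _ hz.1)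

/-- **mass of one arc, closed bound** -/
theorem sm_mass {B : Fin 3 → Bool → OrthonormalBasis (Fin 3) ℝ E3} [IsFiniteMeasure σ]
    (hl : Lok a l) (h : PM K σ) (hp : ∀ x ∈ K, Pl a x)
    (hB : ∀ m e, Fr (fun i => a (pr m e i)) (B m e)) {s : Fin 4 → ℝ} (hs : ∀ i, 0 ≤ s i)
    (hQ : ∀ i, ∀ q ∈ K, Qv a i q ≤ s i) (m : Fin 3) (e i : Bool)
    (hd : 0 ≤ 1 - 2 * (s (pf m e 0) + s (pf m e 1)) - 1.54 * (s (pf m e 0) - s (pf m e 1)) ^ 2) :
    (1 - 2 * (s (pf m e 0) + s (pf m e 1)) - 1.54 * (s (pf m e 0) - s (pf m e 1)) ^ 2) *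
        sm σ a l m e i ≤
      2 * fAs + 9.2 * ((0.0393 + 0.2358 * s (pf m e 2)) * s (pf m e 2) +
        (0.0393 + 0.2358 * s (pf m e 3)) * s (pf m e 3)) :=
  (mul_le_mul_of_nonneg_left (sm_le ha hl h.cpt h.mem hp m e i) hd).trans
    (wt_mass ha h hp hB hs hQ m e i)

/-- **sum of the positive parts of the moments** -/
theorem sM_sum_pp [IsFiniteMeasure σ] (hl : Lok a l) (hK : IsCompact K)
    (hσ : ∀ᵐ z ∂σ, z.1 ∈ K ∧ z.2 ∈ K) (hp : ∀ x ∈ K, Pl a x) {S : ℝ} (hS : 0 ≤ S)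
    (hQ : ∀ i, ∀ x ∈ K, Qv a i x ≤ S) (m : Fin 3) (e i : Bool) :
    (∑ k, if k = vx m e i then 0 else pp (sM σ a l m e i k)) ≤
      √(3 / 2 + 2 * S) * sm σ a l m e i := by
  obtain ⟨C, hC⟩ := den_bdd ha hl hK hσ hp m e i
  exact sumG (gram_of_dist ha) hK hσ hp hS hQ (den_meas hl m e i) (den_nn hl m e i) hC _ _

/-- **moments in the two coordinates of the opposite edge** -/
theorem sM_Mbar [IsFiniteMeasure σ] (hl : Lok a l) (h : PM K σ)
    (hull : ∀ p, (∀ q ∈ K, ‖p - q‖ ≤ 1) → p ∈ K) (hp : ∀ x ∈ K, Pl a x)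
    {B : Fin 3 → Bool → OrthonormalBasis (Fin 3) ℝ E3}
    (hB : ∀ m e, Fr (fun i => a (pr m e i)) (B m e)) {S : Fin 4 → ℝ} (hS0 : ∀ i, 0 ≤ S i)
    (hQ : ∀ i, ∀ q ∈ K, Qv a i q ≤ S i) {T : ℝ} (hT : ∀ i, S i ≤ T) (hT1 : T ≤ 3 / 16)
    (m : Fin 3) (e i : Bool) {k : Fin 4} (hk : k = 2 ∨ k = 3) :
    pp (sM σ a l m e i (pf m e k)) ≤ Helper21.Mom.Mbar T := by
  obtain ⟨C, hC⟩ := den_bdd ha hl h.cpt h.mem hp m e i
  refine le_trans ?_ (Helper21.Mom.mom_all h ha hull hp hB hS0 hQ hT hT1 m e i hk)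
  have i1 := dens_int (σ := σ) h.cpt h.mem (den_meas hl m e i) (den_nn hl m e i) hC
    ((bar_cont a (pf m e k)).comp continuous_snd)
  have i2 : Integrable (fun z : E3 × E3 => wt (ap a m e) i z.1 * pp (bar a (pf m e k) z.2)) σ :=
    int_cont h.cpt h.mem (((wt_cont (ap a m e) i).comp continuous_fst).mul
      (pp_cont.comp ((bar_cont a (pf m e k)).comp continuous_snd)))
  unfold pp sM
  apply max_le
  · refine integral_mono_ae i1.integrableOn i2.integrableOn ?_
    filter_upwards [ae_restrict_of_ae h.mem] with z hz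
    have h1 := den_nonneg hl m e i z
    have h2 := den_le (hgp ha) hl m e i (hp _ hz.1)
    have h3 := le_pp (bar a (pf m e k) z.2)
    have h4 := pp_nonneg (bar a (pf m e k) z.2)
    exact (mul_le_mul_of_nonneg_left h3 h1).trans (mul_le_mul_of_nonneg_right h2 h4)
  · apply integral_nonneg_of_ae
    filter_upwards [ae_restrict_of_ae h.mem] with z hz
    exact mul_nonneg (wt_nonneg (hgp ha m e) i (Pl_perm _ (hp _ hz.1))) (pp_nonneg _)

omit ha in
/-- the loss of a vertex is the sum over its three arcs -/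
theorem sum_LLs : ∑ j, LLs σ a l j = ∑ m, ∑ e, (sL σ a l m e false + sL σ a l m e true) := by
  have h1 : ∑ j, LLs σ a l j = ∑ x : Fin 3 × Bool × Bool, sL σ a l x.1 x.2.1 x.2.2 := by
    unfold LLs
    rw [Finset.sum_comm]
    apply Finset.sum_congr rfl
    intro x _
    simp
  rw [h1, Fintype.sum_prod_type]
  apply Finset.sum_congr rfl
  intro m _
  rw [Fintype.sum_prod_type]
  apply Finset.sum_congr rfl
  intro e _
  rw [Fintype.sum_bool]
  ring

end

/-! ### the system of `Exs2` -/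

/-- the losses of `Exs2` -/
noncomputable def l2 (a : Fin 4 → E3) (m : Fin 3) (e i : Bool) (z : E3 × E3) : ℝ :=
  ls (ap a m e) i z

section
variable {a : Fin 4 → E3} {K : Set E3} {σ : Measure (E3 × E3)}
  (ha : ∀ i j, i ≠ j → dist (a i) (a j) = 1)
include ha

theorem l2_ok : Lok a (l2 a) where
  cont m e i := ls_cont _ i
  nn m e i z := ls_nonneg i z
  le m e i z hz := by
    have h1 := ls_le (hgp ha m e) i (z := z) (Pl_perm _ hz)
    have e1 : Qv (ap a m e) (vi i) z.2 = Qv a (vx m e i) z.2 := by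
      rw [vx_vi]
      rfl
    rw [e1] at h1
    exact h1

omit ha in
theorem den_l2 (m : Fin 3) (e i : Bool) (z : E3 × E3) :
    den a (l2 a) m e i z = cs (ap a m e) i z := by
  unfold den l2 cs
  rw [vx_vi]
  rfl

/-- **the third coordinate** (other end of the edge) -/
theorem sM_third [IsFiniteMeasure σ] (hK : IsCompact K) (hσ : ∀ᵐ z ∂σ, z.1 ∈ K ∧ z.2 ∈ K)
    (hp : ∀ x ∈ K, Pl a x) {S : ℝ} (hS1 : S ≤ 3 / 20) (m : Fin 3) (e i : Bool)
    (hQ : ∀ x ∈ K, Qv a (vx m e i) x ≤ S) :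
    pp (sM σ a (l2 a) m e i (vx m e (!i))) ≤ 8 / 9 * pp (√S - 0.1623) ^ 2 *
      ((∫ z in EE a m e, wt (ap a m e) false z.1 ∂σ) +
        ∫ z in EE a m e, wt (ap a m e) true z.1 ∂σ) := by
  have hl := l2_ok ha
  obtain ⟨C, hC⟩ := den_bdd ha hl hK hσ hp m e i
  have w0 := (cont_int hK hσ ((wt_cont (ap a m e) false).comp
    continuous_fst)).integrableOn (s := EE a m e)
  have w1 := (cont_int hK hσ ((wt_cont (ap a m e) true).comp
    continuous_fst)).integrableOn (s := EE a m e)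
  have h1 := thirdG (a := a) hK hσ (den_meas hl m e i) (den_nn hl m e i) hC (E := EE a m e)
    (W := fun x => wt (ap a m e) false x + wt (ap a m e) true x)
    ((wt_cont _ false).add (wt_cont _ true)) (D := 8 / 9 * pp (√S - 0.1623) ^ 2)
    (vx m e (!i)) (by
      filter_upwards [ae_restrict_of_ae hσ] with z hz
      have e1 : Qv (ap a m e) (vi i) z.2 = Qv a (vx m e i) z.2 := by
        rw [vx_vi]
        rfl
      have h2 := cs_bar (hgp ha m e) i (z := z) (Pl_perm _ (hp _ hz.1)) (Pl_perm _ (hp _ hz.2))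
        (S := S) (by rw [e1]; exact hQ _ hz.2) hS1
      have e2 : bar (ap a m e) (vo i) z.2 = bar a (vx m e (!i)) z.2 := by
        rw [vx_vo]
        exact bar_perm (pr m e) (vo i) z.2
      rw [e2, ← den_l2] at h2
      exact h2)
  unfold sM
  refine h1.trans (le_of_eq ?_)
  congr 1
  exact integral_add w0 w1

/-- for `S ≤ .026` the third coordinate is not positive -/
theorem sM_third_zero [IsFiniteMeasure σ] (hK : IsCompact K) (hσ : ∀ᵐ z ∂σ, z.1 ∈ K ∧ z.2 ∈ K)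
    (hp : ∀ x ∈ K, Pl a x) (m : Fin 3) (e i : Bool)
    (hQ : ∀ x ∈ K, Qv a (vx m e i) x ≤ 0.026) :
    pp (sM σ a (l2 a) m e i (vx m e (!i))) = 0 := by
  have h1 := sM_third ha hK hσ hp (S := 0.026) (by norm_num) m e i hQ
  have h2 : √(0.026 : ℝ) ≤ 0.1623 := by
    rw [show (0.1623 : ℝ) = √(0.1623 ^ 2) from (Real.sqrt_sq (by norm_num)).symm]
    apply Real.sqrt_le_sqrt
    norm_num
  have h3 : pp (√(0.026 : ℝ) - 0.1623) = 0 := max_eq_right (by linarith)
  rw [h3] at h1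
  norm_num at h1
  exact le_antisymm h1 (pp_nonneg _)

end

/-! ### regime II with the new losses -/

section
variable {a : Fin 4 → E3} {K : Set E3} {σ : Measure (E3 × E3)} [IsFiniteMeasure σ]
  {B : Fin 3 → Bool → OrthonormalBasis (Fin 3) ℝ E3}

/-- **regime II** (`κ = .13`) with the losses `l2` -/
theorem asm2s (h : PM K σ) (ha : ∀ i j, i ≠ j → dist (a i) (a j) = 1)
    (hp : ∀ x ∈ K, Pl a x) (hz : ∀ᵐ z ∂σ, Pl a z.1 ∧ ∀ k, bar a k z.1 ≠ 0)
    (hull : ∀ p, (∀ q ∈ K, ‖p - q‖ ≤ 1) → p ∈ K)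
    (hB : ∀ m e, Fr (fun i => a (pr m e i)) (B m e)) {s : Fin 4 → ℝ} (hs0 : ∀ i, 0 ≤ s i)
    (hs : ∀ i, s i ≤ 0.2) (hQ : ∀ i, ∀ q ∈ K, Qv a i q ≤ s i) :
    ∑ i, (Helper33.MEI.Wi a i K σ 3.7 - LLs σ a (l2 a) i
        - (0.0295 * s i + 0.092 * s i ^ 2 + 0.46 * s i ^ 3)) - 3.0e-4 ≤
    3.95 * (volume.real K - Helper82.CW.VM) := by
  have h1 := Helper33.MEI.star_W 0.13 h ha hp hz hB
  have h2 : ∀ m e, -(sL σ a (l2 a) m e false + sL σ a (l2 a) m e true) ≤
      TE (B m e) (cen a) σ := by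
    intro m e
    have hc : cen (fun i => a (pr m e i)) = cen a := cen_perm _
    have h3 := TE_ls h (hap ha m e) (hB m e)
    rw [show cen (ap a m e) = cen a from hc] at h3
    exact h3
  have h4 : ∀ m, -(0.13 * (vAs - vAx)) ≤
      0.13 * ((vAs - vAx) - Pool.Agent.Helper73.MEI.lE (B m false) (cen a) K -
        Pool.Agent.Helper73.MEI.lE (B m true) (cen a) K)
        - 0.26 * ((vAs - vAx) - max (Pool.Agent.Helper73.MEI.lE (B m false) (cen a) K)
          (Pool.Agent.Helper73.MEI.lE (B m true) (cen a) K)) := by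
    intro m
    rcases le_total (Pool.Agent.Helper73.MEI.lE (B m false) (cen a) K)
      (Pool.Agent.Helper73.MEI.lE (B m true) (cen a) K) with h5 | h5
    · rw [max_eq_right h5]; linarith
    · rw [max_eq_left h5]; linarith
  have h5 := Pool.Agent.Helper52.MEI.ET_row0 h ha hp
  have h6 := Pool.Agent.Helper52.MEI.tau_20 ha h.cpt hull hs0 hs hQ
  have h7 := Helper72.MEI.xiE_sum ha hB hull hs0 hQ
  have h8 := Helper72.MEI.beE_sum ha hB hp hs0 hQ
  have h9 := sum_LLs (a := a) (σ := σ) (l := l2 a)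
  have h10 := v_hi
  have f0 := h2 0 false
  have f1 := h2 1 false
  have f2 := h2 2 false
  have t0 := h2 0 true
  have t1 := h2 1 true
  have t2 := h2 2 true
  have g0 := h4 0
  have g1 := h4 1
  have g2 := h4 2
  have e1 : (3.57 + 0.13 : ℝ) = 3.7 := by norm_num
  have i0 := hs0 0
  have i1 := hs0 1
  have i2 := hs0 2
  have i3 := hs0 3
  have p0 := pow_nonneg i0 2
  have p1 := pow_nonneg i1 2
  have p2 := pow_nonneg i2 2
  have p3 := pow_nonneg i3 2
  have c0 := pow_nonneg i0 3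
  have c1 := pow_nonneg i1 3
  have c2 := pow_nonneg i2 3
  have c3 := pow_nonneg i3 3
  rw [e1] at h1
  simp only [Fin.sum_univ_three, Fin.sum_univ_four, Fintype.sum_bool] at h1 h7 h8 h9 ⊢
  norm_num at h1 h6 h7 h8 h10 ⊢
  linarith

end

end Helper41.MEI
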