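import Pool.Agent.Helper41.MEI.ArcS
import Pool.Agent.Helper52.MEI.LoadW
import Pool.Agent.Helper55.MEI.Mass

/-!
# Project MEI (M2): the arcs of a face as loads

`ax j l` is the index of the arc of the vertex `j` in the cell of the edge `j l`.  In the face of
`τ 0` the arc `k` (edge `τ 0, τ (k + 1)`) is a load with the levels `sL`, the mass `sm` and the
columns `sM`; the three losses of the face add up to `LLs`.
-/

set_option autoImplicit false

namespace Helper41.MEI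

open Set Metric MeasureTheory Helper80.CW Helper14.CW Helper14.MEI2
open Helper93.MEI Helper37.MEI
open Pool.Agent.Helper73.MEI (PM TE pf pr pr_apply pf_bij)
open Pool.Agent.Helper52.MEI (Load)
open Pool.Agent.Helper55.Mass (LN)
open scoped RealInnerProductSpace Real

/-- the arc of the vertex `j` in the cell of the edge `j l` -/
def ax : Fin 4 → Fin 4 → Fin 3 × Bool × Bool
  | 0 => ![(0, false, false), (0, false, false), (1, false, false), (2, false, false)]
  | 1 => ![(0, false, true), (0, false, false), (2, true, false), (1, true, false)]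
  | 2 => ![(1, false, true), (2, true, true), (0, false, false), (0, true, false)]
  | 3 => ![(2, false, true), (1, true, true), (0, true, true), (0, false, false)]

theorem ax_vx : ∀ j l, j ≠ l → vx (ax j l).1 (ax j l).2.1 (ax j l).2.2 = j ∧
    vx (ax j l).1 (ax j l).2.1 (!(ax j l).2.2) = l := by decide

/-- the other two vertices are the vertices `2`, `3` of the labelling of the cell -/
theorem ax_pf : ∀ j l k, j ≠ l → k ≠ j → k ≠ l →
    k = pf (ax j l).1 (ax j l).2.1 2 ∨ k = pf (ax j l).1 (ax j l).2.1 3 := by decide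

section
variable {a : Fin 4 → E3} {l : Fin 3 → Bool → Bool → E3 × E3 → ℝ} {K : Set E3}
  {σ : Measure (E3 × E3)}

/-- level, mass and moments of the arc of `j` in the cell of the edge `j k` -/
noncomputable def aL (σ : Measure (E3 × E3)) (a : Fin 4 → E3)
    (l : Fin 3 → Bool → Bool → E3 × E3 → ℝ) (j k : Fin 4) : ℝ :=
  sL σ a l (ax j k).1 (ax j k).2.1 (ax j k).2.2
noncomputable def am (σ : Measure (E3 × E3)) (a : Fin 4 → E3)
    (l : Fin 3 → Bool → Bool → E3 × E3 → ℝ) (j k : Fin 4) : ℝ :=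
  sm σ a l (ax j k).1 (ax j k).2.1 (ax j k).2.2
noncomputable def aM (σ : Measure (E3 × E3)) (a : Fin 4 → E3)
    (l : Fin 3 → Bool → Bool → E3 × E3 → ℝ) (j k n : Fin 4) : ℝ :=
  sM σ a l (ax j k).1 (ax j k).2.1 (ax j k).2.2 n

theorem aL_nonneg (hl : Lok a l) (j k : Fin 4) : 0 ≤ aL σ a l j k := sL_nonneg hl _ _ _

theorem am_nonneg (hl : Lok a l) (j k : Fin 4) : 0 ≤ am σ a l j k := sm_nonneg hl _ _ _

/-- the loss of a vertex by its three arcs -/
theorem LLs_ax (j : Fin 4) : LLs σ a l j = ∑ k, if k = j then 0 else aL σ a l j k := by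
  unfold LLs aL
  rw [Fintype.sum_prod_type]
  simp only [Fintype.sum_prod_type, Fin.sum_univ_three, Fin.sum_univ_four, Fintype.sum_bool]
  fin_cases j <;> simp [vx, pf, ax] <;> ring

/-- the same in the labelling of the face -/
theorem LLs_face (τ : Equiv.Perm (Fin 4)) :
    LLs σ a l (τ 0) = ∑ k : Fin 3, aL σ a l (τ 0) (τ k.succ) := by
  rw [LLs_ax, ← Equiv.sum_comp τ (fun k => if k = τ 0 then 0 else aL σ a l (τ 0) k),
    Fin.sum_univ_succ]
  rw [if_pos rfl, zero_add]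
  apply Finset.sum_congr rfl
  intro k _
  rw [if_neg]
  intro h
  exact absurd (τ.injective h) (Fin.succ_ne_zero k)

section loads
variable (ha : ∀ i j, i ≠ j → dist (a i) (a j) = 1) [IsFiniteMeasure σ] (hl : Lok a l)
  (hK : IsCompact K) (hσ : ∀ᵐ z ∂σ, z.1 ∈ K ∧ z.2 ∈ K) (hp : ∀ x ∈ K, Pl a x)
include ha hl hK hσ hp

/-- **the arc as a load of the face** -/
theorem arc_load (τ : Equiv.Perm (Fin 4)) (k : Fin 3) {q : E3} (hq : Pl a q)
    (hd : ∀ z ∈ K, ‖z - q‖ ≤ 1) {M : Fin 3 → ℝ}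
    (hM : ∀ n : Fin 3, aM σ a l (τ 0) (τ k.succ) (τ n.succ) ≤ M n) :
    Load (fun i => a (τ i)) q (aL σ a l (τ 0) (τ k.succ)) (am σ a l (τ 0) (τ k.succ)) M := by
  have hne : τ 0 ≠ τ k.succ := fun h => absurd (τ.injective h) (Fin.succ_ne_zero k).symm
  have h1 := arc_cpl ha hl hK hσ hp (ax (τ 0) (τ k.succ)).1 (ax (τ 0) (τ k.succ)).2.1
    (ax (τ 0) (τ k.succ)).2.2 hd
  rw [(ax_vx _ _ hne).1] at h1
  have e1 : ∑ n, sM σ a l (ax (τ 0) (τ k.succ)).1 (ax (τ 0) (τ k.succ)).2.1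
      (ax (τ 0) (τ k.succ)).2.2 n * yv a (τ 0) n q =
      ∑ n, aM σ a l (τ 0) (τ k.succ) (τ n) * yv a (τ 0) (τ n) q :=
    (Equiv.sum_comp τ (fun n => aM σ a l (τ 0) (τ k.succ) n * yv a (τ 0) n q)).symm
  rw [e1, Fin.sum_univ_succ, yv_self, mul_zero, zero_add, Fin.sum_univ_three] at h1
  have y : ∀ n : Fin 3, 0 ≤ yv a (τ 0) (τ n.succ) q := fun n =>
    yv_nonneg hq fun h => absurd (τ.injective h) (Fin.succ_ne_zero n).symm
  have k0 := mul_le_mul_of_nonneg_right (hM 0) (y 0)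
  have k1 := mul_le_mul_of_nonneg_right (hM 1) (y 1)
  have k2 := mul_le_mul_of_nonneg_right (hM 2) (y 2)
  have h2 : aL σ a l (τ 0) (τ k.succ) + am σ a l (τ 0) (τ k.succ) * ‖a (τ 0) - q‖ ^ 2 ≤
      2 * (M 0 * yv a (τ 0) (τ (0 : Fin 3).succ) q + M 1 * yv a (τ 0) (τ (1 : Fin 3).succ) q +
        M 2 * yv a (τ 0) (τ (2 : Fin 3).succ) q) := by
    refine h1.trans ?_
    linarith
  exact h2

/-- moments of the two coordinates of the arc at most `ρ`, third coordinate not positive: the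
normalised load -/
theorem arc_load_rho (τ : Equiv.Perm (Fin 4)) (k : Fin 3) {q : E3} (hq : Pl a q)
    (hd : ∀ z ∈ K, ‖z - q‖ ≤ 1) {ρ : ℝ} (hρ : 0 < ρ)
    (hk : aM σ a l (τ 0) (τ k.succ) (τ k.succ) ≤ 0)
    (hn : ∀ n : Fin 3, n ≠ k → aM σ a l (τ 0) (τ k.succ) (τ n.succ) ≤ ρ) :
    Load (fun i => a (τ i)) q (aL σ a l (τ 0) (τ k.succ) / ρ)
      (am σ a l (τ 0) (τ k.succ) / ρ) (fun n => if n = k then 0 else 1) := by
  have h1 := arc_load ha hl hK hσ hp τ k hq hd (M := fun n => if n = k then 0 else ρ)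
    (fun n => by
      by_cases h : n = k
      · rw [if_pos h, h]
        exact hk
      · rw [if_neg h]
        exact hn n h)
  have h2 := h1.smul (inv_nonneg.2 hρ.le)
  have e1 : ρ⁻¹ * aL σ a l (τ 0) (τ k.succ) = aL σ a l (τ 0) (τ k.succ) / ρ := by ring
  have e2 : ρ⁻¹ * am σ a l (τ 0) (τ k.succ) = am σ a l (τ 0) (τ k.succ) / ρ := by ring
  have e3 : (fun n : Fin 3 => ρ⁻¹ * (if n = k then 0 else ρ)) =
      (fun n => if n = k then (0 : ℝ) else 1) := by
    funext n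
    split_ifs
    · ring
    · exact inv_mul_cancel₀ hρ.ne'
  rw [e1, e2, e3] at h2
  exact h2

/-- the arc in contact coordinates `ζ`: any `ζ` with `(1 + N) ζ` above the columns -/
theorem arc_extra (τ : Equiv.Perm (Fin 4)) (k : Fin 3) {q : E3} (hq : Pl a q)
    (hd : ∀ z ∈ K, ‖z - q‖ ≤ 1) {N : Fin 3 → Fin 3 → ℝ} {ζ : Fin 3 → ℝ}
    (hM : ∀ n : Fin 3, aM σ a l (τ 0) (τ k.succ) (τ n.succ) ≤ ζ n + LN N ζ n) :
    Load (fun i => a (τ i)) q (aL σ a l (τ 0) (τ k.succ)) (am σ a l (τ 0) (τ k.succ))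
      (fun n => ζ n + LN N ζ n) :=
  arc_load ha hl hK hσ hp τ k hq hd hM

end loads

end

end Helper41.MEI
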