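import Pool.Agent.Helper93.MEI.Bar

/-!
# Project MEI (M2): a coordinate beyond the far end of the opposite edge, pointwise

`x` in the cell of `01`, `|x - q| = 1`, `r = -b_3(q)`: `r ≤ ε b_2(q) + κ X (X / 2 + z)`,
`X = 2 x_X`, `z = - q_X`.
-/

set_option autoImplicit false

namespace Helper41.ArcP

theorem regA1 {T ε κ X z s r : ℝ} (hX0 : 0 ≤ X) (hX1 : X < 1) (hs : 2 * r ≤ s)
    (ha : r + s / 2 ≤ T + X * z) (hb : (1 - X) * z ≤ T) (hε0 : 0 ≤ ε) (hε : ε ≤ 1 / 3)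
    (hκ : κ ≤ 1 / 2) (hrem : T * ((1 + ε) / 2 - κ * X) ≤ (1 - X) * (ε + κ * X ^ 2 / 2)) :
    r ≤ ε * (1 - s + r) + κ * (X * (X / 2 + z)) := by
  have h1 : 0 < 1 - X := by linarith
  have k1 := mul_nonneg (mul_nonneg h1.le (by linarith : 0 ≤ (1 + ε) / 2))
    (by linarith : 0 ≤ T + X * z - r - s / 2)
  have k2 := mul_nonneg (mul_nonneg (by linarith : 0 ≤ (1 + ε) / 2 - κ) hX0)
    (by linarith : 0 ≤ T - (1 - X) * z)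
  have k3 := mul_nonneg (mul_nonneg h1.le (by linarith : 0 ≤ (1 - 3 * ε) / 4))
    (by linarith : 0 ≤ s - 2 * r)
  have e : (1 - X) * (ε * (1 - s + r) + κ * (X * (X / 2 + z)) - r) =
      (1 - X) * ((1 + ε) / 2) * (T + X * z - r - s / 2) +
      ((1 + ε) / 2 - κ) * X * (T - (1 - X) * z) +
      (1 - X) * ((1 - 3 * ε) / 4) * (s - 2 * r) +
      ((1 - X) * (ε + κ * X ^ 2 / 2) - T * ((1 + ε) / 2 - κ * X)) := by ring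
  have h2 : 0 ≤ (1 - X) * (ε * (1 - s + r) + κ * (X * (X / 2 + z)) - r) := by
    rw [e]; linarith
  have h3 := nonneg_of_mul_nonneg_right h2 h1
  linarith

theorem rem1 {T X : ℝ} (hT0 : 0 ≤ T) (hT : T ≤ 0.0604) (hX0 : 0 ≤ X) (hX : X ≤ 0.72) :
    T * ((1 + 0.565 * T) / 2 - 0.19 * X) ≤ (1 - X) * (0.565 * T + 0.19 * X ^ 2 / 2) := by
  have h1 : 0 ≤ 0.095 * X ^ 2 * (1 - X) - 0.0604 * 0.375 * X + 0.0604 * 0.0479 := by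
    nlinarith [mul_nonneg hX0 (sub_nonneg.2 hX), mul_nonneg (sub_nonneg.2 hX) (sq_nonneg (X - 0.25)),
      mul_nonneg hX0 (sq_nonneg (X - 0.25)), mul_nonneg (sub_nonneg.2 hX) (sq_nonneg (X - 0.4))]
  have h2 : 0 ≤ 0.095 * X ^ 2 * (1 - X) := by
    have : 0 ≤ 1 - X := by linarith
    positivity
  rcases le_total (0.375 * X) 0.0479 with h | h
  · nlinarith [mul_nonneg hT0 (sub_nonneg.2 h), mul_nonneg hT0 (sub_nonneg.2 hT)]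
  · nlinarith [mul_nonneg (sub_nonneg.2 h) (sub_nonneg.2 hT), mul_nonneg hT0 (sub_nonneg.2 hT)]

theorem regA2 {T X z s r : ℝ} (hT : T ≤ 0.0604) (hX0 : 0.72 ≤ X) (hX1 : X ≤ 1)
    (hr : 0 ≤ r) (hs : 2 * r ≤ s)
    (ha : r + s / 2 ≤ T + X * z)
    (hc : r + r ^ 2 - s * r + z + z ^ 2 ≤ 3 / 2 * s - 3 / 4 * s ^ 2 + T) :
    r ≤ 0.565 * T * (1 - s + r) + 0.19 * (X * (X / 2 + z)) := by
  have k1 : 0 ≤ (0.0604 - T) * (0.9782 - 0.565 * (1 - s + r)) :=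
    mul_nonneg (by linarith) (by linarith)
  have k2 : 0 ≤ 0.7058 * (T + X * z - r - s / 2) := mul_nonneg (by norm_num) (by linarith)
  have k3 : 0 ≤ 0.2724 * (3 / 2 * s - 3 / 4 * s ^ 2 + T - (r + r ^ 2 - s * r + z + z ^ 2)) :=
    mul_nonneg (by norm_num) (by linarith)
  nlinarith [sq_nonneg (z - 0.9468 * X + 0.5), sq_nonneg (r - s / 2 + 0.06), sq_nonneg (s - 0.45),
    mul_nonneg (sub_nonneg.2 hX0) (sub_nonneg.2 hX1)]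

theorem regA {T X z s r : ℝ} (hT0 : 0 ≤ T) (hT : T ≤ 0.0604) (hX0 : 0 ≤ X) (hX1 : X ≤ 1)
    (hr : 0 ≤ r) (hs : 2 * r ≤ s)
    (ha : r + s / 2 ≤ T + X * z) (hb : (1 - X) * z ≤ T)
    (hc : r + r ^ 2 - s * r + z + z ^ 2 ≤ 3 / 2 * s - 3 / 4 * s ^ 2 + T) :
    r ≤ 0.565 * T * (1 - s + r) + 0.19 * (X * (X / 2 + z)) := by
  rcases le_total X 0.72 with h | h
  · exact regA1 hX0 (by linarith) hs ha hb (by positivity) (by linarith) (by norm_num)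
      (rem1 hT0 hT hX0 h)
  · exact regA2 hT h hX1 hr hs ha hc

/-- inner product of the two points in reduced coordinates -/
noncomputable def ipr (X ξ s p2 p3 c : ℝ) : ℝ :=
  (1 + p2 + p3) * s / 2 + X * ξ - p2 * (1 - s - c) - p3 * c

/-- half of the squared norm of the second point -/
noncomputable def nmr (ξ s c : ℝ) : ℝ := s ^ 2 / 4 + ξ ^ 2 + ((1 - s - c) ^ 2 + c ^ 2) / 2

theorem caseA {X ξ s p2 p3 c T : ℝ} (g2 : 0 ≤ p2) (g3 : 0 ≤ p3) (hXξ : 0 ≤ X * ξ)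
    (pl3 : c - (1 - s - c) ≤ 1) (hq : 1 - s - c ≤ 0)
    (r32 : ipr X ξ s p2 p3 c + p3 - (1 - s - c) ≤ T)
    (r31 : ipr X ξ s p2 p3 c + p3 - s / 2 + ξ ≤ T) : ξ ≤ T ∧ s ≤ 2 * T := by
  have hs0 : 0 ≤ s := by linarith
  have hk1 : 0 ≤ p2 * (s + c - 1) := mul_nonneg g2 (by linarith)
  have hk2 : 0 ≤ p3 * (s - (s + c - 1)) := mul_nonneg g3 (by linarith)
  have hk3 : 0 ≤ p2 * s := mul_nonneg g2 hs0
  have hk4 : 0 ≤ p3 * s := mul_nonneg g3 hs0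
  unfold ipr at r32 r31
  constructor
  · linarith
  · linarith

theorem caseB {X ξ s p2 p3 c S1 S2 S3 T : ℝ} (g2 : 0 ≤ p2) (g3 : 0 ≤ p3) (hXξ : 0 ≤ X * ξ)
    (hq : 0 ≤ 1 - s - c) (hc : 0 ≤ c) (hs0 : 0 ≤ s)
    (r21 : ipr X ξ s p2 p3 c + p2 - s / 2 + ξ ≤ S2 + S1)
    (r31 : ipr X ξ s p2 p3 c + p3 - s / 2 + ξ ≤ S3 + S1)
    (X2 : ipr X ξ s p2 p3 c + p2 + (1 / 2 - nmr ξ s c) ≤ S2)
    (X3 : ipr X ξ s p2 p3 c + p3 + (1 / 2 - nmr ξ s c) ≤ S3)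
    (h1 : 0 ≤ S1) (h2 : 0 ≤ S2) (h3 : 0 ≤ S3) (hT : S1 + S2 + S3 ≤ T) :
    ξ ≤ T ∧ 0.75 * s ≤ T + ξ ^ 2 := by
  have hq1 : 0 ≤ s + c := by linarith
  have k1 := mul_le_mul_of_nonneg_left r21 hq
  have k2 := mul_le_mul_of_nonneg_left r31 hq1
  have k3 := mul_le_mul_of_nonneg_left X2 hq
  have k4 := mul_le_mul_of_nonneg_left X3 hq1
  have k5 : 0 ≤ (s + c) * S2 := mul_nonneg hq1 h2
  have k5' : 0 ≤ (1 - s - c) * S3 := mul_nonneg hq h3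
  have k6 : 0 ≤ p2 * s := mul_nonneg g2 hs0
  have k7 : 0 ≤ p3 * s := mul_nonneg g3 hs0
  have k8 : 0 ≤ (1 - s - c) * c := mul_nonneg hq hc
  have k9 : 0 ≤ s * (1 - s) := mul_nonneg hs0 (by linarith)
  unfold ipr at k1 k2 k3 k4
  unfold nmr at k3 k4
  have hb : ξ ≤ T := by linarith
  refine ⟨hb, ?_⟩
  linarith

theorem caseC {X ξ s p2 p3 c S1 S2 S3 T : ℝ} (g2 : 0 ≤ p2) (g3 : 0 ≤ p3) (hX : 0 ≤ X)
    (hq : 0 ≤ 1 - s - c) (hc : 0 ≤ c) (hs0 : s ≤ 0) (hξ0 : 0 ≤ ξ) (hu : p2 + p3 ≤ 1 / 4)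
    (r21 : ipr X ξ s p2 p3 c + p2 - s / 2 + ξ ≤ S2 + S1)
    (r31 : ipr X ξ s p2 p3 c + p3 - s / 2 + ξ ≤ S3 + S1)
    (Q1 : nmr ξ s c - s / 2 + ξ - 1 / 2 ≤ S1)
    (h2 : 0 ≤ S2) (h3 : 0 ≤ S3) (hT : S1 + S2 + S3 ≤ T) (hT1 : T ≤ 0.0604) :
    ξ ≤ 0.1286 := by
  have k1 := mul_le_mul_of_nonneg_left r21 hq
  have k2 := mul_le_mul_of_nonneg_left r31 hc
  have h4 : 0 ≤ 1 - s := by linarith
  have k3 : 0 ≤ p2 * (1 - s - (1 - s - c)) := mul_nonneg g2 (by linarith)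
  have k4 : 0 ≤ p3 * (1 - s - c) := mul_nonneg g3 (by linarith)
  have k3' := mul_nonneg k3 (neg_nonneg.2 hs0)
  have k4' := mul_nonneg k4 (neg_nonneg.2 hs0)
  have k5 : (1 - s - c) * (S2 + S1) + c * (S3 + S1) ≤ (1 - s) * T := by
    have a1 := mul_nonneg hc h2
    have a2 := mul_nonneg hq h3
    have a3 := mul_le_mul_of_nonneg_left hT h4
    linarith
  -- (1 - s) ((1 + X) ξ - T + 3/2 u s) ≤ 0
  have k6 : (1 - s) * ((1 + X) * ξ + (p2 + p3) * s * (3 / 2) - T) ≤ 0 := by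
    unfold ipr at k1 k2
    linarith
  have k7 : (1 + X) * ξ + (p2 + p3) * s * (3 / 2) - T ≤ 0 := by
    by_contra hcon
    rw [not_le] at hcon
    have := mul_pos (by linarith : 0 < 1 - s) hcon
    linarith
  have k8 : 0 ≤ X * ξ := mul_nonneg hX hξ0
  have k9 : (1 / 4 - (p2 + p3)) * (-s) ≥ 0 := mul_nonneg (by linarith) (by linarith)
  have k10 : -s ≤ 1 / 4 + T - ξ := by
    unfold nmr at Q1
    nlinarith [sq_nonneg (1 - s - c - c), sq_nonneg s, sq_nonneg ξ]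
  linarith

/-- the relations beyond the plane `c = 0` -/
theorem caseD {X ξ s p2 p3 c S0 S1 S2 S3 T : ℝ} (g2 : 0 ≤ p2) (g3 : 0 ≤ p3)
    (pl2 : 1 - s - c - c ≤ 1) (hc : c ≤ 0)
    (r23 : ipr X ξ s p2 p3 c + p2 - c ≤ S2 + S3)
    (r20 : ipr X ξ s p2 p3 c + p2 - s / 2 - ξ ≤ S2 + S0)
    (r21 : ipr X ξ s p2 p3 c + p2 - s / 2 + ξ ≤ S2 + S1)
    (Q0 : nmr ξ s c - s / 2 - ξ - 1 / 2 ≤ S0)
    (h0 : 0 ≤ S0) (h1 : 0 ≤ S1) (h2 : 0 ≤ S2) (h3 : 0 ≤ S3) (hT : S0 + S1 + S2 + S3 ≤ T) :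
    2 * (-c) ≤ s ∧ -c + s / 2 ≤ T + X * (-ξ) ∧ (1 - X) * (-ξ) ≤ T ∧ (1 + X) * ξ ≤ T ∧
    -c + (-c) ^ 2 - s * (-c) + -ξ + (-ξ) ^ 2 ≤ 3 / 2 * s - 3 / 4 * s ^ 2 + T := by
  have hs : 2 * (-c) ≤ s := by linarith
  have k1 : 0 ≤ p2 * (3 * s / 2 + c) := mul_nonneg g2 (by linarith)
  have k2 : 0 ≤ p3 * (s / 2 - c) := mul_nonneg g3 (by linarith)
  unfold ipr at r23 r20 r21
  unfold nmr at Q0
  refine ⟨hs, by linarith, by linarith, by linarith, by linarith⟩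

theorem sqB {ξ t : ℝ} (h0 : 0 ≤ ξ) (h : ξ ≤ t) : ξ ^ 2 ≤ t ^ 2 := pow_le_pow_left₀ h0 h 2

/-- `c ≥ 0`: the bound of `ξ` -/
theorem caseE {X ξ s p2 p3 c S0 S1 S2 S3 T : ℝ} (g2 : 0 ≤ p2) (g3 : 0 ≤ p3)
    (r32 : ipr X ξ s p2 p3 c + p3 - (1 - s - c) ≤ S3 + S2)
    (r21 : ipr X ξ s p2 p3 c + p2 - s / 2 + ξ ≤ S2 + S1)
    (r31 : ipr X ξ s p2 p3 c + p3 - s / 2 + ξ ≤ S3 + S1)
    (X2 : ipr X ξ s p2 p3 c + p2 + (1 / 2 - nmr ξ s c) ≤ S2)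
    (X3 : ipr X ξ s p2 p3 c + p3 + (1 / 2 - nmr ξ s c) ≤ S3)
    (hu : p2 + p3 ≤ 1 / 4) (Q1 : nmr ξ s c - s / 2 + ξ - 1 / 2 ≤ S1)
    (pl3 : c - (1 - s - c) ≤ 1)
    (h0 : 0 ≤ S0) (h1 : 0 ≤ S1) (h2 : 0 ≤ S2) (h3 : 0 ≤ S3) (hT : S0 + S1 + S2 + S3 ≤ T)
    (hT1 : T ≤ 0.0604) (hX : 0 ≤ X) (hc : 0 ≤ c) (hξ0 : 0 ≤ ξ) :
    ξ ≤ 0.1286 ∧ 0.1216 * (ξ ^ 2 / 2) ≤ 0.337 * (0.0035 * (max (1 - s - c) 0 + c)) := by
  have hXξ : 0 ≤ X * ξ := mul_nonneg hX hξ0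
  rcases lt_or_ge (1 - s - c) 0 with hq | hq
  · have t1 : S3 + S2 ≤ T := by linarith
    have t2 : S3 + S1 ≤ T := by linarith
    obtain ⟨a1, a2⟩ := caseA g2 g3 hXξ pl3 hq.le (r32.trans t1) (r31.trans t2)
    have a3 := sqB hξ0 (a1.trans hT1)
    rw [max_eq_right hq.le]
    have a4 : 0.879 ≤ c := by linarith
    constructor
    · linarith
    · norm_num at a3 ⊢
      linarith
  · rw [max_eq_left hq]
    rcases le_or_gt 0 s with hs0 | hs0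
    · have t1 : S1 + S2 + S3 ≤ T := by linarith
      obtain ⟨a1, a2⟩ := caseB g2 g3 hXξ hq hc hs0 r21 r31 X2 X3 h1 h2 h3 t1
      have a3 := sqB hξ0 (a1.trans hT1)
      norm_num at a3 ⊢
      constructor
      · linarith
      · linarith
    · have t1 : S1 + S2 + S3 ≤ T := by linarith
      have a1 := caseC g2 g3 hX hq hc hs0.le hξ0 hu r21 r31 Q1 h2 h3 t1 hT1
      have a3 := sqB hξ0 a1
      norm_num at a3 ⊢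
      constructor
      · linarith
      · linarith

theorem finE {X ξ m c T w : ℝ} (hX : X ≤ 2 * 0.1286 → 0.337 ≤ w) (hξ : ξ ≤ 0.1286)
    (hXξ : X / 2 < ξ) (hm : 0 ≤ m) (hc : 0 ≤ c) (hT0 : 0 ≤ T)
    (hP2 : -(X * (X / 2 - ξ)) ≤ ξ ^ 2 / 2)
    (h : 0.1216 * (ξ ^ 2 / 2) ≤ 0.337 * (0.0035 * (m + c))) :
    0 ≤ w * ((0.565 * T + 0.0035) * m + 0.0035 * c) + 0.1216 * (X * (X / 2 - ξ)) := by
  have hw := hX (by linarith)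
  have h1 : 0 ≤ (w - 0.337) * (0.0035 * (m + c)) := mul_nonneg (by linarith) (by positivity)
  have h2 : 0 ≤ w * (0.565 * T * m) := mul_nonneg (by linarith) (by positivity)
  have e : w * ((0.565 * T + 0.0035) * m + 0.0035 * c) = w * (0.565 * T * m) +
      (w - 0.337) * (0.0035 * (m + c)) + 0.337 * (0.0035 * (m + c)) := by ring
  rw [e]
  linarith

theorem finD {X ξ s r T w : ℝ} (hX0 : 0 ≤ X) (hX : X ≤ 2 * 0.1286 → 0.337 ≤ w)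
    (hT0 : 0 ≤ T) (hT1 : T ≤ 0.0604) (hξ0 : 0 ≤ ξ)
    (hXξ : X / 2 < ξ) (hξ : (1 + X) * ξ ≤ T) (hs : 2 * r ≤ s) (ha : r + s / 2 ≤ T + X * (-ξ))
    (hP2 : -(X * (X / 2 - ξ)) ≤ ξ ^ 2 / 2) :
    0 ≤ w * (0.565 * T * (1 - s + r) - r) + 0.1216 * (X * (X / 2 - ξ)) := by
  have k0 : 0 ≤ X * ξ := mul_nonneg hX0 hξ0
  have hξT : ξ ≤ T := by linarith
  have hw := hX (by linarith)
  have h3 : ξ ^ 2 ≤ T ^ 2 := sqB hξ0 hξT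
  have h4 : r ≤ T / 2 := by linarith
  have h5 : 0 ≤ T * (T - r - s / 2) := mul_nonneg hT0 (by linarith)
  have h6 : 0 ≤ (T / 2 - r) * (1 - 3 * 0.565 * T) := mul_nonneg (by linarith) (by linarith)
  have h7 : 0 ≤ T * (0.0604 - T) := mul_nonneg hT0 (by linarith)
  -- the bracket
  have h8 : 0.1805 * T ^ 2 ≤ 0.565 * T * (1 - s + r) - r := by
    nlinarith
  have h9 : 0 ≤ (w - 0.337) * (0.565 * T * (1 - s + r) - r) :=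
    mul_nonneg (by linarith) ((by positivity : (0 : ℝ) ≤ 0.1805 * T ^ 2).trans h8)
  linarith

theorem finP {w r m T P q : ℝ} (hw0 : 0 ≤ w) (hw : w ≤ 0.64) (hP : 0 ≤ P) (hm : q ≤ m)
    (hm0 : 0 ≤ m) (hT0 : 0 ≤ T) (h : r ≤ 0.565 * T * q + 0.19 * P) :
    w * r ≤ w * ((0.565 * T + 0.0035) * m) + 0.1216 * P := by
  have h1 := mul_le_mul_of_nonneg_left h hw0
  have h2 : 0 ≤ w * (0.565 * T * (m - q)) := mul_nonneg hw0 (mul_nonneg (by positivity)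
    (by linarith))
  have h3 : 0 ≤ w * (0.0035 * m) := by positivity
  have h4 : 0 ≤ (0.64 - w) * (0.19 * P) := mul_nonneg (by linarith) (by positivity)
  linarith

/-- **the pointwise bound in reduced coordinates**: `x = (X; p2, p3)`, `q = (ξ, s; q2, c)` -/
theorem pwR {X ξ s p2 p3 c S0 S1 S2 S3 T w : ℝ} (g2 : 0 ≤ p2) (g3 : 0 ≤ p3)
    (r23 : ipr X ξ s p2 p3 c + p2 - c ≤ S2 + S3)
    (r20 : ipr X ξ s p2 p3 c + p2 - s / 2 - ξ ≤ S2 + S0)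
    (r32 : ipr X ξ s p2 p3 c + p3 - (1 - s - c) ≤ S3 + S2)
    (r21 : ipr X ξ s p2 p3 c + p2 - s / 2 + ξ ≤ S2 + S1)
    (r31 : ipr X ξ s p2 p3 c + p3 - s / 2 + ξ ≤ S3 + S1)
    (X2 : ipr X ξ s p2 p3 c + p2 + (1 / 2 - nmr ξ s c) ≤ S2)
    (X3 : ipr X ξ s p2 p3 c + p3 + (1 / 2 - nmr ξ s c) ≤ S3)
    (hu : p2 + p3 ≤ 1 / 4)
    (Q0 : nmr ξ s c - s / 2 - ξ - 1 / 2 ≤ S0) (Q1 : nmr ξ s c - s / 2 + ξ - 1 / 2 ≤ S1)
    (plx : X ≤ 1) (pl2 : 1 - s - c - c ≤ 1) (pl3 : c - (1 - s - c) ≤ 1)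
    (h0 : 0 ≤ S0) (h1 : 0 ≤ S1) (h2 : 0 ≤ S2) (h3 : 0 ≤ S3) (hT : S0 + S1 + S2 + S3 ≤ T)
    (hT1 : T ≤ 0.0604) (hw0 : 0 ≤ w) (hw : w ≤ 0.64) (hw1 : X ≤ 2 * 0.1286 → 0.337 ≤ w)
    (hX : 0 ≤ X) :
    w * max (-c) 0 ≤ w * ((0.565 * T + 0.0035) * max (1 - s - c) 0 + 0.0035 * max c 0) +
      0.1216 * (X * (X / 2 - ξ)) := by
  have hT0 : 0 ≤ T := by linarith
  have m2 : 0 ≤ max (1 - s - c) 0 := le_max_right _ _
  have m2' : 1 - s - c ≤ max (1 - s - c) 0 := le_max_left _ _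
  have m3 : 0 ≤ max c 0 := le_max_right _ _
  have hP2 : -(X * (X / 2 - ξ)) ≤ ξ ^ 2 / 2 := by
    have := sq_nonneg (X - ξ)
    linarith
  have hneg : X * (X / 2 - ξ) < 0 → X / 2 < ξ := by
    intro hP
    by_contra hcon
    rw [not_lt] at hcon
    exact absurd (mul_nonneg hX (by linarith : 0 ≤ X / 2 - ξ)) (by linarith)
  rcases le_or_gt 0 c with hc | hc
  · rw [max_eq_right (by linarith : -c ≤ 0), mul_zero, max_eq_left hc]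
    rcases le_or_gt 0 (X * (X / 2 - ξ)) with hP | hP
    · have : 0 ≤ w * ((0.565 * T + 0.0035) * max (1 - s - c) 0 + 0.0035 * c) := by positivity
      linarith
    · have hξX := hneg hP
      have hξ0 : 0 ≤ ξ := by linarith
      obtain ⟨k1, k2⟩ := caseE g2 g3 r32 r21 r31 X2 X3 hu Q1 pl3 h0 h1 h2 h3 hT hT1 hX hc hξ0
      exact finE hw1 k1 hξX m2 hc hT0 hP2 k2
  · rw [max_eq_left (by linarith : 0 ≤ -c), max_eq_right hc.le, mul_zero, add_zero]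
    obtain ⟨d1, d2, d3, d4, d5⟩ := caseD g2 g3 pl2 hc.le r23 r20 r21 Q0 h0 h1 h2 h3 hT
    rcases le_or_gt 0 (X * (X / 2 - ξ)) with hP | hP
    · have k1 := regA hT0 hT1 hX plx (by linarith : 0 ≤ -c) d1 d2 d3 d5
      have e1 : 1 - s + -c = 1 - s - c := by ring
      have e2 : X / 2 + -ξ = X / 2 - ξ := by ring
      rw [e1, e2] at k1
      exact finP hw0 hw hP m2' m2 hT0 k1
    · have hξX := hneg hP
      have hξ0 : 0 ≤ ξ := by linarith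
      have k1 := finD hX hw1 hT0 hT1 hξ0 hξX d4 d1 d2 hP2
      have k2 : 0 ≤ w * (0.565 * T * (max (1 - s - c) 0 - (1 - s - c))) :=
        mul_nonneg hw0 (mul_nonneg (by positivity) (by linarith))
      have k3 : 0 ≤ w * (0.0035 * max (1 - s - c) 0) := by positivity
      have e1 : w * (0.565 * T * (1 - s + -c) - -c) = w * (0.565 * T * (1 - s - c)) -
          w * (-c) := by ring
      rw [e1] at k1
      linarith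

/-- **the pointwise bound**, `x` on the side of `a 0` -/
theorem pwX {x0 x1 x2 x3 q0 q1 q2 q3 S0 S1 S2 S3 T w : ℝ}
    (sx : x0 + x1 + x2 + x3 = 1) (sq : q0 + q1 + q2 + q3 = 1)
    (hd : x0 ^ 2 + x1 ^ 2 + x2 ^ 2 + x3 ^ 2 + (q0 ^ 2 + q1 ^ 2 + q2 ^ 2 + q3 ^ 2) -
      2 * (x0 * q0 + x1 * q1 + x2 * q2 + x3 * q3) = 2)
    (hx2 : x2 ≤ 0) (hx3 : x3 ≤ 0)
    (X2 : 1 / 2 * (x0 ^ 2 + x1 ^ 2 + x2 ^ 2 + x3 ^ 2) - x2 - 1 / 2 ≤ S2)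
    (X3 : 1 / 2 * (x0 ^ 2 + x1 ^ 2 + x2 ^ 2 + x3 ^ 2) - x3 - 1 / 2 ≤ S3)
    (Q0 : 1 / 2 * (q0 ^ 2 + q1 ^ 2 + q2 ^ 2 + q3 ^ 2) - q0 - 1 / 2 ≤ S0)
    (Q1 : 1 / 2 * (q0 ^ 2 + q1 ^ 2 + q2 ^ 2 + q3 ^ 2) - q1 - 1 / 2 ≤ S1)
    (Q2 : 1 / 2 * (q0 ^ 2 + q1 ^ 2 + q2 ^ 2 + q3 ^ 2) - q2 - 1 / 2 ≤ S2)
    (Q3 : 1 / 2 * (q0 ^ 2 + q1 ^ 2 + q2 ^ 2 + q3 ^ 2) - q3 - 1 / 2 ≤ S3)
    (plx : x0 - x1 ≤ 1) (pl2 : q2 - q3 ≤ 1) (pl3 : q3 - q2 ≤ 1)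
    (h0 : 0 ≤ S0) (h1 : 0 ≤ S1) (h2 : 0 ≤ S2) (h3 : 0 ≤ S3) (hT : S0 + S1 + S2 + S3 ≤ T)
    (hT1 : T ≤ 0.0604) (hw0 : 0 ≤ w) (hw : w ≤ 0.64)
    (hw1 : x0 - x1 ≤ 2 * 0.1286 → -x2 + -x3 ≤ 1 / 4 → 0.337 ≤ w)
    (hX : 0 ≤ x0 - x1) :
    w * max (-q3) 0 ≤ w * ((0.565 * T + 0.0035) * max q2 0 + 0.0035 * max q3 0) +
      0.1216 * ((x0 - x1) * ((x0 - x1) / 2 - (q0 - q1) / 2)) := by
  have hu : -x2 + -x3 ≤ 1 / 4 := by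
    have e1 : x0 ^ 2 + x1 ^ 2 = ((1 - x2 - x3) ^ 2 + (x0 - x1) ^ 2) / 2 := by
      have : x0 = 1 - x1 - x2 - x3 := by linarith
      rw [this]; ring
    have e2 : (x2 + x3) ^ 2 / 2 ≤ x2 ^ 2 + x3 ^ 2 := by
      have := sq_nonneg (x2 - x3)
      linarith
    have e3 := sq_nonneg (x0 - x1)
    have e4 : (1 + (-x2 + -x3)) ^ 2 / 4 + (x2 + x3) ^ 2 / 4 + (-x2 + -x3) / 2 - 1 / 2 ≤
        0.0302 := by
      have e5 : (1 - x2 - x3) ^ 2 = (1 + (-x2 + -x3)) ^ 2 := by ring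
      rw [e5] at e1
      linarith
    have e6 : (-x2 + -x3) + (-x2 + -x3) ^ 2 / 2 ≤ 0.2802 := by linarith
    by_contra hcon
    rw [not_le] at hcon
    have e7 := sqB (by norm_num : (0 : ℝ) ≤ 1 / 4) hcon.le
    norm_num at e7
    linarith
  have ei : ipr (x0 - x1) ((q0 - q1) / 2) (q0 + q1) (-x2) (-x3) q3 =
      x0 * q0 + x1 * q1 + x2 * q2 + x3 * q3 := by
    have k1 : x0 = 1 - x1 - x2 - x3 := by linarith
    have k2 : q2 = 1 - q0 - q1 - q3 := by linarith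
    unfold ipr
    rw [k1, k2]
    ring
  have en : nmr ((q0 - q1) / 2) (q0 + q1) q3 = (q0 ^ 2 + q1 ^ 2 + q2 ^ 2 + q3 ^ 2) / 2 := by
    have k2 : q2 = 1 - q0 - q1 - q3 := by linarith
    unfold nmr
    rw [k2]
    ring
  have e2 : 1 - (q0 + q1) - q3 = q2 := by linarith
  have main := pwR (X := x0 - x1) (ξ := (q0 - q1) / 2) (s := q0 + q1) (p2 := -x2) (p3 := -x3)
    (c := q3) (S0 := S0) (S1 := S1) (S2 := S2) (S3 := S3) (T := T) (w := w) (by linarith)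
    (by linarith) (by rw [ei]; linarith) (by rw [ei]; linarith) (by rw [ei]; linarith)
    (by rw [ei]; linarith) (by rw [ei]; linarith) (by rw [ei, en]; linarith)
    (by rw [ei, en]; linarith) hu (by rw [en]; linarith) (by rw [en]; linarith) plx
    (by linarith) (by linarith) h0 h1 h2 h3 hT hT1 hw0 hw (fun h => hw1 h hu) hX
  rw [e2] at main
  exact main

end Helper41.ArcP
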