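import Pool.Agent.Helper41.MEI.ArcP
import Pool.Agent.Helper41.MEI.ArcS

/-!
# Project MEI (M2): the pointwise bound of `ArcP` in barycentric coordinates
-/

set_option autoImplicit false

namespace Helper41.ArcT

open Set MeasureTheory Filter Topology Metric
open Helper80.CW Helper14.CW Helper14.MEI2 Helper93.MEI
open scoped RealInnerProductSpace Real

section
variable {a : Fin 4 → E3}

theorem wt_eq (i : Bool) (x : E3) : Helper37.MEI.wt a i x =
    (1 / 2 + (if i then -(7 * eX a x / 16) else 7 * eX a x / 16)) /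
      (1 + eX a x ^ 2 / 2 + 4 * eY a x ^ 2 + 4 * eW a x ^ 2) := by
  rw [Helper41.MEI.wt_wn]
  unfold Helper41.MEI.wn Pool.Agent.Helper8.MEI.DD
  congr 1
  ring

theorem wt_up (h : Gram4 (al a)) (i : Bool) {x : E3} (hx : Pl a x) :
    Helper37.MEI.wt a i x ≤ 0.64 := by
  obtain ⟨_, h1, _⟩ := pl_e h hx
  obtain ⟨k1, k2⟩ := abs_le.1 h1
  have h2 : 0 ≤ 4 * eY a x ^ 2 + 4 * eW a x ^ 2 := by positivity
  rw [wt_eq, div_le_iff₀ (by positivity)]
  have h3 : 1 / 2 + (if i then -(7 * eX a x / 16) else 7 * eX a x / 16) ≤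
      1 / 2 + 7 / 16 * |eX a x| := by
    have := neg_abs_le (eX a x)
    have := le_abs_self (eX a x)
    split_ifs <;> linarith
  have h4 := sq_abs (eX a x)
  have h5 := abs_nonneg (eX a x)
  rw [← h4]
  nlinarith [mul_nonneg h5 (sub_nonneg.2 h1), sq_nonneg (|eX a x| - 1 / 2)]

theorem wt_lo (h : Gram4 (al a)) (i : Bool) {x : E3} (hX : |bar a 0 x - bar a 1 x| ≤ 2 * 0.1286)
    (h2 : bar a 2 x ≤ 0) (h3 : bar a 3 x ≤ 0) (hu : -bar a 2 x + -bar a 3 x ≤ 1 / 4) :
    0.337 ≤ Helper37.MEI.wt a i x := by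
  have hs := bar_sum h x
  have eX2 : |eX a x| ≤ 0.1286 := by
    unfold eX
    rw [abs_div, abs_of_pos (by norm_num : (0 : ℝ) < 2)]
    linarith
  have eY2 : 4 * eY a x ^ 2 = (bar a 2 x - bar a 3 x) ^ 2 := by unfold eY; ring
  have eW2 : 4 * eW a x ^ 2 = 2 * (bar a 2 x + bar a 3 x) ^ 2 := by
    unfold eW
    have := s2s
    linear_combination (bar a 2 x + bar a 3 x) ^ 2 * this
  have h4 := sq_abs (eX a x)
  have h5 := abs_nonneg (eX a x)
  have h6 : |eX a x| ^ 2 ≤ 0.1286 ^ 2 := Helper41.ArcP.sqB h5 eX2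
  have h7 : (bar a 2 x + bar a 3 x) ^ 2 ≤ (1 / 4) ^ 2 := by
    have e : (bar a 2 x + bar a 3 x) ^ 2 = (-bar a 2 x + -bar a 3 x) ^ 2 := by ring
    rw [e]
    exact Helper41.ArcP.sqB (by linarith) hu
  have h8 : (bar a 2 x - bar a 3 x) ^ 2 ≤ (bar a 2 x + bar a 3 x) ^ 2 := by
    have := mul_nonneg_of_nonpos_of_nonpos h2 h3
    linarith
  rw [wt_eq, le_div_iff₀ (by positivity), eY2, eW2, ← h4]
  have h9 : 1 / 2 - 7 / 16 * |eX a x| ≤
      1 / 2 + (if i then -(7 * eX a x / 16) else 7 * eX a x / 16) := by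
    have := neg_abs_le (eX a x)
    have := le_abs_self (eX a x)
    split_ifs <;> linarith
  norm_num at h6 h7
  linarith

/-- **the pointwise bound**: `k` the end beyond which the opposite point lies, `k'` the other -/
theorem pw_bar (h : Gram4 (al a)) {x q : E3} (hx : Pl a x) (hq : Pl a q) (hxq : ‖x - q‖ = 1)
    (h2 : bar a 2 x ≤ 0) (h3 : bar a 3 x ≤ 0) {S : Fin 4 → ℝ} (hS0 : ∀ i, 0 ≤ S i)
    (hQx : ∀ i, Qv a i x ≤ S i) (hQq : ∀ i, Qv a i q ≤ S i) {T : ℝ}
    (hT : S 0 + S 1 + S 2 + S 3 ≤ T) (hT1 : T ≤ 0.0604) (i : Bool) {k k' : Fin 4}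
    (hk : k = 2 ∧ k' = 3 ∨ k = 3 ∧ k' = 2) :
    Helper37.MEI.wt a i x * max (-bar a k q) 0 ≤
      Helper37.MEI.wt a i x * ((0.565 * T + 0.0035) * max (bar a k' q) 0 +
        0.0035 * max (bar a k q) 0) + 0.2432 * (eX a x * (eX a x - eX a q)) := by
  have sx := bar_sum h x
  have sq := bar_sum h q
  have hd := norm_sub_sq_bar h x q
  rw [hxq] at hd
  have hw0 := Helper37.MEI.wt_nonneg h i hx
  have hw := wt_up h i hx
  have x2 := hQx 2
  have x3 := hQx 3
  have q0 := hQq 0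
  have q1 := hQq 1
  have q2 := hQq 2
  have q3 := hQq 3
  rw [Qv_eq h] at x2 x3 q0 q1 q2 q3
  have px := (pl_iff h).1 hx
  have pq := (pl_iff h).1 hq
  have px01 := px 0 1 (by decide)
  have px10 := px 1 0 (by decide)
  have pq23 := pq 2 3 (by decide)
  have pq32 := pq 3 2 (by decide)
  have wl := fun hX hu => wt_lo (x := x) h i hX h2 h3 hu
  set w := Helper37.MEI.wt a i x
  have s0 := hS0 0
  have s1 := hS0 1
  have s2 := hS0 2
  have s3 := hS0 3
  have eP : ∀ P : ℝ, P = (bar a 0 x - bar a 1 x) *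
      ((bar a 0 x - bar a 1 x) / 2 - (bar a 0 q - bar a 1 q) / 2) →
      0.1216 * P = 0.2432 * (eX a x * (eX a x - eX a q)) := by
    intro P hP
    rw [hP]
    unfold eX
    ring
  rcases le_total 0 (bar a 0 x - bar a 1 x) with hX | hX
  · have hwl : bar a 0 x - bar a 1 x ≤ 2 * 0.1286 → -bar a 2 x + -bar a 3 x ≤ 1 / 4 →
        0.337 ≤ w := fun k1 k2 => wl (by rw [abs_of_nonneg hX]; exact k1) k2
    rcases hk with ⟨e1, e2⟩ | ⟨e1, e2⟩
    · rw [e1, e2]
      have := Helper41.ArcP.pwX (x0 := bar a 0 x) (x1 := bar a 1 x) (x2 := bar a 3 x)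
        (x3 := bar a 2 x) (q0 := bar a 0 q) (q1 := bar a 1 q) (q2 := bar a 3 q)
        (q3 := bar a 2 q) (S0 := S 0) (S1 := S 1) (S2 := S 3) (S3 := S 2) (T := T) (w := w)
        (by linarith) (by linarith) (by linarith) h3 h2 (by linarith) (by linarith)
        (by linarith) (by linarith) (by linarith) (by linarith) px01 pq32 pq23 s0 s1 s3 s2
        (by linarith) hT1 hw0 hw (fun k1 k2 => hwl k1 (by linarith)) hX
      rw [eP _ rfl] at this
      exact this
    · rw [e1, e2]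
      have := Helper41.ArcP.pwX (x0 := bar a 0 x) (x1 := bar a 1 x) (x2 := bar a 2 x)
        (x3 := bar a 3 x) (q0 := bar a 0 q) (q1 := bar a 1 q) (q2 := bar a 2 q)
        (q3 := bar a 3 q) (S0 := S 0) (S1 := S 1) (S2 := S 2) (S3 := S 3) (T := T) (w := w)
        (by linarith) (by linarith) (by linarith) h2 h3 (by linarith) (by linarith)
        (by linarith) (by linarith) (by linarith) (by linarith) px01 pq23 pq32 s0 s1 s2 s3
        (by linarith) hT1 hw0 hw hwl hX
      rw [eP _ rfl] at this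
      exact this
  · have hX' : 0 ≤ bar a 1 x - bar a 0 x := by linarith
    have hwl : bar a 1 x - bar a 0 x ≤ 2 * 0.1286 → -bar a 2 x + -bar a 3 x ≤ 1 / 4 →
        0.337 ≤ w := fun k1 k2 => wl (by rw [abs_of_nonpos hX, neg_sub]; exact k1) k2
    rcases hk with ⟨e1, e2⟩ | ⟨e1, e2⟩
    · rw [e1, e2]
      have := Helper41.ArcP.pwX (x0 := bar a 1 x) (x1 := bar a 0 x) (x2 := bar a 3 x)
        (x3 := bar a 2 x) (q0 := bar a 1 q) (q1 := bar a 0 q) (q2 := bar a 3 q)
        (q3 := bar a 2 q) (S0 := S 1) (S1 := S 0) (S2 := S 3) (S3 := S 2) (T := T) (w := w)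
        (by linarith) (by linarith) (by linarith) h3 h2 (by linarith) (by linarith)
        (by linarith) (by linarith) (by linarith) (by linarith) px10 pq32 pq23 s1 s0 s3 s2
        (by linarith) hT1 hw0 hw (fun k1 k2 => hwl k1 (by linarith)) hX'
      rw [eP _ (by ring)] at this
      exact this
    · rw [e1, e2]
      have := Helper41.ArcP.pwX (x0 := bar a 1 x) (x1 := bar a 0 x) (x2 := bar a 2 x)
        (x3 := bar a 3 x) (q0 := bar a 1 q) (q1 := bar a 0 q) (q2 := bar a 2 q)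
        (q3 := bar a 3 q) (S0 := S 1) (S1 := S 0) (S2 := S 2) (S3 := S 3) (T := T) (w := w)
        (by linarith) (by linarith) (by linarith) h2 h3 (by linarith) (by linarith)
        (by linarith) (by linarith) (by linarith) (by linarith) px10 pq23 pq32 s1 s0 s2 s3
        (by linarith) hT1 hw0 hw hwl hX'
      rw [eP _ (by ring)] at this
      exact this

end

end Helper41.ArcT
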