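import Pool.Agent.Helper41.MEI.ArcQ
import Pool.Agent.Helper53.MEI.Mom3
import Pool.Agent.Helper72.MEI.EdgeVol

/-!
# Project MEI (M2): positive parts of the first moments of an arc

The flux of `x_X e_X` through the cell has no wall terms; with the pointwise bound of `ArcP` it
controls the part of the opposite points beyond the far end of the opposite edge.
-/

set_option autoImplicit false

namespace Helper41.ArcT

open Set MeasureTheory Filter Topology Metric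
open Helper80.CW Helper22.Wedge Helper22.Sig Helper14.CW Helper14.MEI2 Helper93.MEI
open Helper22.MEI (s t FD FD_pos E1 E2 E3 E3_of)
open Helper21.Sec Helper21.Mom
open Pool.Agent.Helper95.MEI.Fub (Zp int_cont co_e Zp_meas)
open Pool.Agent.Helper73.MEI
open Pool.Agent.Helper95.MEI.Cst (AsE vol_AsE)
open scoped RealInnerProductSpace ContDiff Real

variable (b : OrthonormalBasis (Fin 3) ℝ E3) (c : E3)

theorem nuw_b0 (j : Fin 2) : ⟪nuw b j, b 0⟫ = 0 := by
  obtain ⟨⟨i00, i01, i02⟩, ⟨i10, i11, i12⟩, ⟨i20, i21, i22⟩⟩ := ibv b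
  unfold nuw
  fin_cases j
  · show ⟪(√2 / 2) • b 2 - b 1, b 0⟫ = 0
    rw [inner_sub_left, real_inner_smul_left, i20, i10]; ring
  · show ⟪(√2 / 2) • b 2 + b 1, b 0⟫ = 0
    rw [inner_add_left, real_inner_smul_left, i20, i10]; ring

theorem fd_X (x : E3) : fderiv ℝ (fun y => (co b c y).1) x (b 0) = 1 := by
  obtain ⟨⟨i00, i01, i02⟩, ⟨i10, i11, i12⟩, ⟨i20, i21, i22⟩⟩ := ibv b
  have e : (fun y => (co b c y).1) = fun y => ⟪b 0, y⟫ - ⟪b 0, c⟫ := by
    funext y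
    show ⟪b 0, y - c⟫ = _
    rw [inner_sub_right]
  rw [e]
  have h : HasFDerivAt (fun y : E3 => ⟪b 0, y⟫ - ⟪b 0, c⟫) (innerSL ℝ (b 0)) x :=
    ((innerSL ℝ (b 0)).hasFDerivAt).sub_const _
  rw [h.fderiv]
  exact i00

/-- **the flux without walls** -/
theorem fluxX {σ : Measure (E3 × E3)} [IsFiniteMeasure σ] {K : Set E3} (hK : IsCompact K)
    (hσ : ∀ᵐ z ∂σ, z.1 ∈ K ∧ z.2 ∈ K)
    (hU : ∀ G : E3 → E3, ContDiff ℝ ∞ G → ∫ z, ⟪G z.1, z.1 - z.2⟫ ∂σ = ∫ x in K, dvg G x) :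
    ∫ z in {z : E3 × E3 | z.1 ∈ EC b c}, (co b c z.1).1 * ⟪b 0, z.1 - z.2⟫ ∂σ =
      volume.real (K ∩ EC b c) := by
  have hg : ContDiff ℝ ∞ (fun y => (co b c y).1) := contDiff_fst.comp (co_cdn b c)
  have h := Helper53.MEI.fluxg_lim b c hK hσ hU hg (b 0)
  rw [cel_eq, nuw_b0, nuw_b0] at h
  simp only [zero_mul, add_zero, fd_X] at h
  have h1 := tendsto_nhds_unique h tendsto_const_nhds
  rw [setIntegral_const, smul_eq_mul, mul_one] at h1
  linarith

/-- volume of the part of the body in the cell -/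
theorem vol_cell {a : Fin 4 → E3} (ha : ∀ i j, i ≠ j → dist (a i) (a j) = 1)
    {b : OrthonormalBasis (Fin 3) ℝ E3} (hb : Fr a b) {K : Set E3} (hK : IsCompact K)
    (hX : ∀ q ∈ K, |eX a q| ≤ 1 / 2) {s2 s3 : ℝ} (hs2 : 0 ≤ s2) (hs3 : 0 ≤ s3)
    (h2 : ∀ q ∈ K, Qv a 2 q ≤ s2) (h3 : ∀ q ∈ K, Qv a 3 q ≤ s3) :
    volume.real (K ∩ EC b (cen a)) ≤ 0.006778 + (0.0393 + 0.2358 * s2) * s2 +
      (0.0393 + 0.2358 * s3) * s3 := by
  have h1 := Helper72.MEI.beta_gen ha hb hX hs2 hs3 h2 h3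
  have h4 : volume.real (AsE b (cen a)) = Pool.Agent.Helper95.MEI.Cst.vAs := by
    rw [Measure.real, vol_AsE, ENNReal.toReal_ofReal Pool.Agent.Helper95.MEI.Cst.vAs_nonneg]
  have h5 := Pool.Agent.Helper95.MEI.Cst.vAs_bd.2
  have hfA : volume (AsE b (cen a)) ≠ ⊤ := by
    rw [vol_AsE]
    exact ENNReal.ofReal_ne_top
  have hfK : volume ((K ∩ EC b (cen a)) \ AsE b (cen a)) ≠ ⊤ :=
    (lt_of_le_of_lt (measure_mono fun x hx => hx.1.1) hK.measure_lt_top).ne
  have h6 : volume.real (K ∩ EC b (cen a)) ≤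
      volume.real (AsE b (cen a)) + volume.real ((K ∩ EC b (cen a)) \ AsE b (cen a)) := by
    have h7 : K ∩ EC b (cen a) ⊆ AsE b (cen a) ∪ ((K ∩ EC b (cen a)) \ AsE b (cen a)) := by
      intro x hx
      by_cases h : x ∈ AsE b (cen a)
      · exact Or.inl h
      · exact Or.inr ⟨hx, h⟩
    refine (measureReal_mono h7 ?_).trans (measureReal_union_le _ _)
    exact (measure_union_lt_top hfA.lt_top hfK.lt_top).ne
  linarith

/-! ### the moments -/

section main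
variable {a : Fin 4 → E3} (ha : ∀ i j, i ≠ j → dist (a i) (a j) = 1)
  {K : Set E3} {σ : Measure (E3 × E3)} [IsFiniteMeasure σ] (h : PM K σ)
  (hpl : ∀ x ∈ K, Pl a x) {b : OrthonormalBasis (Fin 3) ℝ E3} (hb : Fr a b)
  {S : Fin 4 → ℝ} (hQ : ∀ x ∈ K, ∀ i, Qv a i x ≤ S i) (hS0 : ∀ i, 0 ≤ S i)
  (hT : S 0 + S 1 + S 2 + S 3 ≤ 0.0604)

omit ha h hpl hb hQ hS0 hT in
theorem int3 {μ : Measure (E3 × E3)} {f g k : E3 × E3 → ℝ} (hf : Integrable f μ)
    (hg : Integrable g μ) (hk : Integrable k μ) (u v w : ℝ) :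
    ∫ z, (u * f z + (v * g z + w * k z)) ∂μ = u * (∫ z, f z ∂μ) + (v * (∫ z, g z ∂μ) +
      w * ∫ z, k z ∂μ) := by
  have h1 : ∫ z, (v * g z + w * k z) ∂μ = v * (∫ z, g z ∂μ) + w * ∫ z, k z ∂μ := by
    rw [integral_add (hg.const_mul v) (hk.const_mul w), integral_const_mul, integral_const_mul]
  have h2 : Integrable (fun z => v * g z + w * k z) μ := (hg.const_mul v).add (hk.const_mul w)
  rw [integral_add (hf.const_mul u) h2, h1, integral_const_mul]

/-- the sum of the levels -/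
def sS (S : Fin 4 → ℝ) : ℝ := S 0 + S 1 + S 2 + S 3

include ha h hb hQ hS0 hpl in
/-- the flux along the edge -/
theorem fluxE : ∫ z in Zp a 2 3, eX a z.1 * (eX a z.1 - eX a z.2) ∂σ ≤
    0.006778 + (0.0393 + 0.2358 * S 2) * S 2 + (0.0393 + 0.2358 * S 3) * S 3 := by
  have hG := gram_of_dist ha
  have h1 := fluxX b (cen a) h.cpt h.mem h.flux
  rw [← Helper21.Alp.Zp_eq ha hb] at h1
  have e1 : ∀ z : E3 × E3, (co b (cen a) z.1).1 * ⟪b 0, z.1 - z.2⟫ =
      eX a z.1 * (eX a z.1 - eX a z.2) := by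
    intro z
    have f1 := (frame_e hG hb.1 hb.2.1 hb.2.2 z.1).1
    have f2 := (frame_e hG hb.1 hb.2.1 hb.2.2 z.2).1
    have f3 : (co b (cen a) z.1).1 = ⟪b 0, z.1 - cen a⟫ := rfl
    have f4 : ⟪b 0, z.1 - z.2⟫ = ⟪b 0, z.1 - cen a⟫ - ⟪b 0, z.2 - cen a⟫ := by
      rw [← inner_sub_right]
      congr 1
      abel
    rw [f3, f4, f1, f2]
  simp only [e1] at h1
  rw [h1]
  exact vol_cell ha hb h.cpt (fun q hq => (pl_e hG (hpl q hq)).2.1) (hS0 2) (hS0 3)
    (fun q hq => hQ q hq 2) (fun q hq => hQ q hq 3)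

include ha h hb hQ hS0 hpl hT in
/-- the negative part of a moment -/
theorem neg_part (i : Bool) {k k' : Fin 4} (hk : k = 2 ∧ k' = 3 ∨ k = 3 ∧ k' = 2) :
    ∫ z in Zp a 2 3, Helper37.MEI.wt a i z.1 * max (-bar a k z.2) 0 ∂σ ≤
      (0.565 * sS S + 0.0035) *
        (∫ z in Zp a 2 3, Helper37.MEI.wt a i z.1 * max (bar a k' z.2) 0 ∂σ) +
      0.0035 * (∫ z in Zp a 2 3, Helper37.MEI.wt a i z.1 * max (bar a k z.2) 0 ∂σ) +
      0.2432 * (0.006778 + (0.0393 + 0.2358 * S 2) * S 2 + (0.0393 + 0.2358 * S 3) * S 3) := by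
  have hG := gram_of_dist ha
  have hwc := Helper37.MEI.wt_cont a i
  have hbc := fun k => Pool.Agent.Helper95.MEI.Fub.bar_cont a k
  have hXc := Pool.Agent.Helper95.MEI.Fub.eX_cont a
  have i1 : ∀ k, Integrable (fun z : E3 × E3 => Helper37.MEI.wt a i z.1 *
      max (bar a k z.2) 0) σ := fun k => int_cont h.cpt h.mem
    ((hwc.comp continuous_fst).mul (((hbc k).comp continuous_snd).max continuous_const))
  have i2 : Integrable (fun z : E3 × E3 => Helper37.MEI.wt a i z.1 *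
      max (-bar a k z.2) 0) σ := int_cont h.cpt h.mem
    ((hwc.comp continuous_fst).mul (((hbc k).comp continuous_snd).neg.max continuous_const))
  have i3 : Integrable (fun z : E3 × E3 => eX a z.1 * (eX a z.1 - eX a z.2)) σ :=
    int_cont h.cpt h.mem ((hXc.comp continuous_fst).mul
      ((hXc.comp continuous_fst).sub (hXc.comp continuous_snd)))
  have h1 := fluxE ha h hpl hb hQ hS0
  have h2 : ∫ z in Zp a 2 3, Helper37.MEI.wt a i z.1 * max (-bar a k z.2) 0 ∂σ ≤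
      ∫ z in Zp a 2 3, ((0.565 * sS S + 0.0035) * (Helper37.MEI.wt a i z.1 *
        max (bar a k' z.2) 0) + (0.0035 * (Helper37.MEI.wt a i z.1 * max (bar a k z.2) 0) +
          0.2432 * (eX a z.1 * (eX a z.1 - eX a z.2)))) ∂σ := by
    refine integral_mono_ae i2.integrableOn (((i1 k').integrableOn.const_mul _).add
      (((i1 k).integrableOn.const_mul _).add (i3.integrableOn.const_mul _))) ?_
    filter_upwards [ae_restrict_mem (Zp_meas a 2 3), ae_restrict_of_ae (s := Zp a 2 3) h.ae]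
      with z hz hm
    have h3 := pw_bar hG (hpl _ hm.1) (hpl _ hm.2.1) hm.2.2.1 hz.1.le hz.2.le hS0
      (hQ _ hm.1) (hQ _ hm.2.1) (T := sS S) le_rfl hT i hk
    linarith
  have h4 := int3 (μ := σ.restrict (Zp a 2 3)) (i1 k').integrableOn (i1 k).integrableOn
    i3.integrableOn (0.565 * sS S + 0.0035) 0.0035 0.2432
  rw [h4] at h2
  linarith

/-- the algebra of the last step -/
theorem alg {a d v P2 P3 N2 N3 B2 B3 : ℝ} (ha : 0 ≤ a) (hd : 0 ≤ d) (hv : 0 ≤ v)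
    (e2 : P2 - N2 ≤ B2) (e3 : P3 - N3 ≤ B3) (n2 : 0 ≤ N2)
    (h2 : N2 ≤ a * P3 + d * P2 + v) (h3 : N3 ≤ a * P2 + d * P3 + v) {Bm : ℝ} (b2 : B2 ≤ Bm)
    (b3 : B3 ≤ Bm) (hBm : 0 ≤ Bm) (had : a + d ≤ 0.0412) :
    P3 ≤ B3 + (a * B2 + d * B3 + v) + (a + d) * (1.043 * ((a + d) * Bm + v)) := by
  have k1 := mul_le_mul_of_nonneg_left e2 ha
  have k2 := mul_le_mul_of_nonneg_left e3 ha
  have k3 := mul_le_mul_of_nonneg_left e2 hd
  have k4 := mul_le_mul_of_nonneg_left e3 hd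
  have l1 := mul_le_mul_of_nonneg_left b2 ha
  have l2 := mul_le_mul_of_nonneg_left b3 ha
  have l3 := mul_le_mul_of_nonneg_left b2 hd
  have l4 := mul_le_mul_of_nonneg_left b3 hd
  have hC : 0 ≤ (a + d) * Bm + v := by positivity
  -- the larger of the two negative parts
  have key : ∀ N, N = max N2 N3 → N ≤ 1.043 * ((a + d) * Bm + v) := by
    intro N hN
    have m2 : N2 ≤ N := by rw [hN]; exact le_max_left _ _
    have m3 : N3 ≤ N := by rw [hN]; exact le_max_right _ _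
    have N0 : 0 ≤ N := n2.trans m2
    have q1 := mul_le_mul_of_nonneg_left m2 ha
    have q2 := mul_le_mul_of_nonneg_left m3 ha
    have q3 := mul_le_mul_of_nonneg_left m2 hd
    have q4 := mul_le_mul_of_nonneg_left m3 hd
    have q5 := mul_le_mul_of_nonneg_right had N0
    have hN' : N ≤ (a + d) * Bm + v + (a + d) * N := by
      rw [hN]
      rw [hN] at q1 q2 q3 q4
      refine max_le ?_ ?_ <;> linarith
    linarith
  have hk := key _ rfl
  have m2 : N2 ≤ max N2 N3 := le_max_left _ _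
  have m3 : N3 ≤ max N2 N3 := le_max_right _ _
  have q1 := mul_le_mul_of_nonneg_left (m2.trans hk) ha
  have q4 := mul_le_mul_of_nonneg_left (m3.trans hk) hd
  linarith

include ha h hpl hb hQ hS0 hT in
/-- **the positive parts of the moments**, from the signed bounds -/
theorem ppm_cell (i : Bool) {B2 B3 Bm : ℝ}
    (h2 : ∫ z in Zp a 2 3, Helper37.MEI.wt a i z.1 * bar a 2 z.2 ∂σ ≤ B2)
    (h3 : ∫ z in Zp a 2 3, Helper37.MEI.wt a i z.1 * bar a 3 z.2 ∂σ ≤ B3)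
    (b2 : B2 ≤ Bm) (b3 : B3 ≤ Bm) (hBm : 0 ≤ Bm) :
    ∀ v, v = 0.2432 * (0.006778 + (0.0393 + 0.2358 * S 2) * S 2 +
      (0.0393 + 0.2358 * S 3) * S 3) →
    ∫ z in Zp a 2 3, Helper37.MEI.wt a i z.1 * max (bar a 2 z.2) 0 ∂σ ≤
      B2 + ((0.565 * sS S + 0.0035) * B3 + 0.0035 * B2 + v) +
        (0.565 * sS S + 0.007) * (1.043 * ((0.565 * sS S + 0.007) * Bm + v)) ∧
    ∫ z in Zp a 2 3, Helper37.MEI.wt a i z.1 * max (bar a 3 z.2) 0 ∂σ ≤
      B3 + ((0.565 * sS S + 0.0035) * B2 + 0.0035 * B3 + v) +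
        (0.565 * sS S + 0.007) * (1.043 * ((0.565 * sS S + 0.007) * Bm + v)) := by
  intro v hv
  have hG := gram_of_dist ha
  have hwc := Helper37.MEI.wt_cont a i
  have hbc := fun k => Pool.Agent.Helper95.MEI.Fub.bar_cont a k
  have i1 : ∀ k, Integrable (fun z : E3 × E3 => Helper37.MEI.wt a i z.1 *
      max (bar a k z.2) 0) σ := fun k => int_cont h.cpt h.mem
    ((hwc.comp continuous_fst).mul (((hbc k).comp continuous_snd).max continuous_const))
  have i2 : ∀ k, Integrable (fun z : E3 × E3 => Helper37.MEI.wt a i z.1 *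
      max (-bar a k z.2) 0) σ := fun k => int_cont h.cpt h.mem
    ((hwc.comp continuous_fst).mul (((hbc k).comp continuous_snd).neg.max continuous_const))
  have hsp : ∀ k, (∫ z in Zp a 2 3, Helper37.MEI.wt a i z.1 * max (bar a k z.2) 0 ∂σ) -
      (∫ z in Zp a 2 3, Helper37.MEI.wt a i z.1 * max (-bar a k z.2) 0 ∂σ) =
      ∫ z in Zp a 2 3, Helper37.MEI.wt a i z.1 * bar a k z.2 ∂σ := by
    intro k
    rw [← integral_sub (i1 k).integrableOn (i2 k).integrableOn]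
    congr 1
    funext z
    rcases le_total 0 (bar a k z.2) with h0 | h0
    · rw [max_eq_left h0, max_eq_right (by linarith)]; ring
    · rw [max_eq_right h0, max_eq_left (by linarith)]; ring
  have hnn : ∀ k, 0 ≤ ∫ z in Zp a 2 3, Helper37.MEI.wt a i z.1 * max (-bar a k z.2) 0 ∂σ := by
    intro k
    apply integral_nonneg_of_ae
    filter_upwards [ae_restrict_of_ae (s := Zp a 2 3) h.mem] with z hm
    exact mul_nonneg (Helper37.MEI.wt_nonneg hG i (hpl _ hm.1)) (le_max_right _ _)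
  have n2 := neg_part ha h hpl hb hQ hS0 hT i (k := 2) (k' := 3) (Or.inl ⟨rfl, rfl⟩)
  have n3 := neg_part ha h hpl hb hQ hS0 hT i (k := 3) (k' := 2) (Or.inr ⟨rfl, rfl⟩)
  rw [← hv] at n2 n3
  have s0 := hS0 0
  have s1 := hS0 1
  have s2 := hS0 2
  have s3 := hS0 3
  have hs : 0 ≤ sS S := by unfold sS; linarith
  have hs' : sS S ≤ 0.0604 := hT
  have hv0 : 0 ≤ v := by rw [hv]; positivity
  have a1 := alg (a := 0.565 * sS S + 0.0035) (d := 0.0035) (by positivity) (by norm_num) hv0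
    (by rw [hsp]; exact h2) (by rw [hsp]; exact h3) (hnn 2) n2 n3 b2 b3 hBm
    (by linarith)
  have a2 := alg (a := 0.565 * sS S + 0.0035) (d := 0.0035) (by positivity) (by norm_num) hv0
    (by rw [hsp]; exact h3) (by rw [hsp]; exact h2) (hnn 3) n3 n2 b3 b2 hBm
    (by linarith)
  have e : 0.565 * sS S + 0.0035 + 0.0035 = 0.565 * sS S + 0.007 := by ring
  rw [e] at a1 a2
  exact ⟨a2, a1⟩

end main

/-! ### all cells -/

/-- the numbers -/
theorem num {s2 s3 u v B2 B3 : ℝ} (h2 : 0 ≤ s2) (h3 : 0 ≤ s3) (hu : 0 ≤ u)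
    (hT : u + s2 + s3 ≤ 0.0604) (hB2 : B2 ≤ 0.03578 + 0.328 * s3 + 0.0732 * u)
    (hB3 : B3 ≤ 0.03578 + 0.328 * s2 + 0.0732 * u)
    (hv : v = 0.2432 * (0.006778 + (0.0393 + 0.2358 * s2) * s2 + (0.0393 + 0.2358 * s3) * s3)) :
    B3 + ((0.565 * (u + s2 + s3) + 0.0035) * B2 + 0.0035 * B3 + v) +
        (0.565 * (u + s2 + s3) + 0.007) *
          (1.043 * ((0.565 * (u + s2 + s3) + 0.007) * 0.0556 + v)) ≤
      0.03772 + 0.3652 * s2 + 0.0484 * s3 + 0.0993 * u := by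
  have a2 : s2 * s2 ≤ 0.0604 * s2 := mul_le_mul_of_nonneg_right (by linarith) h2
  have a3 : s3 * s3 ≤ 0.0604 * s3 := mul_le_mul_of_nonneg_right (by linarith) h3
  have hv1 : v ≤ 0.00165 + 0.01303 * (s2 + s3) := by
    rw [hv]; linarith
  have hv2 : v ≤ 0.00244 := by linarith
  set G := u + s2 + s3 with hS
  have hS0 : 0 ≤ G := by linarith
  have b1 : (0.565 * G + 0.0035) * B2 ≤
      (0.565 * G + 0.0035) * (0.03578 + 0.328 * s3 + 0.0732 * u) :=
    mul_le_mul_of_nonneg_left hB2 (by linarith)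
  have b2 : G * s3 ≤ 0.0604 * s3 := mul_le_mul_of_nonneg_right hT h3
  have b3 : G * u ≤ 0.0604 * u := mul_le_mul_of_nonneg_right hT hu
  have b4 : (0.565 * G + 0.007) * 0.0556 + v ≤ 0.004733 := by linarith
  have b5 : (0.565 * G + 0.007) * (1.043 * ((0.565 * G + 0.007) * 0.0556 + v)) ≤
      (0.565 * G + 0.007) * (1.043 * 0.004733) :=
    mul_le_mul_of_nonneg_left (by linarith) (by linarith)
  have b6 : (0.565 * G + 0.0035) * (0.03578 + 0.328 * s3 + 0.0732 * u) =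
      0.565 * 0.03578 * G + 0.565 * 0.328 * (G * s3) + 0.565 * 0.0732 * (G * u) +
      0.0035 * (0.03578 + 0.328 * s3 + 0.0732 * u) := by ring
  rw [b6] at b1
  linarith

section six
variable {a : Fin 4 → E3} {K : Set E3} {σ : Measure (E3 × E3)}

theorem sS_pf (S : Fin 4 → ℝ) (m : Fin 3) (e : Bool) :
    S (pf m e 0) + S (pf m e 1) + S (pf m e 2) + S (pf m e 3) = sS S := by
  have h := Equiv.sum_comp (pr m e) S
  rw [Fin.sum_univ_four, Fin.sum_univ_four] at h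
  exact h

/-- **the positive parts of the moments of the full weight**, all levels small -/
theorem ppm_all [IsFiniteMeasure σ] (h : PM K σ) (ha : ∀ i j, i ≠ j → dist (a i) (a j) = 1)
    (hull : ∀ p, (∀ q ∈ K, ‖p - q‖ ≤ 1) → p ∈ K) (hp : ∀ x ∈ K, Pl a x)
    {B : Fin 3 → Bool → OrthonormalBasis (Fin 3) ℝ E3}
    (hB : ∀ m e, Fr (fun i => a (pr m e i)) (B m e)) {S : Fin 4 → ℝ} (hS0 : ∀ i, 0 ≤ S i)
    (hQ : ∀ i, ∀ q ∈ K, Qv a i q ≤ S i) (hT : sS S ≤ 0.0604)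
    (m : Fin 3) (e i : Bool) {k k' : Fin 4} (hk : k = 2 ∧ k' = 3 ∨ k = 3 ∧ k' = 2) :
    ∫ z in Helper37.MEI.EE a m e, Helper37.MEI.wt (Helper37.MEI.ap a m e) i z.1 *
      max (bar a (pf m e k) z.2) 0 ∂σ ≤
      0.03772 + 0.3652 * S (pf m e k') + 0.0484 * S (pf m e k) +
        0.0993 * (S (pf m e 0) + S (pf m e 1)) := by
  have ha' := Helper37.MEI.hap ha m e
  have hb : Fr (Helper37.MEI.ap a m e) (B m e) := hB m e
  have hp' : ∀ x ∈ K, Pl (Helper37.MEI.ap a m e) x := fun x hx => Pl_perm _ (hp x hx)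
  have hQ' : ∀ x ∈ K, ∀ j, Qv (Helper37.MEI.ap a m e) j x ≤ S (pf m e j) :=
    fun x hx j => hQ (pf m e j) x hx
  have hS' : ∀ j, 0 ≤ S (pf m e j) := fun j => hS0 _
  have hsum := sS_pf S m e
  have hbk : ∀ k x, bar (Helper37.MEI.ap a m e) k x = bar a (pf m e k) x := fun k x =>
    bar_perm (pr m e) k x
  have s0 := hS' 0
  have s1 := hS' 1
  have s2 := hS' 2
  have s3 := hS' 3
  have m2 := Helper53.MEI.momw_all h ha hull hp hB hS0 hQ m e i (k := 2) (k' := 3)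
    (Or.inl ⟨rfl, rfl⟩)
  have m3 := Helper53.MEI.momw_all h ha hull hp hB hS0 hQ m e i (k := 3) (k' := 2)
    (Or.inr ⟨rfl, rfl⟩)
  have hi : 0.07317 * S (pf m e (if i then 1 else 0)) + 0.05728 * S (pf m e (if i then 0 else 1)) ≤
      0.0732 * (S (pf m e 0) + S (pf m e 1)) := by
    cases i
    · simp only [Bool.false_eq_true, if_false]; linarith
    · simp only [if_true]; linarith
  have c2 : ∫ z in Zp (Helper37.MEI.ap a m e) 2 3, Helper37.MEI.wt (Helper37.MEI.ap a m e) i z.1 *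
      bar (Helper37.MEI.ap a m e) 2 z.2 ∂σ ≤
      0.03578 + 0.328 * S (pf m e 3) + 0.0732 * (S (pf m e 0) + S (pf m e 1)) := by
    simp only [hbk]
    exact m2.trans (by linarith)
  have c3 : ∫ z in Zp (Helper37.MEI.ap a m e) 2 3, Helper37.MEI.wt (Helper37.MEI.ap a m e) i z.1 *
      bar (Helper37.MEI.ap a m e) 3 z.2 ∂σ ≤
      0.03578 + 0.328 * S (pf m e 2) + 0.0732 * (S (pf m e 0) + S (pf m e 1)) := by
    simp only [hbk]
    exact m3.trans (by linarith)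
  obtain ⟨d2, d3⟩ := ppm_cell ha' h hp' hb hQ' hS' (by rw [hsum]; exact hT) i
    (Bm := 0.0556) c2 c3 (by linarith) (by linarith) (by norm_num) _ rfl
  have hss : sS (fun j => S (pf m e j)) = S (pf m e 0) + S (pf m e 1) + S (pf m e 2) +
      S (pf m e 3) := rfl
  rw [hss] at d2 d3
  simp only [hbk] at d2 d3
  rcases hk with ⟨e1, e2⟩ | ⟨e1, e2⟩
  · rw [e1, e2]
    have n := num (u := S (pf m e 0) + S (pf m e 1)) s3 s2 (by linarith) (by linarith)
      (B2 := 0.03578 + 0.328 * S (pf m e 2) + 0.0732 * (S (pf m e 0) + S (pf m e 1)))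
      (B3 := 0.03578 + 0.328 * S (pf m e 3) + 0.0732 * (S (pf m e 0) + S (pf m e 1)))
      le_rfl le_rfl rfl
    refine le_trans ?_ n
    refine le_trans (le_of_eq ?_) (d2.trans (le_of_eq ?_))
    · rfl
    · ring
  · rw [e1, e2]
    have n := num (u := S (pf m e 0) + S (pf m e 1)) s2 s3 (by linarith) (by linarith)
      (B2 := 0.03578 + 0.328 * S (pf m e 3) + 0.0732 * (S (pf m e 0) + S (pf m e 1)))
      (B3 := 0.03578 + 0.328 * S (pf m e 2) + 0.0732 * (S (pf m e 0) + S (pf m e 1)))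
      le_rfl le_rfl rfl
    refine le_trans ?_ n
    refine le_trans (le_of_eq ?_) (d3.trans (le_of_eq ?_))
    · rfl
    · ring

/-- **the two columns of an arc**, any admissible losses -/
theorem sM_ppm [IsFiniteMeasure σ] (ha : ∀ i j, i ≠ j → dist (a i) (a j) = 1)
    {l : Fin 3 → Bool → Bool → E3 × E3 → ℝ} (hl : Helper41.MEI.Lok a l) (h : PM K σ)
    (hull : ∀ p, (∀ q ∈ K, ‖p - q‖ ≤ 1) → p ∈ K) (hp : ∀ x ∈ K, Pl a x)
    {B : Fin 3 → Bool → OrthonormalBasis (Fin 3) ℝ E3}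
    (hB : ∀ m e, Fr (fun i => a (pr m e i)) (B m e)) {S : Fin 4 → ℝ} (hS0 : ∀ i, 0 ≤ S i)
    (hQ : ∀ i, ∀ q ∈ K, Qv a i q ≤ S i) (hT : sS S ≤ 0.0604)
    (m : Fin 3) (e i : Bool) {k k' : Fin 4} (hk : k = 2 ∧ k' = 3 ∨ k = 3 ∧ k' = 2) :
    max (Helper41.MEI.sM σ a l m e i (pf m e k)) 0 ≤
      0.03772 + 0.3652 * S (pf m e k') + 0.0484 * S (pf m e k) +
        0.0993 * (S (pf m e 0) + S (pf m e 1)) := by
  obtain ⟨C, hC⟩ := Helper41.MEI.den_bdd ha hl h.cpt h.mem hp m e i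
  refine le_trans ?_ (ppm_all h ha hull hp hB hS0 hQ hT m e i hk)
  have i1 := Helper37.MEI.dens_int (σ := σ) h.cpt h.mem (Helper41.MEI.den_meas hl m e i)
    (Helper41.MEI.den_nn hl m e i) hC
    ((Pool.Agent.Helper95.MEI.Fub.bar_cont a (pf m e k)).comp continuous_snd)
  have i2 : Integrable (fun z : E3 × E3 => Helper37.MEI.wt (Helper37.MEI.ap a m e) i z.1 *
      max (bar a (pf m e k) z.2) 0) σ :=
    int_cont h.cpt h.mem (((Helper37.MEI.wt_cont (Helper37.MEI.ap a m e) i).comp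
      continuous_fst).mul (((Pool.Agent.Helper95.MEI.Fub.bar_cont a (pf m e k)).comp
        continuous_snd).max continuous_const))
  unfold Helper41.MEI.sM
  apply max_le
  · refine integral_mono_ae i1.integrableOn i2.integrableOn ?_
    filter_upwards [ae_restrict_of_ae h.mem] with z hz
    have h1 := Helper41.MEI.den_nonneg hl m e i z
    have h2 := Helper41.MEI.den_le (Helper37.MEI.hgp ha) hl m e i (hp _ hz.1)
    have h3 : bar a (pf m e k) z.2 ≤ max (bar a (pf m e k) z.2) 0 := le_max_left _ _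
    have h4 : 0 ≤ max (bar a (pf m e k) z.2) 0 := le_max_right _ _
    exact (mul_le_mul_of_nonneg_left h3 h1).trans (mul_le_mul_of_nonneg_right h2 h4)
  · apply integral_nonneg_of_ae
    filter_upwards [ae_restrict_of_ae h.mem] with z hz
    exact mul_nonneg (Helper37.MEI.wt_nonneg (Helper37.MEI.hgp ha m e) i (Pl_perm _ (hp _ hz.1)))
      (le_max_right _ _)

end six

end Helper41.ArcT
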