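import Pool.Agent.Helper41.MEI.ArcX

/-!
# Project MEI (M2): negative parts of the moments of an arc, levels of sum at most `0.0604`

The same as `ArcV` for two smaller ranges.
-/

set_option autoImplicit false

namespace Helper41.ArcV6

open Set MeasureTheory Filter Topology Metric
open Helper80.CW Helper22.Wedge Helper22.Sig Helper14.CW Helper14.MEI2 Helper93.MEI
open Helper22.MEI (s t FD FD_pos E1 E2 E3 E3_of)
open Helper21.Sec Helper21.Mom
open Pool.Agent.Helper95.MEI.Fub (Zp int_cont co_e Zp_meas)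
open Pool.Agent.Helper73.MEI
open Pool.Agent.Helper95.MEI.Cst (AsE vol_AsE)
open Helper41.ArcT (sS sS_pf)
open scoped RealInnerProductSpace ContDiff Real

section main
variable {a : Fin 4 → E3} (ha : ∀ i j, i ≠ j → dist (a i) (a j) = 1)
  {K : Set E3} {σ : Measure (E3 × E3)} [IsFiniteMeasure σ] (h : PM K σ)
  (hpl : ∀ x ∈ K, Pl a x) {b : OrthonormalBasis (Fin 3) ℝ E3} (hb : Fr a b)
  {S : Fin 4 → ℝ} (hQ : ∀ x ∈ K, ∀ i, Qv a i x ≤ S i) (hS0 : ∀ i, 0 ≤ S i)
  (hT : S 0 + S 1 + S 2 + S 3 ≤ 0.0604)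

/-- the algebra of the last step -/
theorem alg {a d v P2 P3 N2 N3 B2 B3 : ℝ} (ha : 0 ≤ a) (hd : 0 ≤ d) (hv : 0 ≤ v)
    (e2 : P2 - N2 ≤ B2) (e3 : P3 - N3 ≤ B3) (n2 : 0 ≤ N2)
    (h2 : N2 ≤ a * P3 + d * P2 + v) (h3 : N3 ≤ a * P2 + d * P3 + v) {Bm : ℝ} (b2 : B2 ≤ Bm)
    (b3 : B3 ≤ Bm) (hBm : 0 ≤ Bm) (had : a + d ≤ 0.0412) :
    N3 ≤ (a * B2 + d * B3 + v) + (a + d) * (1.043 * ((a + d) * Bm + v)) := by
  have k1 := mul_le_mul_of_nonneg_left e2 ha
  have k2 := mul_le_mul_of_nonneg_left e3 ha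
  have k3 := mul_le_mul_of_nonneg_left e2 hd
  have k4 := mul_le_mul_of_nonneg_left e3 hd
  have l1 := mul_le_mul_of_nonneg_left b2 ha
  have l2 := mul_le_mul_of_nonneg_left b3 ha
  have l3 := mul_le_mul_of_nonneg_left b2 hd
  have l4 := mul_le_mul_of_nonneg_left b3 hd
  have hC : 0 ≤ (a + d) * Bm + v := by positivity
  -- the larger of the two negative parts
  have key : ∀ N, N = max N2 N3 → N ≤ 1.043 * ((a + d) * Bm + v) := by
    intro N hN
    have m2 : N2 ≤ N := by rw [hN]; exact le_max_left _ _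
    have m3 : N3 ≤ N := by rw [hN]; exact le_max_right _ _
    have N0 : 0 ≤ N := n2.trans m2
    have q1 := mul_le_mul_of_nonneg_left m2 ha
    have q2 := mul_le_mul_of_nonneg_left m3 ha
    have q3 := mul_le_mul_of_nonneg_left m2 hd
    have q4 := mul_le_mul_of_nonneg_left m3 hd
    have q5 := mul_le_mul_of_nonneg_right had N0
    have hN' : N ≤ (a + d) * Bm + v + (a + d) * N := by
      rw [hN]
      rw [hN] at q1 q2 q3 q4
      refine max_le ?_ ?_ <;> linarith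
    linarith
  have hk := key _ rfl
  have m2 : N2 ≤ max N2 N3 := le_max_left _ _
  have m3 : N3 ≤ max N2 N3 := le_max_right _ _
  have q1 := mul_le_mul_of_nonneg_left (m2.trans hk) ha
  have q4 := mul_le_mul_of_nonneg_left (m3.trans hk) hd
  linarith

include ha h hpl hb hQ hS0 hT in
/-- **the negative parts of the moments**, from bounds of the signed moments -/
theorem neg_cell (i : Bool) {B2 B3 Bm : ℝ}
    (h2 : ∫ z in Zp a 2 3, Helper37.MEI.wt a i z.1 * bar a 2 z.2 ∂σ ≤ B2)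
    (h3 : ∫ z in Zp a 2 3, Helper37.MEI.wt a i z.1 * bar a 3 z.2 ∂σ ≤ B3)
    (b2 : B2 ≤ Bm) (b3 : B3 ≤ Bm) (hBm : 0 ≤ Bm) :
    ∀ v, v = 0.2432 * (0.006778 + (0.0393 + 0.2358 * S 2) * S 2 +
      (0.0393 + 0.2358 * S 3) * S 3) →
    ∫ z in Zp a 2 3, Helper37.MEI.wt a i z.1 * max (-bar a 2 z.2) 0 ∂σ ≤
      ((0.565 * sS S + 0.0035) * B3 + 0.0035 * B2 + v) +
        (0.565 * sS S + 0.007) * (1.043 * ((0.565 * sS S + 0.007) * Bm + v)) ∧
    ∫ z in Zp a 2 3, Helper37.MEI.wt a i z.1 * max (-bar a 3 z.2) 0 ∂σ ≤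
      ((0.565 * sS S + 0.0035) * B2 + 0.0035 * B3 + v) +
        (0.565 * sS S + 0.007) * (1.043 * ((0.565 * sS S + 0.007) * Bm + v)) := by
  intro v hv
  have hG := gram_of_dist ha
  have hwc := Helper37.MEI.wt_cont a i
  have hbc := fun k => Pool.Agent.Helper95.MEI.Fub.bar_cont a k
  have i1 : ∀ k, Integrable (fun z : E3 × E3 => Helper37.MEI.wt a i z.1 *
      max (bar a k z.2) 0) σ := fun k => int_cont h.cpt h.mem
    ((hwc.comp continuous_fst).mul (((hbc k).comp continuous_snd).max continuous_const))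
  have i2 : ∀ k, Integrable (fun z : E3 × E3 => Helper37.MEI.wt a i z.1 *
      max (-bar a k z.2) 0) σ := fun k => int_cont h.cpt h.mem
    ((hwc.comp continuous_fst).mul (((hbc k).comp continuous_snd).neg.max continuous_const))
  have hsp : ∀ k, (∫ z in Zp a 2 3, Helper37.MEI.wt a i z.1 * max (bar a k z.2) 0 ∂σ) -
      (∫ z in Zp a 2 3, Helper37.MEI.wt a i z.1 * max (-bar a k z.2) 0 ∂σ) =
      ∫ z in Zp a 2 3, Helper37.MEI.wt a i z.1 * bar a k z.2 ∂σ := by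
    intro k
    rw [← integral_sub (i1 k).integrableOn (i2 k).integrableOn]
    congr 1
    funext z
    rcases le_total 0 (bar a k z.2) with h0 | h0
    · rw [max_eq_left h0, max_eq_right (by linarith)]; ring
    · rw [max_eq_right h0, max_eq_left (by linarith)]; ring
  have hnn : ∀ k, 0 ≤ ∫ z in Zp a 2 3, Helper37.MEI.wt a i z.1 * max (-bar a k z.2) 0 ∂σ := by
    intro k
    apply integral_nonneg_of_ae
    filter_upwards [ae_restrict_of_ae (s := Zp a 2 3) h.mem] with z hm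
    exact mul_nonneg (Helper37.MEI.wt_nonneg hG i (hpl _ hm.1)) (le_max_right _ _)
  have n2 := Helper41.ArcT.neg_part ha h hpl hb hQ hS0 hT i (k := 2) (k' := 3) (Or.inl ⟨rfl, rfl⟩)
  have n3 := Helper41.ArcT.neg_part ha h hpl hb hQ hS0 hT i (k := 3) (k' := 2) (Or.inr ⟨rfl, rfl⟩)
  rw [← hv] at n2 n3
  have s0 := hS0 0
  have s1 := hS0 1
  have s2 := hS0 2
  have s3 := hS0 3
  have hs : 0 ≤ sS S := by unfold sS; linarith
  have hs' : sS S ≤ 0.0604 := hT
  have hv0 : 0 ≤ v := by rw [hv]; positivity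
  have a1 := alg (a := 0.565 * sS S + 0.0035) (d := 0.0035) (by positivity) (by norm_num) hv0
    (by rw [hsp]; exact h2) (by rw [hsp]; exact h3) (hnn 2) n2 n3 b2 b3 hBm
    (by linarith)
  have a2 := alg (a := 0.565 * sS S + 0.0035) (d := 0.0035) (by positivity) (by norm_num) hv0
    (by rw [hsp]; exact h3) (by rw [hsp]; exact h2) (hnn 3) n3 n2 b3 b2 hBm
    (by linarith)
  have e : 0.565 * sS S + 0.0035 + 0.0035 = 0.565 * sS S + 0.007 := by ring
  rw [e] at a1 a2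
  exact ⟨a2, a1⟩

end main

/-! ### all cells -/

/-- the numbers, sum at most `0.0604` -/
theorem num6 {s2 s3 u v B2 B3 : ℝ} (h2 : 0 ≤ s2) (h3 : 0 ≤ s3) (hu : 0 ≤ u)
    (hT : u + s2 + s3 ≤ 0.0604) (hB2 : B2 ≤ 0.03578 + 0.328 * s3 + 0.0732 * u)
    (hB3 : B3 ≤ 0.03578 + 0.328 * s2 + 0.0732 * u)
    (hv : v = 0.2432 * (0.006778 + (0.0393 + 0.2358 * s2) * s2 + (0.0393 + 0.2358 * s3) * s3)) :
    ((0.565 * (u + s2 + s3) + 0.0035) * B2 + 0.0035 * B3 + v) +
        (0.565 * (u + s2 + s3) + 0.007) *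
          (1.043 * ((0.565 * (u + s2 + s3) + 0.007) * 0.0556 + v)) ≤
      0.00194 + 0.0372 * s2 + 0.0484 * s3 + 0.0261 * u := by
  have a2 : s2 * s2 ≤ 0.0604 * s2 := mul_le_mul_of_nonneg_right (by linarith) h2
  have a3 : s3 * s3 ≤ 0.0604 * s3 := mul_le_mul_of_nonneg_right (by linarith) h3
  have hv1 : v ≤ 0.00165 + 0.01303 * (s2 + s3) := by
    rw [hv]; linarith
  have hv2 : v ≤ 0.00244 := by linarith
  set G := u + s2 + s3 with hS
  have hS0 : 0 ≤ G := by linarith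
  have b1 : (0.565 * G + 0.0035) * B2 ≤
      (0.565 * G + 0.0035) * (0.03578 + 0.328 * s3 + 0.0732 * u) :=
    mul_le_mul_of_nonneg_left hB2 (by linarith)
  have b2 : G * s3 ≤ 0.0604 * s3 := mul_le_mul_of_nonneg_right hT h3
  have b3 : G * u ≤ 0.0604 * u := mul_le_mul_of_nonneg_right hT hu
  have b4 : (0.565 * G + 0.007) * 0.0556 + v ≤ 0.004733 := by linarith
  have b5 : (0.565 * G + 0.007) * (1.043 * ((0.565 * G + 0.007) * 0.0556 + v)) ≤
      (0.565 * G + 0.007) * (1.043 * 0.004733) :=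
    mul_le_mul_of_nonneg_left (by linarith) (by linarith)
  have b6 : (0.565 * G + 0.0035) * (0.03578 + 0.328 * s3 + 0.0732 * u) =
      0.565 * 0.03578 * G + 0.565 * 0.328 * (G * s3) + 0.565 * 0.0732 * (G * u) +
      0.0035 * (0.03578 + 0.328 * s3 + 0.0732 * u) := by ring
  rw [b6] at b1
  linarith

/-- the numbers, sum at most `0.0144` -/
theorem numA {s2 s3 u v B2 B3 : ℝ} (h2 : 0 ≤ s2) (h3 : 0 ≤ s3) (hu : 0 ≤ u)
    (hT : u + s2 + s3 ≤ 0.0144) (hB2 : B2 ≤ 0.03578 + 0.328 * s3 + 0.0732 * u)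
    (hB3 : B3 ≤ 0.03578 + 0.328 * s2 + 0.0732 * u)
    (hv : v = 0.2432 * (0.006778 + (0.0393 + 0.2358 * s2) * s2 + (0.0393 + 0.2358 * s3) * s3)) :
    ((0.565 * (u + s2 + s3) + 0.0035) * B2 + 0.0035 * B3 + v) +
        (0.565 * (u + s2 + s3) + 0.007) *
          (1.043 * ((0.565 * (u + s2 + s3) + 0.007) * 0.0556 + v)) ≤
      0.00192 + 0.0334 * s2 + 0.0361 * s3 + 0.023 * u := by
  have a2 : s2 * s2 ≤ 0.0144 * s2 := mul_le_mul_of_nonneg_right (by linarith) h2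
  have a3 : s3 * s3 ≤ 0.0144 * s3 := mul_le_mul_of_nonneg_right (by linarith) h3
  have hv1 : v ≤ 0.0016485 + 0.01039 * (s2 + s3) := by
    rw [hv]; linarith
  have hv2 : v ≤ 0.0018 := by linarith
  set G := u + s2 + s3 with hS
  have hS0 : 0 ≤ G := by linarith
  have b1 : (0.565 * G + 0.0035) * B2 ≤
      (0.565 * G + 0.0035) * (0.03578 + 0.328 * s3 + 0.0732 * u) :=
    mul_le_mul_of_nonneg_left hB2 (by linarith)
  have b2 : G * s3 ≤ 0.0144 * s3 := mul_le_mul_of_nonneg_right hT h3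
  have b3 : G * u ≤ 0.0144 * u := mul_le_mul_of_nonneg_right hT hu
  have b4 : (0.565 * G + 0.007) * 0.0556 + v ≤ 0.00265 := by linarith
  have b5 : (0.565 * G + 0.007) * (1.043 * ((0.565 * G + 0.007) * 0.0556 + v)) ≤
      (0.565 * G + 0.007) * (1.043 * 0.00265) :=
    mul_le_mul_of_nonneg_left (by linarith) (by linarith)
  have b6 : (0.565 * G + 0.0035) * (0.03578 + 0.328 * s3 + 0.0732 * u) =
      0.565 * 0.03578 * G + 0.565 * 0.328 * (G * s3) + 0.565 * 0.0732 * (G * u) +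
      0.0035 * (0.03578 + 0.328 * s3 + 0.0732 * u) := by ring
  rw [b6] at b1
  linarith

section six6
variable {a : Fin 4 → E3} {K : Set E3} {σ : Measure (E3 × E3)}

/-- **the negative parts of the moments of the full weight** -/
theorem neg_all6 [IsFiniteMeasure σ] (h : PM K σ) (ha : ∀ i j, i ≠ j → dist (a i) (a j) = 1)
    (hull : ∀ p, (∀ q ∈ K, ‖p - q‖ ≤ 1) → p ∈ K) (hp : ∀ x ∈ K, Pl a x)
    {B : Fin 3 → Bool → OrthonormalBasis (Fin 3) ℝ E3}
    (hB : ∀ m e, Fr (fun i => a (pr m e i)) (B m e)) {S : Fin 4 → ℝ} (hS0 : ∀ i, 0 ≤ S i)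
    (hQ : ∀ i, ∀ q ∈ K, Qv a i q ≤ S i) (hT : sS S ≤ 0.0604)
    (m : Fin 3) (e i : Bool) {k k' : Fin 4} (hk : k = 2 ∧ k' = 3 ∨ k = 3 ∧ k' = 2) :
    ∫ z in Helper37.MEI.EE a m e, Helper37.MEI.wt (Helper37.MEI.ap a m e) i z.1 *
      max (-bar a (pf m e k) z.2) 0 ∂σ ≤
      0.00194 + 0.0372 * S (pf m e k') + 0.0484 * S (pf m e k) +
        0.0261 * (S (pf m e 0) + S (pf m e 1)) := by
  have ha' := Helper37.MEI.hap ha m e
  have hb : Fr (Helper37.MEI.ap a m e) (B m e) := hB m e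
  have hp' : ∀ x ∈ K, Pl (Helper37.MEI.ap a m e) x := fun x hx => Pl_perm _ (hp x hx)
  have hQ' : ∀ x ∈ K, ∀ j, Qv (Helper37.MEI.ap a m e) j x ≤ S (pf m e j) :=
    fun x hx j => hQ (pf m e j) x hx
  have hS' : ∀ j, 0 ≤ S (pf m e j) := fun j => hS0 _
  have hsum := sS_pf S m e
  have hbk : ∀ k x, bar (Helper37.MEI.ap a m e) k x = bar a (pf m e k) x := fun k x =>
    bar_perm (pr m e) k x
  have s0 := hS' 0
  have s1 := hS' 1
  have s2 := hS' 2
  have s3 := hS' 3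
  have m2 := Helper53.MEI.momw_all h ha hull hp hB hS0 hQ m e i (k := 2) (k' := 3)
    (Or.inl ⟨rfl, rfl⟩)
  have m3 := Helper53.MEI.momw_all h ha hull hp hB hS0 hQ m e i (k := 3) (k' := 2)
    (Or.inr ⟨rfl, rfl⟩)
  have hi : 0.07317 * S (pf m e (if i then 1 else 0)) + 0.05728 * S (pf m e (if i then 0 else 1)) ≤
      0.0732 * (S (pf m e 0) + S (pf m e 1)) := by
    cases i
    · simp only [Bool.false_eq_true, if_false]; linarith
    · simp only [if_true]; linarith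
  have c2 : ∫ z in Zp (Helper37.MEI.ap a m e) 2 3, Helper37.MEI.wt (Helper37.MEI.ap a m e) i z.1 *
      bar (Helper37.MEI.ap a m e) 2 z.2 ∂σ ≤
      0.03578 + 0.328 * S (pf m e 3) + 0.0732 * (S (pf m e 0) + S (pf m e 1)) := by
    simp only [hbk]
    exact m2.trans (by linarith)
  have c3 : ∫ z in Zp (Helper37.MEI.ap a m e) 2 3, Helper37.MEI.wt (Helper37.MEI.ap a m e) i z.1 *
      bar (Helper37.MEI.ap a m e) 3 z.2 ∂σ ≤
      0.03578 + 0.328 * S (pf m e 2) + 0.0732 * (S (pf m e 0) + S (pf m e 1)) := by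
    simp only [hbk]
    exact m3.trans (by linarith)
  obtain ⟨d2, d3⟩ := neg_cell ha' h hp' hb hQ' hS' (by rw [hsum]; exact hT) i
    (Bm := 0.0556) c2 c3 (by linarith) (by linarith) (by norm_num) _ rfl
  have hss : sS (fun j => S (pf m e j)) = S (pf m e 0) + S (pf m e 1) + S (pf m e 2) +
      S (pf m e 3) := rfl
  rw [hss] at d2 d3
  simp only [hbk] at d2 d3
  rcases hk with ⟨e1, e2⟩ | ⟨e1, e2⟩
  · rw [e1, e2]
    have n := num6 (u := S (pf m e 0) + S (pf m e 1)) s3 s2 (by linarith) (by linarith)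
      (B2 := 0.03578 + 0.328 * S (pf m e 2) + 0.0732 * (S (pf m e 0) + S (pf m e 1)))
      (B3 := 0.03578 + 0.328 * S (pf m e 3) + 0.0732 * (S (pf m e 0) + S (pf m e 1)))
      le_rfl le_rfl rfl
    refine le_trans ?_ n
    refine le_trans (le_of_eq ?_) (d2.trans (le_of_eq ?_))
    · rfl
    · ring
  · rw [e1, e2]
    have n := num6 (u := S (pf m e 0) + S (pf m e 1)) s2 s3 (by linarith) (by linarith)
      (B2 := 0.03578 + 0.328 * S (pf m e 3) + 0.0732 * (S (pf m e 0) + S (pf m e 1)))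
      (B3 := 0.03578 + 0.328 * S (pf m e 2) + 0.0732 * (S (pf m e 0) + S (pf m e 1)))
      le_rfl le_rfl rfl
    refine le_trans ?_ n
    refine le_trans (le_of_eq ?_) (d3.trans (le_of_eq ?_))
    · rfl
    · ring

/-- **columns of a density below the full weight**: signed moment plus the correction -/
theorem pos_of_signed6 [IsFiniteMeasure σ] (h : PM K σ)
    (ha : ∀ i j, i ≠ j → dist (a i) (a j) = 1)
    (hull : ∀ p, (∀ q ∈ K, ‖p - q‖ ≤ 1) → p ∈ K) (hp : ∀ x ∈ K, Pl a x)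
    {B : Fin 3 → Bool → OrthonormalBasis (Fin 3) ℝ E3}
    (hB : ∀ m e, Fr (fun i => a (pr m e i)) (B m e)) {S : Fin 4 → ℝ} (hS0 : ∀ i, 0 ≤ S i)
    (hQ : ∀ i, ∀ q ∈ K, Qv a i q ≤ S i) (hT : sS S ≤ 0.0604)
    (m : Fin 3) (e i : Bool) {k k' : Fin 4} (hk : k = 2 ∧ k' = 3 ∨ k = 3 ∧ k' = 2)
    {d : E3 × E3 → ℝ} (hd0 : ∀ᵐ z ∂σ, 0 ≤ d z)
    (hd1 : ∀ᵐ z ∂σ, d z ≤ Helper37.MEI.wt (Helper37.MEI.ap a m e) i z.1)
    (hi1 : Integrable (fun z => d z * max (bar a (pf m e k) z.2) 0) σ)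
    (hi2 : Integrable (fun z => d z * bar a (pf m e k) z.2) σ) :
    ∫ z in Helper37.MEI.EE a m e, d z * max (bar a (pf m e k) z.2) 0 ∂σ ≤
      (∫ z in Helper37.MEI.EE a m e, d z * bar a (pf m e k) z.2 ∂σ) +
      (0.00194 + 0.0372 * S (pf m e k') + 0.0484 * S (pf m e k) +
        0.0261 * (S (pf m e 0) + S (pf m e 1))) := by
  have h1 := neg_all6 h ha hull hp hB hS0 hQ hT m e i hk
  have i2 : Integrable (fun z : E3 × E3 => Helper37.MEI.wt (Helper37.MEI.ap a m e) i z.1 *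
      max (-bar a (pf m e k) z.2) 0) σ :=
    int_cont h.cpt h.mem (((Helper37.MEI.wt_cont (Helper37.MEI.ap a m e) i).comp
      continuous_fst).mul (((Pool.Agent.Helper95.MEI.Fub.bar_cont a (pf m e k)).comp
        continuous_snd).neg.max continuous_const))
  have h2 : ∫ z in Helper37.MEI.EE a m e, d z * max (bar a (pf m e k) z.2) 0 ∂σ ≤
      ∫ z in Helper37.MEI.EE a m e, (d z * bar a (pf m e k) z.2 +
        Helper37.MEI.wt (Helper37.MEI.ap a m e) i z.1 * max (-bar a (pf m e k) z.2) 0) ∂σ := by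
    refine integral_mono_ae hi1.integrableOn (hi2.integrableOn.add i2.integrableOn) ?_
    filter_upwards [ae_restrict_of_ae (s := Helper37.MEI.EE a m e) hd0,
      ae_restrict_of_ae (s := Helper37.MEI.EE a m e) hd1] with z z0 z1
    have z2 := mul_le_mul_of_nonneg_right z1 (le_max_right (-bar a (pf m e k) z.2) 0)
    have z3 : d z * max (bar a (pf m e k) z.2) 0 = d z * bar a (pf m e k) z.2 +
        d z * max (-bar a (pf m e k) z.2) 0 := by
      rcases le_total 0 (bar a (pf m e k) z.2) with h0 | h0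
      · rw [max_eq_left h0, max_eq_right (by linarith)]; ring
      · rw [max_eq_right h0, max_eq_left (by linarith)]; ring
    show d z * max (bar a (pf m e k) z.2) 0 ≤ d z * bar a (pf m e k) z.2 + _
    rw [z3]
    linarith
  rw [integral_add hi2.integrableOn i2.integrableOn] at h2
  linarith

end six6

section sixA
variable {a : Fin 4 → E3} {K : Set E3} {σ : Measure (E3 × E3)}

/-- **the negative parts of the moments of the full weight** -/
theorem neg_allA [IsFiniteMeasure σ] (h : PM K σ) (ha : ∀ i j, i ≠ j → dist (a i) (a j) = 1)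
    (hull : ∀ p, (∀ q ∈ K, ‖p - q‖ ≤ 1) → p ∈ K) (hp : ∀ x ∈ K, Pl a x)
    {B : Fin 3 → Bool → OrthonormalBasis (Fin 3) ℝ E3}
    (hB : ∀ m e, Fr (fun i => a (pr m e i)) (B m e)) {S : Fin 4 → ℝ} (hS0 : ∀ i, 0 ≤ S i)
    (hQ : ∀ i, ∀ q ∈ K, Qv a i q ≤ S i) (hT : sS S ≤ 0.0144)
    (m : Fin 3) (e i : Bool) {k k' : Fin 4} (hk : k = 2 ∧ k' = 3 ∨ k = 3 ∧ k' = 2) :
    ∫ z in Helper37.MEI.EE a m e, Helper37.MEI.wt (Helper37.MEI.ap a m e) i z.1 *
      max (-bar a (pf m e k) z.2) 0 ∂σ ≤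
      0.00192 + 0.0334 * S (pf m e k') + 0.0361 * S (pf m e k) +
        0.023 * (S (pf m e 0) + S (pf m e 1)) := by
  have ha' := Helper37.MEI.hap ha m e
  have hb : Fr (Helper37.MEI.ap a m e) (B m e) := hB m e
  have hp' : ∀ x ∈ K, Pl (Helper37.MEI.ap a m e) x := fun x hx => Pl_perm _ (hp x hx)
  have hQ' : ∀ x ∈ K, ∀ j, Qv (Helper37.MEI.ap a m e) j x ≤ S (pf m e j) :=
    fun x hx j => hQ (pf m e j) x hx
  have hS' : ∀ j, 0 ≤ S (pf m e j) := fun j => hS0 _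
  have hsum := sS_pf S m e
  have hbk : ∀ k x, bar (Helper37.MEI.ap a m e) k x = bar a (pf m e k) x := fun k x =>
    bar_perm (pr m e) k x
  have s0 := hS' 0
  have s1 := hS' 1
  have s2 := hS' 2
  have s3 := hS' 3
  have m2 := Helper53.MEI.momw_all h ha hull hp hB hS0 hQ m e i (k := 2) (k' := 3)
    (Or.inl ⟨rfl, rfl⟩)
  have m3 := Helper53.MEI.momw_all h ha hull hp hB hS0 hQ m e i (k := 3) (k' := 2)
    (Or.inr ⟨rfl, rfl⟩)
  have hi : 0.07317 * S (pf m e (if i then 1 else 0)) + 0.05728 * S (pf m e (if i then 0 else 1)) ≤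
      0.0732 * (S (pf m e 0) + S (pf m e 1)) := by
    cases i
    · simp only [Bool.false_eq_true, if_false]; linarith
    · simp only [if_true]; linarith
  have c2 : ∫ z in Zp (Helper37.MEI.ap a m e) 2 3, Helper37.MEI.wt (Helper37.MEI.ap a m e) i z.1 *
      bar (Helper37.MEI.ap a m e) 2 z.2 ∂σ ≤
      0.03578 + 0.328 * S (pf m e 3) + 0.0732 * (S (pf m e 0) + S (pf m e 1)) := by
    simp only [hbk]
    exact m2.trans (by linarith)
  have c3 : ∫ z in Zp (Helper37.MEI.ap a m e) 2 3, Helper37.MEI.wt (Helper37.MEI.ap a m e) i z.1 *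
      bar (Helper37.MEI.ap a m e) 3 z.2 ∂σ ≤
      0.03578 + 0.328 * S (pf m e 2) + 0.0732 * (S (pf m e 0) + S (pf m e 1)) := by
    simp only [hbk]
    exact m3.trans (by linarith)
  obtain ⟨d2, d3⟩ := neg_cell ha' h hp' hb hQ' hS' (by rw [hsum]; linarith) i
    (Bm := 0.0556) c2 c3 (by linarith) (by linarith) (by norm_num) _ rfl
  have hss : sS (fun j => S (pf m e j)) = S (pf m e 0) + S (pf m e 1) + S (pf m e 2) +
      S (pf m e 3) := rfl
  rw [hss] at d2 d3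
  simp only [hbk] at d2 d3
  rcases hk with ⟨e1, e2⟩ | ⟨e1, e2⟩
  · rw [e1, e2]
    have n := numA (u := S (pf m e 0) + S (pf m e 1)) s3 s2 (by linarith) (by linarith)
      (B2 := 0.03578 + 0.328 * S (pf m e 2) + 0.0732 * (S (pf m e 0) + S (pf m e 1)))
      (B3 := 0.03578 + 0.328 * S (pf m e 3) + 0.0732 * (S (pf m e 0) + S (pf m e 1)))
      le_rfl le_rfl rfl
    refine le_trans ?_ n
    refine le_trans (le_of_eq ?_) (d2.trans (le_of_eq ?_))
    · rfl
    · ring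
  · rw [e1, e2]
    have n := numA (u := S (pf m e 0) + S (pf m e 1)) s2 s3 (by linarith) (by linarith)
      (B2 := 0.03578 + 0.328 * S (pf m e 3) + 0.0732 * (S (pf m e 0) + S (pf m e 1)))
      (B3 := 0.03578 + 0.328 * S (pf m e 2) + 0.0732 * (S (pf m e 0) + S (pf m e 1)))
      le_rfl le_rfl rfl
    refine le_trans ?_ n
    refine le_trans (le_of_eq ?_) (d3.trans (le_of_eq ?_))
    · rfl
    · ring

/-- **columns of a density below the full weight**: signed moment plus the correction -/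
theorem pos_of_signedA [IsFiniteMeasure σ] (h : PM K σ)
    (ha : ∀ i j, i ≠ j → dist (a i) (a j) = 1)
    (hull : ∀ p, (∀ q ∈ K, ‖p - q‖ ≤ 1) → p ∈ K) (hp : ∀ x ∈ K, Pl a x)
    {B : Fin 3 → Bool → OrthonormalBasis (Fin 3) ℝ E3}
    (hB : ∀ m e, Fr (fun i => a (pr m e i)) (B m e)) {S : Fin 4 → ℝ} (hS0 : ∀ i, 0 ≤ S i)
    (hQ : ∀ i, ∀ q ∈ K, Qv a i q ≤ S i) (hT : sS S ≤ 0.0144)
    (m : Fin 3) (e i : Bool) {k k' : Fin 4} (hk : k = 2 ∧ k' = 3 ∨ k = 3 ∧ k' = 2)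
    {d : E3 × E3 → ℝ} (hd0 : ∀ᵐ z ∂σ, 0 ≤ d z)
    (hd1 : ∀ᵐ z ∂σ, d z ≤ Helper37.MEI.wt (Helper37.MEI.ap a m e) i z.1)
    (hi1 : Integrable (fun z => d z * max (bar a (pf m e k) z.2) 0) σ)
    (hi2 : Integrable (fun z => d z * bar a (pf m e k) z.2) σ) :
    ∫ z in Helper37.MEI.EE a m e, d z * max (bar a (pf m e k) z.2) 0 ∂σ ≤
      (∫ z in Helper37.MEI.EE a m e, d z * bar a (pf m e k) z.2 ∂σ) +
      (0.00192 + 0.0334 * S (pf m e k') + 0.0361 * S (pf m e k) +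
        0.023 * (S (pf m e 0) + S (pf m e 1))) := by
  have h1 := neg_allA h ha hull hp hB hS0 hQ hT m e i hk
  have i2 : Integrable (fun z : E3 × E3 => Helper37.MEI.wt (Helper37.MEI.ap a m e) i z.1 *
      max (-bar a (pf m e k) z.2) 0) σ :=
    int_cont h.cpt h.mem (((Helper37.MEI.wt_cont (Helper37.MEI.ap a m e) i).comp
      continuous_fst).mul (((Pool.Agent.Helper95.MEI.Fub.bar_cont a (pf m e k)).comp
        continuous_snd).neg.max continuous_const))
  have h2 : ∫ z in Helper37.MEI.EE a m e, d z * max (bar a (pf m e k) z.2) 0 ∂σ ≤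
      ∫ z in Helper37.MEI.EE a m e, (d z * bar a (pf m e k) z.2 +
        Helper37.MEI.wt (Helper37.MEI.ap a m e) i z.1 * max (-bar a (pf m e k) z.2) 0) ∂σ := by
    refine integral_mono_ae hi1.integrableOn (hi2.integrableOn.add i2.integrableOn) ?_
    filter_upwards [ae_restrict_of_ae (s := Helper37.MEI.EE a m e) hd0,
      ae_restrict_of_ae (s := Helper37.MEI.EE a m e) hd1] with z z0 z1
    have z2 := mul_le_mul_of_nonneg_right z1 (le_max_right (-bar a (pf m e k) z.2) 0)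
    have z3 : d z * max (bar a (pf m e k) z.2) 0 = d z * bar a (pf m e k) z.2 +
        d z * max (-bar a (pf m e k) z.2) 0 := by
      rcases le_total 0 (bar a (pf m e k) z.2) with h0 | h0
      · rw [max_eq_left h0, max_eq_right (by linarith)]; ring
      · rw [max_eq_right h0, max_eq_left (by linarith)]; ring
    show d z * max (bar a (pf m e k) z.2) 0 ≤ d z * bar a (pf m e k) z.2 + _
    rw [z3]
    linarith
  rw [integral_add hi2.integrableOn i2.integrableOn] at h2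
  linarith

end sixA

end Helper41.ArcV6
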