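import Pool.Agent.Helper21.MEI.Mom

/-!
# Project MEI (M2): first moments of the full weight of an arc, by the flux of a constant direction

`bar a k z.2 = bar a k z.1 - ⟪v, z.1 - z.2⟫`, `v` = gradient of `bar a k`; the flux of
`weight • v` through the cell is controlled by the two wall sections.
-/

set_option autoImplicit false

namespace Helper41.ArcW

open Set MeasureTheory Filter Topology Metric
open Helper80.CW Helper22.Wedge Helper22.Sig Helper14.CW Helper14.MEI2 Helper93.MEI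
open Helper22.MEI (s t FD FD_pos E1 E2 E3 E3_of)
open Helper21.Sec Helper21.Mom
open Pool.Agent.Helper95.MEI.Fub (Zp int_cont co_e Zp_meas)
open Pool.Agent.Helper73.MEI
open scoped RealInnerProductSpace ContDiff Real

/-! ### the derivative of the weight -/

/-- derivative of the weight in the direction of the height -/
noncomputable def omz (η : ℝ) (q : ℝ × ℝ × ℝ) : ℝ :=
  -((1 / 2 + η * (7 / 16) * q.1) * (q.2.2 - t) / (2 * FD q ^ 2))

theorem E3_om (η : ℝ) (q : ℝ × ℝ × ℝ) : Helper22.MEI.E3 (om η) q = omz η q := by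
  refine E3_of (om_cd η) ?_
  have hD := FD_pos q
  have h1 : HasDerivAt (fun a : ℝ => 4 * FD (q.1, q.2.1, a)) (4 * (2 * (q.2.2 - t))) q.2.2 := by
    have h0 : HasDerivAt (fun a : ℝ => a - t) 1 q.2.2 := (hasDerivAt_id' q.2.2).sub_const t
    have h2 := (((h0.pow 2).const_add (q.2.1 ^ 2)).const_add (1 / 4 + q.1 ^ 2 / 8)).const_mul 4
    refine h2.congr_deriv ?_
    norm_num
  have h2 := (hasDerivAt_const q.2.2 (1 / 2 + η * (7 / 16) * q.1)).div h1
    (by have : FD (q.1, q.2.1, q.2.2) = FD q := rfl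
        rw [this]; positivity)
  refine h2.congr_deriv ?_
  have h3 : FD (q.1, q.2.1, q.2.2) = FD q := rfl
  unfold omz
  rw [h3]
  field_simp
  ring

variable (b : OrthonormalBasis (Fin 3) ℝ E3) (c : E3)

/-- gradient of a barycentric coordinate of the opposite edge -/
noncomputable def vb (ε : ℝ) : E3 := ε • b 1 - (√2 / 2) • b 2

/-- the derivative of the weight in the direction `vb` -/
noncomputable def omv (η ε : ℝ) (q : ℝ × ℝ × ℝ) : ℝ :=
  ε * omy η q - √2 / 2 * omz η q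

theorem omv_cont (η ε : ℝ) : Continuous (omv η ε) := by
  have h := (Helper37.MEI.FD_cdn (n := 0)).continuous
  have h1 := omy_cont η
  have h2 : Continuous (omz η) := by
    unfold omz
    refine Continuous.neg (Continuous.div (by fun_prop) (by fun_prop) fun q => ?_)
    have := FD_pos q
    positivity
  unfold omv
  fun_prop

theorem vb_in (ε : ℝ) : ⟪b 0, vb b ε⟫ = 0 ∧ ⟪b 1, vb b ε⟫ = ε ∧ ⟪b 2, vb b ε⟫ = -(√2 / 2) := by
  obtain ⟨⟨i00, i01, i02⟩, ⟨i10, i11, i12⟩, ⟨i20, i21, i22⟩⟩ := ibv b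
  unfold vb
  refine ⟨?_, ?_, ?_⟩
  · rw [inner_sub_right, real_inner_smul_right, real_inner_smul_right, i01, i02]; ring
  · rw [inner_sub_right, real_inner_smul_right, real_inner_smul_right, i11, i12]; ring
  · rw [inner_sub_right, real_inner_smul_right, real_inner_smul_right, i21, i22]; ring

theorem fd_omv (η ε : ℝ) (x : E3) : fderiv ℝ (fun y => om η (co b c y)) x (vb b ε) =
    omv η ε (co b c x) := by
  obtain ⟨h0, h1, h2⟩ := vb_in b ε
  rw [fd_co b c (om_cd η), h0, h1, h2]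
  have e : ((0 : ℝ), ε, -(√2 / 2)) = ε • ((0 : ℝ), (1 : ℝ), (0 : ℝ)) +
      (-(√2 / 2)) • ((0 : ℝ), (0 : ℝ), (1 : ℝ)) := by
    simp
  rw [e, map_add, map_smul, map_smul]
  have k1 : fderiv ℝ (om η) (co b c x) ((0 : ℝ), (1 : ℝ), (0 : ℝ)) = omy η (co b c x) := E2_om η _
  have k2 : fderiv ℝ (om η) (co b c x) ((0 : ℝ), (0 : ℝ), (1 : ℝ)) = omz η (co b c x) := E3_om η _
  rw [k1, k2, smul_eq_mul, smul_eq_mul]
  unfold omv
  ring

/-- in the cell the derivative has a sign -/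
theorem omv_nonneg {η : ℝ} (hη : |η| ≤ 1) {ε : ℝ} (hε : ε = 1 ∨ ε = -1) {x : E3}
    (hX : |(co b c x).1| ≤ 1 / 2) (hx : x ∈ EC b c) : 0 ≤ omv η ε (co b c x) := by
  have h3 : |(co b c x).2.1| < s * ((co b c x).2.2 - t) := hx
  have hs : s = √2 / 2 := by
    have h2 := r2
    have h0 : (0 : ℝ) < √2 := by positivity
    unfold s
    field_simp
    try linarith
  rw [hs] at h3
  obtain ⟨h4, h5⟩ := abs_lt.1 h3
  have h6 : |η * (co b c x).1| ≤ |(co b c x).1| := by
    rw [abs_mul]; exact mul_le_of_le_one_left (abs_nonneg _) hη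
  obtain ⟨h7, h8⟩ := abs_le.1 h6
  have hP : 0 ≤ 1 / 2 + η * (7 / 16) * (co b c x).1 := by linarith
  have hD := FD_pos (co b c x)
  have e : omv η ε (co b c x) = (1 / 2 + η * (7 / 16) * (co b c x).1) / (2 * FD (co b c x) ^ 2) *
      (√2 / 2 * ((co b c x).2.2 - t) - ε * (co b c x).2.1) := by
    unfold omv omy omz
    ring
  rw [e]
  refine mul_nonneg (div_nonneg hP (by positivity)) ?_
  rcases hε with h | h <;> rw [h] <;> linarith

/-! ### the limit of the weighted wall integrals -/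

/-- **the weighted flux of a direction** through the cell -/
theorem fluxv_lim {σ : Measure (E3 × E3)} [IsFiniteMeasure σ] {K : Set E3} (hK : IsCompact K)
    (hσ : ∀ᵐ z ∂σ, z.1 ∈ K ∧ z.2 ∈ K)
    (hU : ∀ G : E3 → E3, ContDiff ℝ ∞ G → ∫ z, ⟪G z.1, z.1 - z.2⟫ ∂σ = ∫ x in K, dvg G x)
    (η ε : ℝ) :
    Tendsto (fun m : ℕ => ⟪nuw b 0, vb b ε⟫ * Jw b c η K 1 m +
        ⟪nuw b 1, vb b ε⟫ * Jw b c η K (-1) m) atTop
      (𝓝 ((∫ z in {z | z.1 ∈ Cel (nuw b) (cw b c)}, om η (co b c z.1) *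
          ⟪vb b ε, z.1 - z.2⟫ ∂σ) -
        ∫ x in K ∩ Cel (nuw b) (cw b c), omv η ε (co b c x))) := by
  classical
  have hCo := Cel_open (nuw b) (cw b c)
  have hKm : MeasurableSet K := hK.isClosed.measurableSet
  have hcc := (co_cd b c).continuous
  have hoc : Continuous (fun x => om η (co b c x)) := ((om_cd η (n := 0)).continuous).comp hcc
  have hyc : Continuous (fun x => omv η ε (co b c x)) := (omv_cont η ε).comp hcc
  have hc1 : Continuous (fun z : E3 × E3 => om η (co b c z.1) * ⟪vb b ε, z.1 - z.2⟫) :=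
    (hoc.comp continuous_fst).mul (by fun_prop)
  obtain ⟨B1, hB1⟩ := (hK.prod hK).bddAbove_image (hc1.abs).continuousOn
  obtain ⟨B2, hB2⟩ := hK.bddAbove_image (hyc.abs).continuousOn
  have hb1 : ∀ᵐ z ∂σ, |om η (co b c z.1) * ⟪vb b ε, z.1 - z.2⟫| ≤ B1 := by
    filter_upwards [hσ] with z hz
    exact hB1 ⟨z, ⟨hz.1, hz.2⟩, rfl⟩
  have hom : ContDiff ℝ ∞ (fun x => om η (co b c x)) := (om_cd η).comp (co_cdn b c)
  -- the identity with the cut-off
  have hid : ∀ m : ℕ, (∫ z, Wf (nuw b) (cw b c) m z.1 *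
      (om η (co b c z.1) * ⟪vb b ε, z.1 - z.2⟫) ∂σ) -
      (∫ x in K, Wf (nuw b) (cw b c) m x * omv η ε (co b c x))
      = ⟪nuw b 0, vb b ε⟫ * Jw b c η K 1 m + ⟪nuw b 1, vb b ε⟫ * Jw b c η K (-1) m := by
    intro m
    have hWc : Continuous (Wf (nuw b) (cw b c) m) :=
      (Wf_cd (nuw b) (cw b c) m (n := 1)).continuous
    have h1 := hU (fun y => Wf (nuw b) (cw b c) m y • (om η (co b c y) • vb b ε))
      ((Wf_cd (nuw b) (cw b c) m).smul (hom.smul contDiff_const))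
    have h2 : ∀ z : E3 × E3, ⟪Wf (nuw b) (cw b c) m z.1 • (om η (co b c z.1) • vb b ε),
        z.1 - z.2⟫ = Wf (nuw b) (cw b c) m z.1 *
          (om η (co b c z.1) * ⟪vb b ε, z.1 - z.2⟫) := fun z => by
      rw [real_inner_smul_left, real_inner_smul_left]
    simp only [h2] at h1
    rw [h1]
    have h3 : ∀ x : E3, dvg (fun y => Wf (nuw b) (cw b c) m y • (om η (co b c y) • vb b ε)) x =
        Wf (nuw b) (cw b c) m x * omv η ε (co b c x) +
          (⟪nuw b 0, vb b ε⟫ * (omh η (Tw b c 1 x) * jk (m + 1) (Tw b c 1 x)) +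
          ⟪nuw b 1, vb b ε⟫ * (omh η (Tw b c (-1) x) * jk (m + 1) (Tw b c (-1) x))) := by
      intro x
      have hd : DifferentiableAt ℝ (fun y => om η (co b c y)) x :=
        (hom.differentiable (by simp)) x
      have h4 := dvg_smul (W := Wf (nuw b) (cw b c) m) (G := fun y => om η (co b c y) • vb b ε)
        (x := x) ((Wf_cd (nuw b) (cw b c) m (n := 1)).differentiable one_ne_zero x)
        (hd.smul_const (vb b ε))
      have h4' := dvg_smul (W := fun y => om η (co b c y)) (G := fun _ : E3 => vb b ε)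
        (x := x) hd (differentiableAt_const (vb b ε))
      have h5 : dvg (fun _ : E3 => vb b ε) x = 0 := by
        unfold dvg
        rw [fderiv_fun_const]
        simp
      rw [h5, mul_zero, zero_add, fd_omv] at h4'
      rw [h4, h4', Wf_dir, real_inner_smul_right, real_inner_smul_right,
        ← om_omh b c η (Or.inl rfl) x, ← om_omh b c η (Or.inr rfl) x]
      ring
    have h6 : (fun x : E3 => dvg (fun y => Wf (nuw b) (cw b c) m y •
        (om η (co b c y) • vb b ε)) x) =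
        fun x => Wf (nuw b) (cw b c) m x * omv η ε (co b c x) +
          (⟪nuw b 0, vb b ε⟫ * (omh η (Tw b c 1 x) * jk (m + 1) (Tw b c 1 x)) +
          ⟪nuw b 1, vb b ε⟫ * (omh η (Tw b c (-1) x) * jk (m + 1) (Tw b c (-1) x))) := funext h3
    rw [h6]
    have hi0 : IntegrableOn (fun x => Wf (nuw b) (cw b c) m x * omv η ε (co b c x)) K :=
      (hWc.mul hyc).continuousOn.integrableOn_compact hK
    have hi : ∀ ε k : ℝ, IntegrableOn
        (fun x => k * (omh η (Tw b c ε x) * jk (m + 1) (Tw b c ε x))) K := by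
      intro ε k
      refine ContinuousOn.integrableOn_compact hK (Continuous.continuousOn ?_)
      exact continuous_const.mul
        (((omh_cont η).comp (Tw_cont b c ε)).mul ((jk_cont _).comp (Tw_cont b c ε)))
    have q1 := integral_add hi0 ((hi 1 ⟪nuw b 0, vb b ε⟫).add (hi (-1) ⟪nuw b 1, vb b ε⟫))
    have q2 := integral_add (hi 1 ⟪nuw b 0, vb b ε⟫) (hi (-1) ⟪nuw b 1, vb b ε⟫)
    simp only [Pi.add_apply] at q1
    rw [q1, q2, integral_const_mul, integral_const_mul]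
    unfold Jw
    rw [int_Tw b c (Or.inl rfl) K (fun p => omh η p * jk (m + 1) p),
      int_Tw b c (Or.inr rfl) K (fun p => omh η p * jk (m + 1) p)]
    ring
  -- limit of the left side
  have hl1 : Tendsto (fun m : ℕ => ∫ z, Wf (nuw b) (cw b c) m z.1 *
      (om η (co b c z.1) * ⟪vb b ε, z.1 - z.2⟫) ∂σ) atTop
      (𝓝 (∫ z, (if z.1 ∈ Cel (nuw b) (cw b c) then 1 else 0) *
        (om η (co b c z.1) * ⟪vb b ε, z.1 - z.2⟫) ∂σ)) := by
    refine tendsto_integral_of_dominated_convergence (fun _ => B1) (fun m => ?_)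
      (integrable_const _) (fun m => ?_) (Eventually.of_forall fun z => ?_)
    · have h3 : Continuous (Wf (nuw b) (cw b c) m) :=
        (Wf_cd (nuw b) (cw b c) m (n := 1)).continuous
      exact ((h3.comp continuous_fst).mul hc1).aestronglyMeasurable
    · filter_upwards [hb1] with z hz
      rw [Real.norm_eq_abs, abs_mul, abs_of_nonneg (Wf_nonneg _ _ _ _)]
      exact (mul_le_of_le_one_left (abs_nonneg _) (Wf_le _ _ _ _)).trans hz
    · exact (Wf_lim (nuw b) (cw b c) z.1).mul_const _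
  have e1 : ∫ z, (if z.1 ∈ Cel (nuw b) (cw b c) then (1 : ℝ) else 0) *
      (om η (co b c z.1) * ⟪vb b ε, z.1 - z.2⟫) ∂σ
      = ∫ z in {z | z.1 ∈ Cel (nuw b) (cw b c)}, om η (co b c z.1) *
        ⟪vb b ε, z.1 - z.2⟫ ∂σ := by
    have hm : MeasurableSet {z : E3 × E3 | z.1 ∈ Cel (nuw b) (cw b c)} :=
      (hCo.preimage continuous_fst).measurableSet
    rw [← integral_indicator hm]
    refine integral_congr_ae (Eventually.of_forall fun z => ?_)
    by_cases h : z.1 ∈ Cel (nuw b) (cw b c)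
    · rw [indicator_of_mem (show z ∈ {z : E3 × E3 | z.1 ∈ Cel (nuw b) (cw b c)} from h)]
      simp only [if_pos h, one_mul]
    · rw [indicator_of_notMem (show z ∉ {z : E3 × E3 | z.1 ∈ Cel (nuw b) (cw b c)} from h)]
      simp only [if_neg h, zero_mul]
  rw [e1] at hl1
  -- limit of the volume part
  have hvK : volume K < ⊤ := hK.measure_lt_top
  have hl2 : Tendsto (fun m : ℕ => ∫ x in K, Wf (nuw b) (cw b c) m x * omv η ε (co b c x)) atTop
      (𝓝 (∫ x in K, (if x ∈ Cel (nuw b) (cw b c) then 1 else 0) * omv η ε (co b c x))) := by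
    have : IsFiniteMeasure (volume.restrict K) := ⟨by
      rw [Measure.restrict_apply_univ]; exact hvK⟩
    refine tendsto_integral_of_dominated_convergence (fun _ => B2) (fun m => ?_)
      (integrable_const _) (fun m => ?_) (Eventually.of_forall fun x => ?_)
    · have h3 : Continuous (Wf (nuw b) (cw b c) m) :=
        (Wf_cd (nuw b) (cw b c) m (n := 1)).continuous
      exact (h3.mul hyc).aestronglyMeasurable
    · filter_upwards [ae_restrict_mem hKm] with x hx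
      rw [Real.norm_eq_abs, abs_mul, abs_of_nonneg (Wf_nonneg _ _ _ _)]
      exact (mul_le_of_le_one_left (abs_nonneg _) (Wf_le _ _ _ _)).trans (hB2 ⟨x, hx, rfl⟩)
    · exact (Wf_lim (nuw b) (cw b c) x).mul_const _
  have e2 : ∫ x in K, (if x ∈ Cel (nuw b) (cw b c) then (1 : ℝ) else 0) * omv η ε (co b c x)
      = ∫ x in K ∩ Cel (nuw b) (cw b c), omv η ε (co b c x) := by
    rw [← setIntegral_indicator hCo.measurableSet]
    refine integral_congr_ae (Eventually.of_forall fun x => ?_)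
    by_cases h : x ∈ Cel (nuw b) (cw b c)
    · simp only [indicator_of_mem h, if_pos h, one_mul]
    · simp only [indicator_of_notMem h, if_neg h, zero_mul]
  rw [e2] at hl2
  exact (hl1.sub hl2).congr hid

/-! ### weighted upper bound of a wall integral -/

theorem int_layer_w {M : ℝ} (hM : 0 < M) (Ω : Set (ℝ × ℝ)) (g : ℝ × ℝ → ℝ) :
    ∫ p in Ω ×ˢ Ioo (0 : ℝ) (1 / M), g p.1 *
      (fun l : ℝ => M * deriv Real.smoothTransition (l * M)) p.2 = ∫ r in Ω, g r := by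
  have h := setIntegral_prod_mul (μ := (volume : Measure (ℝ × ℝ))) (ν := (volume : Measure ℝ))
    g (fun l : ℝ => M * deriv Real.smoothTransition (l * M)) Ω (Ioo (0 : ℝ) (1 / M))
  have h2 : (volume : Measure (ℝ × ℝ)).prod (volume : Measure ℝ) = volume := rfl
  rw [h2] at h
  rw [h, int_g hM, mul_one]

theorem wall_upper_w {M : ℝ} (hM : 0 < M) {B : Set ((ℝ × ℝ) × ℝ)} (hB : IsCompact B)
    {Ω : Set (ℝ × ℝ)} (hΩ : MeasurableSet Ω) (hΩb : Bornology.IsBounded Ω)
    (h : ∀ r : ℝ × ℝ, ∀ l ∈ Ioo (0 : ℝ) (1 / M), (r, l) ∈ B → 0 < √2 * r.2 - l → r ∈ Ω)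
    {g : ℝ × ℝ → ℝ} (hg : Continuous g) (hgΩ : ∀ r ∈ Ω, 0 ≤ g r) :
    ∫ p in B, g p.1 * jk M p ≤ ∫ r in Ω, g r := by
  set S : Set ((ℝ × ℝ) × ℝ) := Ω ×ˢ Ioo (0 : ℝ) (1 / M) with hS
  have hSm : MeasurableSet S := hΩ.prod measurableSet_Ioo
  have hSb : Bornology.IsBounded S := hΩb.prod (isBounded_Ioo _ _)
  have hk : Continuous (fun l : ℝ => M * deriv Real.smoothTransition (l * M)) :=
    continuous_const.mul (st_deriv_cont.comp (continuous_id.mul continuous_const))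
  have hc : Continuous (fun p : (ℝ × ℝ) × ℝ => g p.1 *
      (fun l : ℝ => M * deriv Real.smoothTransition (l * M)) p.2) :=
    (hg.comp continuous_fst).mul (hk.comp continuous_snd)
  have hintS : IntegrableOn (fun p : (ℝ × ℝ) × ℝ => g p.1 *
      (fun l : ℝ => M * deriv Real.smoothTransition (l * M)) p.2) S :=
    (hc.continuousOn.integrableOn_compact hSb.isCompact_closure).mono_set subset_closure
  have hint : IntegrableOn (fun p : (ℝ × ℝ) × ℝ => g p.1 * jk M p) B :=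
    ((hg.comp continuous_fst).mul (jk_cont M)).continuousOn.integrableOn_compact hB
  have h1 : ∫ p in B, g p.1 * jk M p = ∫ p in B ∩ S, g p.1 * jk M p := by
    rw [← setIntegral_indicator hSm]
    refine integral_congr_ae ?_
    filter_upwards [ae_restrict_mem hB.measurableSet] with p hp
    by_cases hpS : p ∈ S
    · rw [indicator_of_mem hpS]
    · rw [indicator_of_notMem hpS]
      rw [jk_zero hM fun hcon => hpS ⟨?_, hcon.1⟩, mul_zero]
      exact h p.1 p.2 hcon.1 hp hcon.2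
  rw [h1, ← int_layer_w hM Ω g]
  have h2 : ∫ p in B ∩ S, g p.1 * jk M p ≤ ∫ p in B ∩ S, g p.1 *
      (fun l : ℝ => M * deriv Real.smoothTransition (l * M)) p.2 := by
    refine setIntegral_mono_on (hint.mono_set inter_subset_left)
      (hintS.mono_set inter_subset_right) (hB.measurableSet.inter hSm) fun p hp => ?_
    have h3 := jk_le hM p
    rw [one_mul] at h3
    exact mul_le_mul_of_nonneg_left h3 (hgΩ p.1 hp.2.1)
  refine h2.trans (setIntegral_mono_set hintS ?_ inter_subset_right.eventuallyLE)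
  refine (ae_restrict_iff' hSm).2 (ae_of_all _ fun p hp => ?_)
  exact mul_nonneg (hgΩ p.1 hp.1) (mul_nonneg hM.le (st_deriv_nonneg _))

theorem rx_mp : MeasurePreserving (fun r : ℝ × ℝ => (-r.1, r.2)) volume volume :=
  (Measure.measurePreserving_neg (volume : Measure ℝ)).prod (MeasurePreserving.id volume)

theorem rx_emb : MeasurableEmbedding (fun r : ℝ × ℝ => (-r.1, r.2)) :=
  ((MeasurableEquiv.neg ℝ).prodCongr (MeasurableEquiv.refl ℝ)).measurableEmbedding

theorem Wup_refl (e : ℝ) : (fun r : ℝ × ℝ => (-r.1, r.2)) ⁻¹' Wup e = Wup e := by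
  ext r
  unfold Wup regionBetween W0
  simp only [mem_preimage, mem_ofPred_eq, mem_Icc, mem_Ioo, neg_sq]
  constructor
  · rintro ⟨⟨h1, h2⟩, h3⟩
    exact ⟨⟨by linarith, by linarith⟩, h3⟩
  · rintro ⟨⟨h1, h2⟩, h3⟩
    exact ⟨⟨by linarith, by linarith⟩, h3⟩

theorem Wup_int {e : ℝ} (he : 0 ≤ e) (k : ℝ) :
    ∫ r in Wup e, (1 / 2 + k * r.1) = 1 / 2 * (√2 / 2 * cz + √2 / 3 * e) := by
  have hc1 : Continuous fun r : ℝ × ℝ => r.1 := continuous_fst
  have i1 : IntegrableOn (fun r : ℝ × ℝ => r.1) (Wup e) :=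
    (hc1.continuousOn.integrableOn_compact (Wup_bdd e).isCompact_closure).mono_set subset_closure
  have i0 : IntegrableOn (fun _ : ℝ × ℝ => (1 / 2 : ℝ)) (Wup e) :=
    (continuous_const.continuousOn.integrableOn_compact
      (Wup_bdd e).isCompact_closure).mono_set subset_closure
  have h := rx_mp.setIntegral_preimage_emb rx_emb (fun r : ℝ × ℝ => r.1) (Wup e)
  rw [Wup_refl] at h
  simp only at h
  rw [integral_neg] at h
  have h0 : ∫ r in Wup e, r.1 = 0 := by linarith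
  rw [integral_add i0 (i1.const_mul k), integral_const_mul, h0, mul_zero, add_zero,
    setIntegral_const, smul_eq_mul, Wup_area he]
  ring

variable {b c} in
/-- the sections by a wall are in the upper region -/
theorem up_mem {K : Set E3} {s1 s2 s3 s4 s' : ℝ} (h : Bod b c K s1 s2 s3 s4) (hs' : 0 ≤ s')
    {ε : ℝ} (hε : ε = 1 ∧ s4 ≤ s' ∨ ε = -1 ∧ s3 ≤ s') (m : ℕ) (r : ℝ × ℝ) (l : ℝ)
    (hl : l ∈ Ioo (0 : ℝ) (1 / ((m : ℝ) + 1))) (hx : (r, l) ∈ Tw b c ε '' K)
    (hlW : 0 < √2 * r.2 - l) : r ∈ Wup (s' + 2 / ((m : ℝ) + 1)) := by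
  obtain ⟨X, W⟩ := r
  obtain ⟨hl0, hl1⟩ := hl
  obtain ⟨x, hxK, hx⟩ := hx
  have h2 := r2
  simp only at hlW
  have hεε : ε * ε = 1 := by rcases hε with h | h <;> rw [h.1] <;> norm_num
  have e1 : (co b c x).1 = X := congrArg (fun q : (ℝ × ℝ) × ℝ => q.1.1) hx
  have e2 : (co b c x).2.2 - √2 / 4 = W := congrArg (fun q : (ℝ × ℝ) × ℝ => q.1.2) hx
  have e3 : √2 / 2 * ((co b c x).2.2 - √2 / 4) - ε * (co b c x).2.1 = l :=
    congrArg (fun q : (ℝ × ℝ) × ℝ => q.2) hx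
  rw [e2] at e3
  have hX := h.X_le x hxK
  have hW := h.W_le x hxK
  have hQ : (co b c x).1 ^ 2 + (co b c x).2.1 ^ 2 + ((co b c x).2.2 - √2 / 4) ^ 2
    + ε * (co b c x).2.1 + √2 * ((co b c x).2.2 - √2 / 4) - 1 / 4 ≤ s' := by
    rcases hε with ⟨h3, h4⟩ | ⟨h3, h4⟩
    · have := h.Q4 x hxK
      rw [h3]; linarith
    · have := h.Q3 x hxK
      rw [h3]; linarith
  rw [e1] at hX hQ
  rw [e2] at hW hQ
  set Y := (co b c x).2.1 with hY
  have hYl : ε * Y = √2 / 2 * W - l := by linarith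
  have hY2 : Y ^ 2 = (√2 / 2 * W - l) ^ 2 := by
    rw [← hYl]; linear_combination -(Y ^ 2) * hεε
  rw [hY2, hYl] at hQ
  have hlM : l * (1 + √2 * W) ≤ 3 / 2 * l := by
    have : l * (1 + √2 * W) ≤ l * (1 + 1 / 2) := mul_le_mul_of_nonneg_left (by linarith) hl0.le
    linarith
  have hqw : qw X W ≤ 1 / 4 + (s' + 3 / 2 * (1 / ((m : ℝ) + 1))) := by
    have h5 : qw X W = (X ^ 2 + (√2 / 2 * W - l) ^ 2 + W ^ 2 + (√2 / 2 * W - l) + √2 * W - 1 / 4)
        + 1 / 4 + l * (1 + √2 * W) - l ^ 2 := by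
      unfold qw
      linear_combination -(W ^ 2) / 4 * h2
    have h6 : 0 ≤ l ^ 2 := sq_nonneg l
    have h7 : 3 / 2 * l ≤ 3 / 2 * (1 / ((m : ℝ) + 1)) := by linarith
    linarith
  have hpos : (0 : ℝ) < 1 / ((m : ℝ) + 1) := by positivity
  have h8 : (2 : ℝ) / (m + 1) = 2 * (1 / ((m : ℝ) + 1)) := by ring
  have hup := up_in (e' := s' + 2 / ((m : ℝ) + 1)) hX (by positivity)
    (by rw [h8]; linarith) hqw
  unfold Wup regionBetween
  simp only [mem_ofPred_eq, mem_Ioo]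
  refine ⟨abs_le.1 hX, ?_, hup⟩
  by_contra hcon
  rw [not_lt] at hcon
  have : √2 * W ≤ 0 := mul_nonpos_of_nonneg_of_nonpos (by positivity) hcon
  linarith

/-- the weight in wall coordinates is at most its value on the edge -/
theorem omh_le {η : ℝ} (hη : |η| ≤ 1) {p : (ℝ × ℝ) × ℝ} (hX : |p.1.1| ≤ 1 / 2) :
    omh η p ≤ 1 / 2 + η * (7 / 16) * p.1.1 := by
  have h1 : |η * p.1.1| ≤ |p.1.1| := by
    rw [abs_mul]; exact mul_le_of_le_one_left (abs_nonneg _) hη
  obtain ⟨h2, h3⟩ := abs_le.1 h1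
  have hP : 0 ≤ 1 / 2 + η * (7 / 16) * p.1.1 := by linarith
  unfold omh
  rw [div_le_iff₀ (by positivity)]
  have hq : 0 ≤ p.1.1 ^ 2 / 8 + ((√2 / 2 * p.1.2 - p.2) ^ 2 + p.1.2 ^ 2) := by positivity
  nlinarith [mul_nonneg hP hq]

variable {b c} in
/-- upper bound of the weighted wall integral -/
theorem Jw_upper {K : Set E3} {s1 s2 s3 s4 s' : ℝ} (hK : IsCompact K)
    (h : Bod b c K s1 s2 s3 s4) (hs' : 0 ≤ s') {η : ℝ} (hη : |η| ≤ 1) {ε : ℝ}
    (hε : ε = 1 ∧ s4 ≤ s' ∨ ε = -1 ∧ s3 ≤ s') (m : ℕ) :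
    Jw b c η K ε m ≤ 1 / 2 * (√2 / 2 * cz + √2 / 3 * (s' + 2 / (m + 1))) := by
  have hM : (0 : ℝ) < m + 1 := by positivity
  have he' : 0 ≤ s' + 2 / ((m : ℝ) + 1) := by positivity
  have hBc : IsCompact (Tw b c ε '' K) := hK.image (Tw_cont b c ε)
  have hX : ∀ p ∈ Tw b c ε '' K, |p.1.1| ≤ 1 / 2 := by
    rintro p ⟨x, hx, rfl⟩
    exact h.X_le x hx
  have hg : Continuous (fun r : ℝ × ℝ => 1 / 2 + η * (7 / 16) * r.1) := by fun_prop
  have i1 : IntegrableOn (fun p => omh η p * jk (m + 1) p) (Tw b c ε '' K) :=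
    ((omh_cont η).mul (jk_cont _)).continuousOn.integrableOn_compact hBc
  have i2 : IntegrableOn (fun p : (ℝ × ℝ) × ℝ => (1 / 2 + η * (7 / 16) * p.1.1) *
      jk (m + 1) p) (Tw b c ε '' K) :=
    ((hg.comp continuous_fst).mul (jk_cont _)).continuousOn.integrableOn_compact hBc
  have h1 : Jw b c η K ε m ≤ ∫ p in Tw b c ε '' K, (1 / 2 + η * (7 / 16) * p.1.1) *
      jk (m + 1) p := by
    unfold Jw
    exact setIntegral_mono_on i1 i2 hBc.measurableSet fun p hp =>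
      mul_le_mul_of_nonneg_right (omh_le hη (hX p hp)) (jk_nonneg hM p)
  refine h1.trans ?_
  rw [← Wup_int he' (η * (7 / 16))]
  refine wall_upper_w hM hBc (Wup_meas _) (Wup_bdd _) (up_mem h hs' hε m) hg ?_
  rintro r ⟨hr, _⟩
  have h2 : |r.1| ≤ 1 / 2 := abs_le.2 hr
  have h3 : |η * r.1| ≤ |r.1| := by
    rw [abs_mul]; exact mul_le_of_le_one_left (abs_nonneg _) hη
  obtain ⟨h4, h5⟩ := abs_le.1 h3
  linarith

theorem nuw_vb (ε : ℝ) : ⟪nuw b 0, vb b ε⟫ = -ε - 1 / 2 ∧ ⟪nuw b 1, vb b ε⟫ = ε - 1 / 2 := by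
  obtain ⟨h02, h01, h11⟩ := nuw_b b 0
  obtain ⟨h12, _, _⟩ := nuw_b b 1
  have h2 := r2
  unfold vb
  rw [inner_sub_right, inner_sub_right, real_inner_smul_right, real_inner_smul_right,
    real_inner_smul_right, real_inner_smul_right, h02, h01, h11, h12]
  constructor <;> linear_combination (-(1 / 4 : ℝ)) * h2

theorem cz_hi : cz ≤ 0.10461 := by
  have h3 : (1.73205 : ℝ) < √3 := by
    rw [Real.lt_sqrt (by norm_num)]
    norm_num
  have h4 := Real.pi_lt_d6
  have h5 : Real.pi / (3 * √3) ≤ 0.60461 := by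
    rw [div_le_iff₀ (by positivity)]
    nlinarith
  unfold cz
  linarith

variable {b c} in
/-- **the flux of the gradient of a barycentric coordinate** through the cell -/
theorem fluxv {σ : Measure (E3 × E3)} [IsFiniteMeasure σ] {K : Set E3} (hK : IsCompact K)
    (hσ : ∀ᵐ z ∂σ, z.1 ∈ K ∧ z.2 ∈ K)
    (hU : ∀ G : E3 → E3, ContDiff ℝ ∞ G → ∫ z, ⟪G z.1, z.1 - z.2⟫ ∂σ = ∫ x in K, dvg G x)
    {s1 s2 s3 s4 s' : ℝ} (h : Bod b c K s1 s2 s3 s4) (hs' : 0 ≤ s') {η : ℝ} (hη : |η| ≤ 1)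
    {ε : ℝ} (hε : ε = 1 ∧ s4 ≤ s' ∨ ε = -1 ∧ s3 ≤ s') :
    -(∫ z in {z | z.1 ∈ EC b c}, om η (co b c z.1) * ⟪vb b ε, z.1 - z.2⟫ ∂σ) ≤
      0.03699 + 0.3866 * s' + 0.0872 * (s1 + s2) := by
  have hl := fluxv_lim b c hK hσ hU η ε
  rw [cel_eq] at hl
  have h1 := lim_inv
  have k1 := h.s1_nn
  have k2 := h.s2_nn
  have hε1 : ε = 1 ∨ ε = -1 := by
    rcases hε with h | h
    · exact Or.inl h.1
    · exact Or.inr h.1
  have hlim : Tendsto (fun m : ℕ => 1 / 2 * (√2 / 2 * cz + √2 / 3 * (s' + 2 * (1 / ((m : ℝ) + 1))))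
      + 1 / 2 * (0.64 * (√2 / 3 * (0.5774 * (s1 + s2) + s' + 4 * (1 / ((m : ℝ) + 1)))
        + √2 * (1 / ((m : ℝ) + 1))))) atTop
      (𝓝 (1 / 2 * (√2 / 2 * cz + √2 / 3 * s')
      + 1 / 2 * (0.64 * (√2 / 3 * (0.5774 * (s1 + s2) + s'))))) := by
    have h5 := (((h1.const_mul 2).const_add s').const_mul (√2 / 3)).const_add (√2 / 2 * cz)
    have h6 := ((((h1.const_mul 4).const_add (0.5774 * (s1 + s2) + s')).const_mul
      (√2 / 3)).add (h1.const_mul √2)).const_mul 0.64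
    have h7 := (h5.const_mul (1 / 2)).add (h6.const_mul (1 / 2))
    simpa using h7
  have hvol : 0 ≤ ∫ x in K ∩ EC b c, omv η ε (co b c x) := by
    have hKm : MeasurableSet K := hK.isClosed.measurableSet
    refine setIntegral_nonneg (hKm.inter (EC_open b c).measurableSet) fun x hx => ?_
    exact omv_nonneg b c hη hε1 (h.X_le x hx.1) hx.2
  have hle : 1 / 2 * (√2 / 2 * cz + √2 / 3 * s')
      + 1 / 2 * (0.64 * (√2 / 3 * (0.5774 * (s1 + s2) + s'))) ≤
      0.03699 + 0.3866 * s' + 0.0872 * (s1 + s2) := by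
    have s2q : √2 < 1.41422 := by
      rw [Real.sqrt_lt' (by norm_num)]; norm_num
    have s20 : 0 ≤ √2 := Real.sqrt_nonneg _
    have hcz := cz_hi
    have hu : 0 ≤ s1 + s2 := by linarith
    have e1 : √2 * cz ≤ 1.41422 * 0.10461 := by
      refine (mul_le_mul_of_nonneg_left hcz s20).trans ?_
      exact mul_le_mul_of_nonneg_right s2q.le (by norm_num)
    have e2 := mul_le_mul_of_nonneg_right s2q.le hs'
    have e3 := mul_le_mul_of_nonneg_right s2q.le hu
    linarith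
  have hmain : -((∫ z in {z | z.1 ∈ EC b c}, om η (co b c z.1) * ⟪vb b ε, z.1 - z.2⟫ ∂σ) -
      ∫ x in K ∩ EC b c, omv η ε (co b c x)) ≤
      1 / 2 * (√2 / 2 * cz + √2 / 3 * s')
      + 1 / 2 * (0.64 * (√2 / 3 * (0.5774 * (s1 + s2) + s'))) := by
    refine le_of_tendsto_of_tendsto' hl.neg hlim fun m => ?_
    obtain ⟨n0, n1⟩ := nuw_vb b ε
    rw [n0, n1]
    have h5 := Jw_upper hK h hs' hη hε m
    have h6 := Jw_diff hK h hs' hη hε m
    have e2 : (2 : ℝ) / (m + 1) = 2 * (1 / ((m : ℝ) + 1)) := by ring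
    rw [e2] at h5
    rcases hε with ⟨h7, _⟩ | ⟨h7, _⟩
    · rw [h7] at h5 h6 ⊢
      linarith
    · rw [h7] at h5 h6 ⊢
      rw [neg_neg] at h6
      linarith
  linarith

/-! ### the moments -/

section main
variable {a : Fin 4 → E3} (ha : ∀ i j, i ≠ j → dist (a i) (a j) = 1)
  {K : Set E3} {σ : Measure (E3 × E3)} [IsFiniteMeasure σ] (h : PM K σ)
  (hcomp : ∀ p : E3, (∀ q ∈ K, dist p q ≤ 1) → p ∈ K)
  (hpl : ∀ x ∈ K, Pl a x) {b : OrthonormalBasis (Fin 3) ℝ E3} (hb : Fr a b)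
  {S : Fin 4 → ℝ} (hQ : ∀ x ∈ K, ∀ i, Qv a i x ≤ S i) (hS0 : ∀ i, 0 ≤ S i)

include ha hb in
theorem bar_diff (x q : E3) : bar a 2 x - bar a 2 q = ⟪vb b 1, x - q⟫ ∧
    bar a 3 x - bar a 3 q = ⟪vb b (-1), x - q⟫ := by
  have hG := gram_of_dist ha
  obtain ⟨_, fy, fz⟩ := frame_e hG hb.1 hb.2.1 hb.2.2 x
  obtain ⟨_, gy, gz⟩ := frame_e hG hb.1 hb.2.1 hb.2.2 q
  have e1 : ⟪b 1, x - q⟫ = eY a x - eY a q := by
    rw [← fy, ← gy, ← inner_sub_right]
    congr 1
    abel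
  have e2 : ⟪b 2, x - q⟫ = eW a x - eW a q := by
    have e3 : ⟪b 2, x - q⟫ = ⟪b 2, x - cen a⟫ - ⟪b 2, q - cen a⟫ := by
      rw [← inner_sub_right]
      congr 1
      abel
    rw [e3, fz, gz]
    ring
  have h2 := r2
  unfold vb
  rw [inner_sub_left, inner_sub_left, real_inner_smul_left, real_inner_smul_left,
    real_inner_smul_left, e1, e2]
  unfold eY eW
  constructor
  · linear_combination (-1 / 4 * ((bar a 2 x + bar a 3 x) - (bar a 2 q + bar a 3 q))) * h2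
  · linear_combination (-1 / 4 * ((bar a 2 x + bar a 3 x) - (bar a 2 q + bar a 3 q))) * h2

include ha h hcomp hpl hb hQ hS0 in
/-- **moments of the full weight**: `k = 2` with `s' ≥ S 3`, `k = 3` with `s' ≥ S 2` -/
theorem wt_mom (i : Bool) {k : Fin 4} {s' : ℝ} (hk : k = 2 ∧ S 3 ≤ s' ∨ k = 3 ∧ S 2 ≤ s') :
    ∫ z in Zp a 2 3, Helper37.MEI.wt a i z.1 * bar a k z.2 ∂σ ≤
      0.03699 + 0.3866 * s' + 0.0872 * (S 0 + S 1) := by
  have hG := gram_of_dist ha
  have hB := Helper21.Alp.bod ha hcomp hpl hb hQ hS0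
  have hs' : 0 ≤ s' := by
    rcases hk with h | h
    · exact (hS0 3).trans h.2
    · exact (hS0 2).trans h.2
  set ε : ℝ := if k = 2 then 1 else -1 with hεd
  have hε : ε = 1 ∧ S 3 ≤ s' ∨ ε = -1 ∧ S 2 ≤ s' := by
    rcases hk with ⟨h1, h2⟩ | ⟨h1, h2⟩
    · left
      rw [hεd, if_pos h1]
      exact ⟨rfl, h2⟩
    · right
      rw [hεd, if_neg (by rw [h1]; decide)]
      exact ⟨rfl, h2⟩
  have h1 := fluxv h.cpt h.mem h.flux hB hs' (sg_abs i) hε
  rw [← Helper21.Alp.Zp_eq ha hb] at h1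
  have hd : ∀ x q, bar a k x - bar a k q = ⟪vb b ε, x - q⟫ := by
    intro x q
    obtain ⟨h2, h3⟩ := bar_diff ha hb x q
    rcases hk with ⟨h4, _⟩ | ⟨h4, _⟩
    · rw [hεd, if_pos h4, h4]
      exact h2
    · rw [hεd, if_neg (by rw [h4]; decide), h4]
      exact h3
  have hwc := Helper37.MEI.wt_cont a i
  have hbc := Pool.Agent.Helper95.MEI.Fub.bar_cont a k
  have i1 : Integrable (fun z : E3 × E3 => Helper37.MEI.wt a i z.1 * bar a k z.2) σ :=
    int_cont h.cpt h.mem ((hwc.comp continuous_fst).mul (hbc.comp continuous_snd))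
  have i2 : Integrable (fun z : E3 × E3 => om (sg i) (co b (cen a) z.1) *
      ⟪vb b ε, z.1 - z.2⟫) σ := by
    refine int_cont h.cpt h.mem ?_
    have h2 : Continuous (fun x : E3 => om (sg i) (co b (cen a) x)) :=
      ((om_cd (sg i) (n := 0)).continuous).comp (co_cd b (cen a)).continuous
    exact (h2.comp continuous_fst).mul (by fun_prop)
  have h3 : ∫ z in Zp a 2 3, Helper37.MEI.wt a i z.1 * bar a k z.2 ∂σ ≤
      ∫ z in Zp a 2 3, -(om (sg i) (co b (cen a) z.1) * ⟪vb b ε, z.1 - z.2⟫) ∂σ := by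
    refine integral_mono_ae i1.integrableOn i2.neg.integrableOn ?_
    filter_upwards [ae_restrict_mem (Zp_meas a 2 3), ae_restrict_of_ae (s := Zp a 2 3) h.mem]
      with z hz hm
    have hw0 := Helper37.MEI.wt_nonneg hG i (hpl _ hm.1)
    have hbx : bar a k z.1 ≤ 0 := by
      obtain ⟨h4, h5⟩ := hz
      rcases hk with ⟨h6, _⟩ | ⟨h6, _⟩
      · rw [h6]; exact h4.le
      · rw [h6]; exact h5.le
    have h7 := hd z.1 z.2
    rw [← wt_om ha hb i z.1, ← h7]
    have h8 := mul_nonneg hw0 (neg_nonneg.2 hbx)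
    linarith
  rw [integral_neg] at h3
  exact h3.trans h1

end main

/-! ### all cells -/

section six
variable {a : Fin 4 → E3} {K : Set E3} {σ : Measure (E3 × E3)}

/-- **moments of the full weight of an arc**: the bound of the coordinate `k` contains the level of
the other vertex `k'` of the arc -/
theorem wt_mom_all [IsFiniteMeasure σ] (h : PM K σ) (ha : ∀ i j, i ≠ j → dist (a i) (a j) = 1)
    (hull : ∀ p, (∀ q ∈ K, ‖p - q‖ ≤ 1) → p ∈ K) (hp : ∀ x ∈ K, Pl a x)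
    {B : Fin 3 → Bool → OrthonormalBasis (Fin 3) ℝ E3}
    (hB : ∀ m e, Fr (fun i => a (pr m e i)) (B m e)) {S : Fin 4 → ℝ} (hS0 : ∀ i, 0 ≤ S i)
    (hQ : ∀ i, ∀ q ∈ K, Qv a i q ≤ S i) (m : Fin 3) (e i : Bool) {k k' : Fin 4}
    (hk : k = 2 ∧ k' = 3 ∨ k = 3 ∧ k' = 2) :
    ∫ z in Helper37.MEI.EE a m e, Helper37.MEI.wt (Helper37.MEI.ap a m e) i z.1 *
      bar a (pf m e k) z.2 ∂σ ≤
      0.03699 + 0.3866 * S (pf m e k') + 0.0872 * (S (pf m e 0) + S (pf m e 1)) := by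
  have ha' := Helper37.MEI.hap ha m e
  have hb : Fr (Helper37.MEI.ap a m e) (B m e) := hB m e
  have hcomp : ∀ p : E3, (∀ q ∈ K, dist p q ≤ 1) → p ∈ K := fun p hpp =>
    hull p fun q hq => by rw [← dist_eq_norm]; exact hpp q hq
  have hp' : ∀ x ∈ K, Pl (Helper37.MEI.ap a m e) x := fun x hx => Pl_perm _ (hp x hx)
  have hQ' : ∀ x ∈ K, ∀ j, Qv (Helper37.MEI.ap a m e) j x ≤ S (pf m e j) :=
    fun x hx j => hQ (pf m e j) x hx
  have hS' : ∀ j, 0 ≤ S (pf m e j) := fun j => hS0 _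
  have h1 := wt_mom ha' h hcomp hp' hb hQ' hS' i (k := k) (s' := S (pf m e k')) (by
    rcases hk with ⟨h1, h2⟩ | ⟨h1, h2⟩
    · left
      rw [h2]
      exact ⟨h1, le_rfl⟩
    · right
      rw [h2]
      exact ⟨h1, le_rfl⟩)
  have hbk : ∀ x, bar (Helper37.MEI.ap a m e) k x = bar a (pf m e k) x := fun x =>
    bar_perm (pr m e) k x
  simp only [hbk] at h1
  exact h1

end six

end Helper41.ArcW
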