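import Pool.Agent.Helper41.MEI.ArcS
import Pool.Agent.Helper78.MEI.Reg32

/-!
# Project MEI (M2), regime I: losses which leave most of the negative part to the Fubini step

`lg a i z` keeps only the multiple `.0604` of the negative part of the other vertex; this makes the
third coordinate of the loss pairs nonpositive for `S ≤ .002`, and `.392` of the Fubini term
survives.
-/

namespace Helper41.MEI

open Set Metric MeasureTheory Helper80.CW Helper14.CW Helper14.MEI2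
open Helper93.MEI Helper37.MEI
open Pool.Agent.Helper8.MEI (DD DD_pos)
open Pool.Agent.Helper73.MEI (PM TE TE_exc pf pr pr_apply pf_bij beE)
open Pool.Agent.Helper95.MEI.Fub (Zp exc exc_cont eX_cont eY_cont eW_cont Qv_cont pp_cont
  DDe_cont int_cont Zp_meas hB hB_cont hB_nonneg hA hA_nonneg mir mir_Pl mir_perm mir_gram mir_Zp
  mir_eX mir_eY mir_eW mir_eV mir_hB fub_sets Y_le)
open scoped RealInnerProductSpace Real

/-! ### the real lemma -/

theorem zero_real {x y u v w Q Q' : ℝ} (h1 : x + y + u + v = 1)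
    (a1 : x - u ≤ 1) (a2 : x - v ≤ 1) (a3 : y - u ≤ 1) (a4 : y - v ≤ 1)
    (a5 : u - v ≤ 1) (a6 : v - u ≤ 1) (a7 : u - x ≤ 1) (a8 : v - x ≤ 1)
    (hQ : Q = 1 / 2 * ((1 - x) ^ 2 + y ^ 2 + u ^ 2 + v ^ 2) - 1) (hQ' : Q' = Q - (y - x))
    (hw : w ≤ 23 / 32) (hS : Q ≤ 0.002) (hy : 0 < y) :
    w * pp Q - 0.0604 * pp (-Q') ≤ 0 := by
  by_contra hN
  push Not at hN
  have hv : v = 1 - x - y - u := by linarith
  rcases le_or_gt Q 0 with hQ0 | hQ0
  · have e : pp Q = 0 := max_eq_right hQ0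
    rw [e] at hN
    have := pp_nonneg (-Q')
    linarith
  have eQ : pp Q = Q := max_eq_left hQ0.le
  rw [eQ] at hN
  have h2 : -Q' ≤ pp (-Q') := le_pp _
  have h3 : w * Q ≤ 23 / 32 * Q := mul_le_mul_of_nonneg_right hw hQ0.le
  have l : y - x < 12.9 * Q := by linarith
  have k3 : (u - (1 - x - y - u)) ^ 2 ≤ 1 := by
    rw [sq_le_one_iff_abs_le_one, abs_le]
    constructor <;> linarith
  have c2 : 2 * Q ≤ -(3 * x) - y + 3 / 2 * x ^ 2 + 3 / 2 * y ^ 2 + x * y := by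
    rw [hQ, hv]
    linarith
  rcases le_or_gt 0 x with hx | hx
  · have b1 : 0 ≤ x * (3 - 3 * x - y) := mul_nonneg hx (by linarith)
    have b2 : 0 ≤ x * (3 - x - 3 * y) := mul_nonneg hx (by linarith)
    have b3 : y * y ≤ y * (x + 0.0258) := mul_le_mul_of_nonneg_left (by linarith) hy.le
    linarith
  · obtain ⟨β, hβ⟩ : ∃ β, β = -x := ⟨_, rfl⟩
    have hx' : x = -β := by linarith
    subst hx'
    have hβ0 : 0 < β := by linarith
    have c1 : Q ≤ 3 * β ^ 2 - 2 * β * y + y ^ 2 := by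
      rw [hQ, hv]
      have k : 0 ≤ (1 - β - u) * (1 - β - (1 - -β - y - u)) :=
        mul_nonneg (by linarith) (by linarith)
      linarith
    have l1 : β < 12.9 * Q := by linarith
    have l2 : y < 12.9 * Q := by linarith
    have q1 : 0 < 12.9 * Q := by linarith
    rcases le_or_gt y (2 * β) with h5 | h5
    · have h6 : y * y ≤ y * (2 * β) := mul_le_mul_of_nonneg_left h5 hy.le
      have h7 : Q ≤ 3 * β ^ 2 := by linarith
      have h8 : β ^ 2 ≤ (12.9 * Q) ^ 2 := pow_le_pow_left₀ hβ0.le l1.le 2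
      have h9 : Q * Q ≤ Q * 0.002 := mul_le_mul_of_nonneg_left hS hQ0.le
      linarith
    · have h6 : 2 * β * β ≤ y * β := mul_le_mul_of_nonneg_right h5.le hβ0.le
      have h6' : 0 < β * β := mul_pos hβ0 hβ0
      have h7 : Q ≤ y ^ 2 := by linarith
      have h8 : y ^ 2 ≤ (12.9 * Q) ^ 2 := pow_le_pow_left₀ hy.le l2.le 2
      have h9 : Q * Q ≤ Q * 0.002 := mul_le_mul_of_nonneg_left hS hQ0.le
      linarith

/-! ### the losses -/

/-- loss charged to the vertex `vi i`, regime I -/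
noncomputable def lg (a : Fin 4 → E3) (i : Bool) (z : E3 × E3) : ℝ :=
  pp (wn a i z.1 * pp (Qv a (vi i) z.2) - 0.0604 * pp (-Qv a (vo i) z.2)) /
    (4 * DD (eX a z.1) (eY a z.1) (eW a z.1))

section
variable {a : Fin 4 → E3}

theorem lg_nonneg (i : Bool) (z : E3 × E3) : 0 ≤ lg a i z :=
  div_nonneg (pp_nonneg _) (D4_pos z.1).le

theorem lg_cont (a : Fin 4 → E3) (i : Bool) : Continuous (lg a i) := by
  have h1 : Continuous fun z : E3 × E3 => wn a i z.1 := (wn_cont a i).comp continuous_fst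
  have h2 : Continuous fun z : E3 × E3 => pp (Qv a (vi i) z.2) :=
    pp_cont.comp ((Qv_cont a _).comp continuous_snd)
  have h3 : Continuous fun z : E3 × E3 => pp (-Qv a (vo i) z.2) :=
    pp_cont.comp ((Qv_cont a _).comp continuous_snd).neg
  unfold lg
  refine Continuous.div (pp_cont.comp ((h1.mul h2).sub (continuous_const.mul h3)))
    (continuous_const.mul (DDe_cont a)) fun z => (D4_pos z.1).ne'

theorem lg_le (h : Gram4 (al a)) (i : Bool) {z : E3 × E3} (hz : Pl a z.1) :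
    lg a i z ≤ wt a i z.1 * pp (Qv a (vi i) z.2) := by
  have hD := D4_pos (a := a) z.1
  rw [wt_wn, div_mul_eq_mul_div]
  apply div_le_div_of_nonneg_right _ hD.le
  have h1 := wn_ge h i hz
  have h3 := pp_nonneg (Qv a (vi i) z.2)
  have h4 := pp_nonneg (-Qv a (vo i) z.2)
  have h5 := mul_nonneg (by linarith : 0 ≤ wn a i z.1) h3
  exact max_le (by linarith) h5

theorem lg_zero (h : Gram4 (al a)) (i : Bool) {z : E3 × E3} (hz : Pl a z.1) (hq : Pl a z.2)
    (hS : Qv a (vi i) z.2 ≤ 0.002) (hb : 0 < bar a (vo i) z.2) : lg a i z = 0 := by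
  have hs := bar_sum h z.2
  have hp := (pl_iff h).1 hq
  have hD := D4_pos (a := a) z.1
  have hw : wn a i z.1 ≤ 23 / 32 := by
    have h1 := wn_ge h (!i) hz
    have h2 := wn_add (a := a) i z.1
    linarith
  have key : wn a i z.1 * pp (Qv a (vi i) z.2) - 0.0604 * pp (-Qv a (vo i) z.2) ≤ 0 := by
    cases i
    · simp only [vi, vo, Bool.false_eq_true, if_false] at hS hb ⊢
      refine zero_real (x := bar a 0 z.2) (y := bar a 1 z.2) (u := bar a 2 z.2)
        (v := bar a 3 z.2) (by linarith)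
        (hp 0 2 (by decide)) (hp 0 3 (by decide)) (hp 1 2 (by decide)) (hp 1 3 (by decide))
        (hp 2 3 (by decide)) (hp 3 2 (by decide)) (hp 2 0 (by decide)) (hp 3 0 (by decide))
        ?_ ?_ hw hS hb
      · rw [Qv_eq h]
        ring
      · rw [Qv_eq h, Qv_eq h]
        ring
    · simp only [vi, vo, if_true] at hS hb ⊢
      refine zero_real (x := bar a 1 z.2) (y := bar a 0 z.2) (u := bar a 2 z.2)
        (v := bar a 3 z.2) (by linarith)
        (hp 1 2 (by decide)) (hp 1 3 (by decide)) (hp 0 2 (by decide)) (hp 0 3 (by decide))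
        (hp 2 3 (by decide)) (hp 3 2 (by decide)) (hp 2 1 (by decide)) (hp 3 1 (by decide))
        ?_ ?_ hw hS hb
      · rw [Qv_eq h]
        ring
      · rw [Qv_eq h, Qv_eq h]
        ring
  unfold lg
  rw [show pp (wn a i z.1 * pp (Qv a (vi i) z.2) - 0.0604 * pp (-Qv a (vo i) z.2)) = 0 from
    max_eq_right key, zero_div]

/-- pointwise lower bound of the excess -/
theorem exg_ge (h : Gram4 (al a)) {z : E3 × E3} (hz : Pl a z.1)
    (hD : DD (eX a z.1) (eY a z.1) (eW a z.1) ≤ 0.2815) :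
    0.392 * hB a z.2 - (lg a false z + lg a true z) ≤ exc a z := by
  have hD4 := D4_pos (a := a) z.1
  have e1 : exc a z = (-(wn a false z.1 * Qv a 0 z.2) - wn a true z.1 * Qv a 1 z.2) /
      (4 * DD (eX a z.1) (eY a z.1) (eW a z.1)) := by
    unfold exc wn
    simp only [Bool.false_eq_true, if_false, if_true]
    congr 1
  have e2 : lg a false z + lg a true z =
      (pp (wn a false z.1 * pp (Qv a 0 z.2) - 0.0604 * pp (-Qv a 1 z.2)) +
        pp (wn a true z.1 * pp (Qv a 1 z.2) - 0.0604 * pp (-Qv a 0 z.2))) /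
      (4 * DD (eX a z.1) (eY a z.1) (eW a z.1)) := by
    unfold lg
    simp only [vi, vo, Bool.false_eq_true, if_false, if_true]
    rw [← add_div]
  rw [e1, e2, sub_le_iff_le_add, ← add_div, le_div_iff₀ hD4]
  have p0 := pp_sub (Qv a 0 z.2)
  have p1 := pp_sub (Qv a 1 z.2)
  have q0 := le_pp (wn a false z.1 * pp (Qv a 0 z.2) - 0.0604 * pp (-Qv a 1 z.2))
  have q1 := le_pp (wn a true z.1 * pp (Qv a 1 z.2) - 0.0604 * pp (-Qv a 0 z.2))
  have w0 := wn_ge h false hz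
  have w1 := wn_ge h true hz
  have n0 := pp_nonneg (-Qv a 0 z.2)
  have n1 := pp_nonneg (-Qv a 1 z.2)
  have m0 := mul_le_mul_of_nonneg_right w0 n0
  have m1 := mul_le_mul_of_nonneg_right w1 n1
  have hB0 : hB a z.2 = (pp (-Qv a 0 z.2) + pp (-Qv a 1 z.2)) / 2 := rfl
  have hBn := hB_nonneg a z.2
  have d1 : 0.392 * hB a z.2 * (4 * DD (eX a z.1) (eY a z.1) (eW a z.1)) ≤
      0.392 * hB a z.2 * (4 * 0.2815) :=
    mul_le_mul_of_nonneg_left (by linarith) (by positivity)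
  have f0 : wn a false z.1 * Qv a 0 z.2 = wn a false z.1 * pp (Qv a 0 z.2) -
      wn a false z.1 * pp (-Qv a 0 z.2) := by rw [← mul_sub, p0]
  have f1 : wn a true z.1 * Qv a 1 z.2 = wn a true z.1 * pp (Qv a 1 z.2) -
      wn a true z.1 * pp (-Qv a 1 z.2) := by rw [← mul_sub, p1]
  rw [f0, f1]
  rw [hB0] at d1 ⊢
  linarith

end

/-- the losses of one cell -/
noncomputable def Ng (σ : Measure (E3 × E3)) (a : Fin 4 → E3) : ℝ :=
  (∫ z in Zp a 2 3, lg a false z ∂σ) + ∫ z in Zp a 2 3, lg a true z ∂σ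

/-! ### the Fubini step -/

section fub
variable {a : Fin 4 → E3} (h : Gram4 (al a)) {K : Set E3} (hK : IsCompact K)
  (hpl : ∀ x ∈ K, Pl a x) (hd : ∀ x ∈ K, ∀ y ∈ K, ‖x - y‖ ≤ 1)
  {σ : Measure (E3 × E3)} [IsFiniteMeasure σ] (hσ : ∀ᵐ z ∂σ, z.1 ∈ K ∧ z.2 ∈ K)
  (hQ : ∀ x ∈ K, ∀ i, Qv a i x ≤ 0.002)

include h hK hpl hσ hQ in
theorem Tg_ge : 0.392 * (∫ z in Zp a 2 3, hB a z.2 ∂σ) - Ng σ a
    ≤ ∫ z in Zp a 2 3, exc a z ∂σ := by
  have i1 : IntegrableOn (fun z : E3 × E3 => hB a z.2) (Zp a 2 3) σ :=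
    (int_cont hK hσ ((hB_cont a).comp continuous_snd)).integrableOn
  have i2 : IntegrableOn (lg a false) (Zp a 2 3) σ := (int_cont hK hσ (lg_cont a _)).integrableOn
  have i4 : IntegrableOn (lg a true) (Zp a 2 3) σ := (int_cont hK hσ (lg_cont a _)).integrableOn
  have i3 : IntegrableOn (exc a) (Zp a 2 3) σ := (int_cont hK hσ (exc_cont a)).integrableOn
  have i5 : IntegrableOn (fun z : E3 × E3 => lg a false z + lg a true z) (Zp a 2 3) σ := i2.add i4
  unfold Ng
  rw [← integral_add i2 i4, ← integral_const_mul, ← integral_sub (i1.const_mul _) i5]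
  refine integral_mono_ae ((i1.const_mul _).sub i5) i3 ?_
  filter_upwards [ae_restrict_mem (Zp_meas a 2 3), ae_restrict_of_ae (s := Zp a 2 3) hσ] with z hz hz2
  have hr := r1_point h hz.1.le hz.2.le (hQ _ hz2.1 2) (hQ _ hz2.1 3) (by norm_num)
  exact exg_ge h (hpl _ hz2.1) hr.2.2.2.1

theorem arith1 {S S' IA IB Y X al al' T T' N N' : ℝ} (hS : S ≤ 0.1345) (hS' : S' ≤ 0.1345)
    (hIA : 0 ≤ IA) (hIB : 0 ≤ IB) (hY : |Y| ≤ 0.078 * S + 0.0045)
    (hX : |X| ≤ 0.078 * S' + 0.0045)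
    (hF : 2 * (al * al') ≤ S * IA + 2 * |Y| * IA + S' * IB + 2 * |X| * IB)
    (hT : 0.392 * IB - N ≤ T) (hT' : 0.392 * IA - N' ≤ T') :
    4.76 * (al * al') - (N + N') ≤ T + T' ∧ 0 ≤ T + T' + (N + N') := by
  have h1 : S * IA + 2 * |Y| * IA ≤ 0.1645 * IA := by nlinarith
  have h2 : S' * IB + 2 * |X| * IB ≤ 0.1645 * IB := by nlinarith
  refine ⟨?_, by linarith⟩
  rcases le_total 0 (al * al') with h | h
  · linarith
  · linarith

theorem arith2 {al al' l l' k k' W : ℝ} (h : 12.2 * (l - k) ≤ al) (h' : 12.2 * (l' - k') ≤ al')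
    (hW : 0 ≤ W) (hm : 4.76 * (al * al') ≤ W) :
    708 * (max (l - k) 0 * max (l' - k') 0) ≤ W := by
  rcases le_total (l - k) 0 with h1 | h1
  · rw [max_eq_right h1, zero_mul, mul_zero]
    exact hW
  rcases le_total (l' - k') 0 with h2 | h2
  · rw [max_eq_right h2, mul_zero, mul_zero]
    exact hW
  rw [max_eq_left h1, max_eq_left h2]
  have h3 : 12.2 * (l - k) * (12.2 * (l' - k')) ≤ al * al' :=
    mul_le_mul h h' (by linarith) (by linarith)
  have h4 := mul_nonneg h1 h2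
  nlinarith

include h hK hpl hd hσ hQ in
/-- **Theorem I with the losses `lg`** -/
theorem thmIg (hS : σ.real (Zp a 2 3) ≤ 0.1345) (hS' : σ.real (Zp a 0 1) ≤ 0.1345)
    (hY : |∫ z in Zp a 2 3, (eY a z.1 - eY a z.2) ∂σ| ≤ 0.0045)
    (hX : |∫ z in Zp a 0 1, (eX a z.1 - eX a z.2) ∂σ| ≤ 0.0045) :
    4.76 * ((∫ z in Zp a 2 3, eV a z.2 ∂σ) * (∫ z in Zp a 0 1, eW a z.2 ∂σ))
        - (Ng σ a + Ng σ (mir a))
      ≤ (∫ z in Zp a 2 3, exc a z ∂σ) + ∫ z in Zp a 0 1, exc (mir a) z ∂σ ∧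
    0 ≤ (∫ z in Zp a 2 3, exc a z ∂σ) + (∫ z in Zp a 0 1, exc (mir a) z ∂σ)
      + (Ng σ a + Ng σ (mir a)) := by
  have hpl' : ∀ x ∈ K, Pl (mir a) x := fun x hx => mir_Pl (hpl x hx)
  have hQ' : ∀ x ∈ K, ∀ i, Qv (mir a) i x ≤ 0.002 := by
    intro x hx i
    rw [mir_perm]
    exact hQ x hx (Pool.Agent.Helper95.MEI.Fub.mp i)
  have t1 := Tg_ge h hK hpl hσ hQ
  have t2 := Tg_ge (mir_gram h) hK hpl' hσ hQ'
  have y1 := Y_le h hK hσ hQ
  have y2 := Y_le (mir_gram h) hK hσ hQ'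
  rw [mir_Zp] at y2 t2
  simp only [mir_eY, mir_hB] at y2 t2
  refine arith1 (S := σ.real (Zp a 2 3)) (S' := σ.real (Zp a 0 1))
    (IA := ∫ z in Zp a 0 1, hA a z.2 ∂σ) (IB := ∫ z in Zp a 2 3, hB a z.2 ∂σ)
    (Y := ∫ z in Zp a 2 3, eY a z.2 ∂σ) (X := ∫ z in Zp a 0 1, eX a z.2 ∂σ)
    hS hS' (integral_nonneg fun z => hA_nonneg a z.2) (integral_nonneg fun z => hB_nonneg a z.2)
    (y1.trans (by linarith)) (y2.trans (by linarith)) ?_ t1 t2
  exact fub_sets h hK hpl hd hσ _ _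

end fub

/-! ### the system `l1` -/

/-- the losses of regime I -/
noncomputable def l1 (a : Fin 4 → E3) (m : Fin 3) (e i : Bool) (z : E3 × E3) : ℝ :=
  lg (ap a m e) i z

section
variable {a : Fin 4 → E3} {K : Set E3} {σ : Measure (E3 × E3)}
  (ha : ∀ i j, i ≠ j → dist (a i) (a j) = 1)
include ha

theorem l1_ok : Lok a (l1 a) where
  cont m e i := lg_cont _ i
  nn m e i z := lg_nonneg i z
  le m e i z hz := by
    have h1 := lg_le (hgp ha m e) i (z := z) (Pl_perm _ hz)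
    have e1 : Qv (ap a m e) (vi i) z.2 = Qv a (vx m e i) z.2 := by
      rw [vx_vi]
      rfl
    rw [e1] at h1
    exact h1

/-- **the third coordinate is not positive** (regime I) -/
theorem sM1_third (hσ : ∀ᵐ z ∂σ, z.1 ∈ K ∧ z.2 ∈ K)
    (hp : ∀ x ∈ K, Pl a x) (m : Fin 3) (e i : Bool)
    (hQ : ∀ x ∈ K, Qv a (vx m e i) x ≤ 0.002) :
    sM σ a (l1 a) m e i (vx m e (!i)) ≤ 0 := by
  have hl := l1_ok ha
  unfold sM
  apply integral_nonpos_of_ae
  filter_upwards [ae_restrict_of_ae hσ] with z hz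
  show den a (l1 a) m e i z * bar a (vx m e (!i)) z.2 ≤ 0
  rcases le_or_gt (bar a (vx m e (!i)) z.2) 0 with hb | hb
  · exact mul_nonpos_of_nonneg_of_nonpos (den_nonneg hl m e i z) hb
  · have e1 : Qv (ap a m e) (vi i) z.2 = Qv a (vx m e i) z.2 := by
      rw [vx_vi]
      rfl
    have e2 : bar (ap a m e) (vo i) z.2 = bar a (vx m e (!i)) z.2 := by
      rw [vx_vo]
      exact bar_perm (pr m e) (vo i) z.2
    have h1 := lg_zero (hgp ha m e) i (z := z) (Pl_perm _ (hp _ hz.1)) (Pl_perm _ (hp _ hz.2))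
      (by rw [e1]; exact hQ _ hz.2) (by rw [e2]; exact hb)
    have h2 : den a (l1 a) m e i z = 0 := by
      unfold den l1
      rw [h1, zero_div]
    rw [h2, zero_mul]

omit ha in
theorem Ng_sL (m : Fin 3) (e : Bool) :
    Ng σ (ap a m e) = sL σ a (l1 a) m e false + sL σ a (l1 a) m e true := rfl

end

end Helper41.MEI
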