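import Pool.Agent.Helper37.MEI.Loss2

/-!
# Project MEI (M2): the loss of one edge cell without splitting the positive part

`ls a i z` = loss charged to the vertex `i` (`false` = vertex 0, `true` = vertex 1) of the edge
`01`; `cs = ls / pp Q` is its density.  The density times the positive third coordinate is small.
-/

namespace Helper41.MEI

open Set Metric MeasureTheory Helper80.CW Helper14.CW Helper14.MEI2
open Helper93.MEI Helper37.MEI
open Pool.Agent.Helper8.MEI (DD DD_pos)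
open Pool.Agent.Helper95.MEI.Fub (Zp exc exc_cont eX_cont eY_cont eW_cont Qv_cont pp_cont
  DDe_cont bar_cont int_cont)
open scoped RealInnerProductSpace Real

/-! ### real lemmas -/

theorem third_pos {x y u v : ℝ} (h1 : x + y + u + v = 1) (hx : 0 ≤ x) (hy : 0 ≤ y)
    (a1 : x - u ≤ 1) (a2 : x - v ≤ 1) (a3 : y - u ≤ 1) (a4 : y - v ≤ 1)
    (a5 : u - v ≤ 1) (a6 : v - u ≤ 1) :
    1 / 2 * ((1 - x) ^ 2 + y ^ 2 + u ^ 2 + v ^ 2) - 1 ≤ 9 / 32 * (y - x) := by
  have hv : v = 1 - x - y - u := by linarith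
  subst hv
  have k1 : 0 ≤ y * (1 - y) := mul_nonneg hy (by linarith)
  have k2 : 0 ≤ x * (39 / 16 - 3 / 2 * x - y) := mul_nonneg hx (by linarith)
  have k3 : (u - (1 - x - y - u)) ^ 2 ≤ 1 := by
    rw [sq_le_one_iff_abs_le_one, abs_le]
    constructor <;> linarith
  nlinarith

theorem third_beta {β y Q : ℝ} (hβ : 0 < β) (hy : 0 < y) (hQ0 : 0 < Q) (hQ : Q ≤ 3 / 20)
    (c1 : Q ≤ 3 * β ^ 2 - 2 * β * y + y ^ 2)
    (c2 : 2 * Q ≤ 3 * β - y + 3 / 2 * β ^ 2 + 3 / 2 * y ^ 2 - β * y)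
    (l : 9 / 32 * (y + β) < Q) : Q ≤ 3 * β ^ 2 := by
  by_contra hc
  push Not at hc
  have h1 : 2 * β < y := by
    by_contra h
    push Not at h
    nlinarith [mul_nonneg hy.le (sub_nonneg.2 h)]
  have h2 : y ≤ 8 / 15 := by linarith
  have h3 : 3 / 2 * y ^ 2 ≤ 4 / 5 * y := by nlinarith
  have h4 : 10 / 13 * Q ≤ β := by
    have h5 : (1 / 5 + β) * (2 * β) ≤ (1 / 5 + β) * y :=
      mul_le_mul_of_nonneg_left h1.le (by linarith)
    nlinarith
  have h6 : 27 / 32 * β < Q := by linarith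
  have h7 : y * (y - 2 * β) ≤ (32 / 9 * Q - β) * (32 / 9 * Q - 3 * β) := by
    apply mul_le_mul
    · linarith
    · linarith
    · linarith
    · linarith
  have h8 : 0 ≤ (β - 10 / 13 * Q) * (128 / 9 * Q - 6 * β - 60 / 13 * Q) := by
    apply mul_nonneg
    · linarith
    · linarith
  nlinarith

theorem third_max {β y Q : ℝ} (hβ : 0 < β) (hQ0 : 0 < Q)
    (h3 : Q ≤ 3 * β ^ 2) (l : 0 < Q - 9 / 32 * (y + β)) (hy : 0 < y) :
    0.1623 ≤ √Q ∧ y * (Q - 9 / 32 * (y + β)) ≤ Q * (8 / 9 * (√Q - 0.1623) ^ 2) := by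
  set r := √Q with hr
  have hr2 : r ^ 2 = Q := Real.sq_sqrt hQ0.le
  have hr0 : 0 < r := Real.sqrt_pos.2 hQ0
  have h4 : 0.5773 * r ≤ β := by
    by_contra h
    push Not at h
    nlinarith [mul_pos hr0 hr0]
  have h5 : Q - 9 / 32 * β ≤ r * (r - 0.1623) := by nlinarith
  have h6 : 0 < Q - 9 / 32 * β := by linarith
  have h7 : 0 < r * (r - 0.1623) := lt_of_lt_of_le h6 h5
  have h8 : 0 < r - 0.1623 := by
    by_contra h
    push Not at h
    nlinarith
  refine ⟨by linarith, ?_⟩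
  have h9 : (Q - 9 / 32 * β) ^ 2 ≤ (r * (r - 0.1623)) ^ 2 := pow_le_pow_left₀ h6.le h5 2
  have h10 : (r * (r - 0.1623)) ^ 2 = Q * (r - 0.1623) ^ 2 := by rw [mul_pow, hr2]
  rw [h10] at h9
  nlinarith [sq_nonneg (y - 16 / 9 * (Q - 9 / 32 * β))]

/-- the real form: `x` own coordinate, `y` coordinate of the other end of the edge, `w` the weight
of the other end -/
theorem third_real {x y u v w Q Q' S : ℝ} (h1 : x + y + u + v = 1)
    (a1 : x - u ≤ 1) (a2 : x - v ≤ 1) (a3 : y - u ≤ 1) (a4 : y - v ≤ 1)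
    (a5 : u - v ≤ 1) (a6 : v - u ≤ 1) (a7 : u - x ≤ 1) (a8 : v - x ≤ 1)
    (hQ : Q = 1 / 2 * ((1 - x) ^ 2 + y ^ 2 + u ^ 2 + v ^ 2) - 1) (hQ' : Q' = Q - (y - x))
    (hw : 9 / 32 ≤ w) (hS : Q ≤ S) (hS1 : S ≤ 3 / 20) :
    pp ((1 - w) * pp Q - w * pp (-Q')) * pp y ≤ pp Q * (8 / 9 * pp (√S - 0.1623) ^ 2) := by
  have hR : 0 ≤ pp Q * (8 / 9 * pp (√S - 0.1623) ^ 2) := by
    have := pp_nonneg Q
    positivity
  rcases le_or_gt y 0 with hy | hy
  · have e : pp y = 0 := max_eq_right hy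
    rw [e, mul_zero]
    exact hR
  rcases le_or_gt ((1 - w) * pp Q - w * pp (-Q')) 0 with hN | hN
  · have e : pp ((1 - w) * pp Q - w * pp (-Q')) = 0 := max_eq_right hN
    rw [e, zero_mul]
    exact hR
  rcases le_or_gt Q 0 with hQ0 | hQ0
  · exfalso
    have e : pp Q = 0 := max_eq_right hQ0
    rw [e] at hN
    have := mul_nonneg (by linarith : 0 ≤ w) (pp_nonneg (-Q'))
    linarith
  have eQ : pp Q = Q := max_eq_left hQ0.le
  have ey : pp y = y := max_eq_left hy.le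
  have eN : pp ((1 - w) * pp Q - w * pp (-Q')) = (1 - w) * pp Q - w * pp (-Q') :=
    max_eq_left hN.le
  rw [eN, ey, eQ]
  rw [eQ] at hN
  have h2 : (1 - w) * Q - w * pp (-Q') ≤ Q - w * (y - x) := by
    have := mul_le_mul_of_nonneg_left (le_pp (-Q')) (by linarith : 0 ≤ w)
    rw [hQ'] at this
    rw [hQ']
    linarith
  rcases le_or_gt 0 x with hx | hx
  · exfalso
    have h3 := third_pos h1 hx hy.le a1 a2 a3 a4 a5 a6
    rw [← hQ] at h3
    rcases le_or_gt x y with hxy | hxy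
    · have := mul_le_mul_of_nonneg_right hw (sub_nonneg.2 hxy)
      linarith
    · linarith
  obtain ⟨β, hβ⟩ : ∃ β, β = -x := ⟨_, rfl⟩
  have hx' : x = -β := by linarith
  subst hx'
  have hβ0 : 0 < β := by linarith
  have h4 : 9 / 32 * (y + β) ≤ w * (y - -β) := by
    rw [sub_neg_eq_add]
    exact mul_le_mul_of_nonneg_right hw (by linarith)
  have l : 9 / 32 * (y + β) < Q := by linarith
  have hv : v = 1 + β - y - u := by linarith
  have c1 : Q ≤ 3 * β ^ 2 - 2 * β * y + y ^ 2 := by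
    rw [hQ, hv]
    have k : 0 ≤ (1 - β - u) * (1 - β - (1 + β - y - u)) :=
      mul_nonneg (by linarith) (by linarith)
    nlinarith
  have c2 : 2 * Q ≤ 3 * β - y + 3 / 2 * β ^ 2 + 3 / 2 * y ^ 2 - β * y := by
    have k3 : (u - (1 + β - y - u)) ^ 2 ≤ 1 := by
      rw [sq_le_one_iff_abs_le_one, abs_le]
      constructor <;> linarith
    rw [hQ, hv]
    nlinarith
  have h5 := third_beta hβ0 hy hQ0 (by linarith) c1 c2 l
  obtain ⟨h6, h7⟩ := third_max (y := y) hβ0 hQ0 h5 (by linarith) hy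
  have h8 : √Q ≤ √S := Real.sqrt_le_sqrt hS
  have h9 : (√Q - 0.1623) ^ 2 ≤ pp (√S - 0.1623) ^ 2 := by
    apply pow_le_pow_left₀ (by linarith)
    exact le_trans (by linarith) (le_pp _)
  have h10 : ((1 - w) * Q - w * pp (-Q')) * y ≤ y * (Q - 9 / 32 * (y + β)) := by
    rw [mul_comm]
    exact mul_le_mul_of_nonneg_left (by linarith) hy.le
  have h11 : Q * (8 / 9 * (√Q - 0.1623) ^ 2) ≤ Q * (8 / 9 * pp (√S - 0.1623) ^ 2) :=
    mul_le_mul_of_nonneg_left (by linarith) hQ0.le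
  linarith

end Helper41.MEI
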