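import Pool.Agent.Helper22.MEI.Flux

/-!
# Project MEI: the first moments of the determinant of the Hessian vanish
-/

namespace Helper41.MEI

open Set MeasureTheory Filter Topology Helper22.MEI

variable {f h : ℝ × ℝ → ℝ}

/-- reflection in the second coordinate -/
noncomputable def rY (f : ℝ × ℝ → ℝ) (p : ℝ × ℝ) : ℝ := f (p.1, -p.2)

noncomputable def eY : (ℝ × ℝ) ≃L[ℝ] (ℝ × ℝ) :=
  (ContinuousLinearEquiv.refl ℝ ℝ).prodCongr (ContinuousLinearEquiv.neg ℝ)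

theorem dX_rY (F : ℝ × ℝ → ℝ) (p : ℝ × ℝ) : dX (rY F) p = dX F (p.1, -p.2) := by
  have h := ContinuousLinearEquiv.comp_right_fderiv (𝕜 := ℝ) eY (f := F) (x := p)
  have e : (F ∘ eY) = rY F := rfl
  rw [e] at h
  unfold dX
  rw [h]
  show fderiv ℝ F (eY p) (eY (1, 0)) = _
  have e2 : eY (1, 0) = ((1 : ℝ), (0 : ℝ)) := by
    show (((1 : ℝ), -(0 : ℝ)) : ℝ × ℝ) = _
    rw [neg_zero]
  rw [e2]
  rfl

theorem dY_rY (F : ℝ × ℝ → ℝ) (p : ℝ × ℝ) : dY (rY F) p = -dY F (p.1, -p.2) := by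
  have h := ContinuousLinearEquiv.comp_right_fderiv (𝕜 := ℝ) eY (f := F) (x := p)
  have e : (F ∘ eY) = rY F := rfl
  rw [e] at h
  unfold dY
  rw [h]
  show fderiv ℝ F (eY p) (eY (0, 1)) = _
  have e2 : eY (0, 1) = -((0 : ℝ), (1 : ℝ)) := by
    show (((0 : ℝ), -(1 : ℝ)) : ℝ × ℝ) = _
    ext <;> simp
  rw [e2, map_neg]
  rfl

theorem hd_rY (F : ℝ × ℝ → ℝ) (p : ℝ × ℝ) : hd (rY F) p = hd F (p.1, -p.2) := by
  have e1 : dX (rY F) = rY (dX F) := funext fun q => dX_rY F q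
  have e2 : dY (rY F) = rY (fun q => -dY F q) := funext fun q => dY_rY F q
  have e3 : ∀ q : ℝ × ℝ, dX (fun q => -dY F q) q = -dX (dY F) q := by
    intro q
    unfold dX
    rw [fderiv_fun_neg]
    rfl
  have e4 : ∀ q : ℝ × ℝ, dY (fun q => -dY F q) q = -dY (dY F) q := by
    intro q
    unfold dY
    rw [fderiv_fun_neg]
    rfl
  unfold hd
  rw [e1, e2, dX_rY, dY_rY, dX_rY, dY_rY, e3, e4]
  ring

theorem NN_rY (p : ℝ × ℝ) : NN (p.1, -p.2) = NN p := by
  unfold NN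
  congr 1
  ring

theorem int_rY (g : ℝ × ℝ → ℝ) : ∫ p in SQ, g (p.1, -p.2) = ∫ p in SQ, g p := by
  have hm : MeasurePreserving (fun p : ℝ × ℝ => (p.1, -p.2)) volume volume :=
    (MeasurePreserving.id (volume : Measure ℝ)).prod (Measure.measurePreserving_neg volume)
  have he : MeasurableEmbedding (fun p : ℝ × ℝ => (p.1, -p.2)) :=
    (eY.toHomeomorph.measurableEmbedding)
  have hp : (fun p : ℝ × ℝ => (p.1, -p.2)) ⁻¹' SQ = SQ := by
    ext p
    simp only [SQ, mem_preimage, mem_prod, mem_Ioo]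
    constructor
    · rintro ⟨h1, h2, h3⟩
      exact ⟨h1, by linarith, by linarith⟩
    · rintro ⟨h1, h2, h3⟩
      exact ⟨h1, by linarith, by linarith⟩
  have h := hm.setIntegral_preimage_emb he g SQ
  rw [hp] at h
  exact h

theorem adm_rY (h : Adm f) : Adm (rY f) where
  diff := h.diff.comp eY.differentiable
  cv := by
    have h1 := h.cv.comp_linearMap (eY.toLinearEquiv : (ℝ × ℝ) →ₗ[ℝ] (ℝ × ℝ))
    rw [preimage_univ] at h1
    exact h1
  cvN := by
    have h1 := h.cvN.comp_linearMap (eY.toLinearEquiv : (ℝ × ℝ) →ₗ[ℝ] (ℝ × ℝ))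
    rw [preimage_univ] at h1
    have e : (fun p : ℝ × ℝ => NN p - rY f p)
        = (fun p => NN p - f p) ∘ (eY.toLinearEquiv : (ℝ × ℝ) →ₗ[ℝ] (ℝ × ℝ)) := by
      funext p
      show NN p - f (p.1, -p.2) = NN (p.1, -p.2) - f (p.1, -p.2)
      rw [NN_rY]
    rw [e]
    exact h1
  bX := fun p h1 h2 => h.bX (p.1, -p.2) h1 (by rw [abs_neg]; exact h2)
  bY := fun p h1 h2 => by
    have := h.bY (p.1, -p.2) (by rw [abs_neg]; exact h1) h2
    rw [NN_rY] at this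
    exact this
  gXX := fun p h1 h2 => by
    rw [dX_rY]
    exact h.gXX (p.1, -p.2) h1 (by rw [abs_neg]; exact h2)
  gXY := fun p h1 h2 => by
    rw [dY_rY, h.gXY (p.1, -p.2) h1 (by rw [abs_neg]; exact h2), neg_zero]
  gYX := fun p h1 h2 => by
    have := h.gYX (p.1, -p.2) (by rw [abs_neg]; exact h1) h2
    rw [NN_rY] at this
    rw [dX_rY]
    exact this
  gYY := fun p h1 h2 => by
    have := h.gYY (p.1, -p.2) (by rw [abs_neg]; exact h1) h2
    rw [NN_rY] at this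
    rw [dY_rY, this]
    ring

theorem Lp.bdd_int {F : ℝ × ℝ → ℝ} (hF : Lp F) (v : ℝ × ℝ) :
    IntegrableOn (fun p => fderiv ℝ F p v) SQ := by
  obtain ⟨K, hK⟩ := hF
  exact fd_int hK v

/-- the decomposition of the density -/
theorem Y_hd (h : Adm f) : ∀ᵐ p : ℝ × ℝ, p ∈ SQ → p.2 * hd f p
    = Jc (fun q => q.2 * dX f q) (dY f) p + dY (fun q => dX f q * dX f q) p / 2 := by
  filter_upwards [h.hess_ae] with p hp _
  have s2 : ∀ v : ℝ × ℝ, fderiv ℝ (fun q : ℝ × ℝ => q.2) p v = v.2 := fun v => by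
    rw [fderiv_snd]
    rfl
  have e1 : dX (fun q : ℝ × ℝ => q.2 * dX f q) p = p.2 * dX (dX f) p := by
    show fderiv ℝ (fun q : ℝ × ℝ => q.2 * dX f q) p (1, 0) = p.2 * fderiv ℝ (dX f) p (1, 0)
    rw [mul_fd differentiableAt_snd hp.dx, s2]
    ring
  have e2 : dY (fun q : ℝ × ℝ => q.2 * dX f q) p = dX f p + p.2 * dY (dX f) p := by
    show fderiv ℝ (fun q : ℝ × ℝ => q.2 * dX f q) p (0, 1)
      = dX f p + p.2 * fderiv ℝ (dX f) p (0, 1)
    rw [mul_fd differentiableAt_snd hp.dx, s2]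
    ring
  have e3 : dY (fun q : ℝ × ℝ => dX f q * dX f q) p = 2 * (dX f p * dY (dX f) p) := by
    show fderiv ℝ (fun q : ℝ × ℝ => dX f q * dX f q) p (0, 1)
      = 2 * (dX f p * fderiv ℝ (dX f) p (0, 1))
    rw [mul_fd hp.dx hp.dx]
    ring
  unfold Jc hd
  rw [e1, e2, e3, hp.symm]
  ring

/-- **the first moment of the determinant is a null Lagrangian** -/
theorem int_Y_congr (hf : Adm f) (hh : Adm h) :
    ∫ p in SQ, p.2 * hd f p = ∫ p in SQ, p.2 * hd h p := by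
  have key : ∀ {k : ℝ × ℝ → ℝ}, Adm k → ∫ p in SQ, p.2 * hd k p
      = (∫ p in SQ, Jc (fun q => q.2 * dX k q) (dY k) p)
        + (∫ p in SQ, dY (fun q => dX k q * dX k q) p) / 2 := by
    intro k hk
    have i1 := (Lp.snd.mul hk.lpX).jint hk.lpY
    have i2 : IntegrableOn (fun p => dY (fun q => dX k q * dX k q) p / 2) SQ :=
      (Lp.bdd_int (hk.lpX.mul hk.lpX) (0, 1)).div_const 2
    rw [setIntegral_congr_ae SQ_meas (Y_hd hk), integral_add i1 i2, integral_div]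
  rw [key hf, key hh]
  obtain ⟨K1, k1⟩ := Lp.snd.mul hf.lpX
  obtain ⟨K2, k2⟩ := hf.lpY
  obtain ⟨K3, k3⟩ := Lp.snd.mul hh.lpX
  obtain ⟨K4, k4⟩ := hh.lpY
  obtain ⟨K5, k5⟩ := hf.lpX.mul hf.lpX
  obtain ⟨K6, k6⟩ := hh.lpX.mul hh.lpX
  have a1 : ∫ p in SQ, Jc (fun q => q.2 * dX f q) (dY f) p
      = ∫ p in SQ, Jc (fun q => q.2 * dX h q) (dY h) p :=
    jac_congr k1 k2 k3 k4 (fun p hp hb => by rw [(hf.bdry hh hp hb).2.1])
      (fun p hp hb => (hf.bdry hh hp hb).2.2)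
  have a2 : ∫ p in SQ, dY (fun q => dX f q * dX f q) p
      = ∫ p in SQ, dY (fun q => dX h q * dX h q) p := by
    refine int_dY_congr k5 k6 fun x y hy hx => ?_
    have := (hf.bdry hh (mem_CQ hx.le hy.le) (Or.inr hy)).2.1
    simp only [this]
  rw [a1, a2]

/-- **the first moments vanish** -/
theorem int_Y_hd (h : Adm f) : ∫ p in SQ, p.2 * hd f p = 0 := by
  have h1 := int_Y_congr h (adm_rY h)
  have h2 := int_rY (fun p => p.2 * hd (rY f) p)
  have h3 : ∫ p in SQ, (p.1, -p.2).2 * hd (rY f) (p.1, -p.2) = -∫ p in SQ, p.2 * hd f p := by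
    rw [← integral_neg]
    refine setIntegral_congr_fun SQ_meas fun p _ => ?_
    show -p.2 * hd (rY f) (p.1, -p.2) = -(p.2 * hd f p)
    rw [hd_rY, neg_neg]
    ring
  linarith [h1, h2.symm.trans h3]

theorem hd_swap (F : ℝ × ℝ → ℝ) (p : ℝ × ℝ) : hd (fun q => F (q.2, q.1)) p = hd F (p.2, p.1) := by
  have e1 : dX (fun q => F (q.2, q.1)) = fun q => dY F (q.2, q.1) := funext fun q => dX_swap q
  have e2 : dY (fun q => F (q.2, q.1)) = fun q => dX F (q.2, q.1) := funext fun q => dY_swap q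
  unfold hd
  rw [e1, e2, dX_swap, dY_swap, dX_swap, dY_swap]
  ring

/-- mirror of the complementary function -/
theorem sub_eq_swap (f : ℝ × ℝ → ℝ) : (fun q => NN q - f q) = fun q => sw f (q.2, q.1) := by
  funext q
  unfold sw
  rw [NN_swap]

theorem int_X_hd_sub (h : Adm f) : ∫ p in SQ, p.1 * hd (fun q => NN q - f q) p = 0 := by
  rw [sub_eq_swap, ← int_Y_hd h.swap, ← int_swap (fun p => p.2 * hd (sw f) p)]
  refine setIntegral_congr_fun SQ_meas fun p _ => ?_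
  show p.1 * hd (fun q => sw f (q.2, q.1)) p = p.1 * hd (sw f) (p.2, p.1)
  rw [hd_swap]

end Helper41.MEI
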