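import Pool.Agent.Helper41.MEI.Exg

/-!
# Project MEI (M2), regime I with the losses `l1` (two-coordinate arcs)
-/

namespace Helper41.MEI

open Set MeasureTheory Filter Topology Metric
open Helper80.CW Helper22.Wedge Helper22.Sig Helper14.CW Helper14.MEI2 Helper93.MEI
open Pool.Agent.Helper95.MEI.Cst (AsE AxE dvE fAs fAx vAs vAx v_lo)
open Pool.Agent.Helper95.MEI.Fub (Zp mir mir_gram mir_eX mir_eY mir_eW mir_eV mir_Q mir_Pl mir_Zp
  mir_bar mir_perm exc exc_eq co_e)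
open Pool.Agent.Helper73.MEI
open Helper33.MEI (Wi star_W)
open Helper37.MEI (ap vx)
open Helper78.MEI (G_shift_gen)
open scoped RealInnerProductSpace ContDiff Real

section pair
variable {a : Fin 4 → E3} {K : Set E3} {σ : Measure (E3 × E3)} [IsFiniteMeasure σ]
  {b b' : OrthonormalBasis (Fin 3) ℝ E3}

/-- the pair lemma with the constant `708` -/
theorem pair_cor_s {v l l' k k' T N m κ : ℝ} (hκ : 0.26 < κ)
    (hv : (2 * κ - 0.26) ^ 2 < 2832 * (κ - 0.26) * v)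
    (hlv : l ≤ v) (hlv' : l' ≤ v) (hk : 0 ≤ k) (hk' : 0 ≤ k') (hkm : k ≤ m) (hkm' : k' ≤ m)
    (hT : 708 * (max (l - k) 0 * max (l' - k') 0) - N ≤ T) :
    -((2 * κ - 0.26) * m) - N ≤ T - 0.26 * (v - max l l') + κ * (v - l - l') := by
  have hd : (2 * κ - 0.26) ^ 2 < 4 * 708 * (κ - 0.26) * v := by linarith
  rcases le_total l l' with h | h
  · have h1 := G_shift_gen (C := 708) (by norm_num) (by norm_num) hκ hd h hlv' hk' hkm' hkm
    rw [max_eq_right h]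
    have e : max (l - k) 0 * max (l' - k') 0 = max (l' - k') 0 * max (l - k) 0 := mul_comm _ _
    rw [e] at hT
    linarith
  · have h1 := G_shift_gen (C := 708) (by norm_num) (by norm_num) hκ hd h hlv hk hkm hkm'
    rw [max_eq_left h]
    linarith

/-- one pair of opposite edges -/
theorem pair_regS {κ : ℝ} (hκ : 0.26 < κ)
    (hv : (2 * κ - 0.26) ^ 2 < 2832 * (κ - 0.26) * (vAs - vAx)) (h : PM K σ)
    (ha : ∀ i j, i ≠ j → dist (a i) (a j) = 1)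
    (hp : ∀ x ∈ K, Pl a x) (hd : ∀ x ∈ K, ∀ y ∈ K, ‖x - y‖ ≤ 1)
    (hull : ∀ p, (∀ q ∈ K, ‖p - q‖ ≤ 1) → p ∈ K)
    (hb : Fr a b) (hb' : Fr (mir a) b') {S : Fin 4 → ℝ} (hS0 : ∀ i, 0 ≤ S i)
    (hS : ∀ i, S i ≤ 0.002) (hQ : ∀ x ∈ K, ∀ i, Qv a i x ≤ S i)
    (hA : 12.2 * (lE b (cen a) K - 0.0564 * (S 0 + S 1 + S 2 + S 3)) ≤
      ∫ z in Zp a 2 3, eV a z.2 ∂σ)
    (hA' : 12.2 * (lE b' (cen a) K - 0.0564 * (S 0 + S 1 + S 2 + S 3)) ≤
      ∫ z in Zp (mir a) 2 3, eV (mir a) z.2 ∂σ)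
    (hY : |∫ z in Zp a 2 3, (eY a z.1 - eY a z.2) ∂σ| ≤ 0.0045)
    (hY' : |∫ z in Zp (mir a) 2 3, (eY (mir a) z.1 - eY (mir a) z.2) ∂σ| ≤ 0.0045) :
    -((2 * κ - 0.26) * (0.0564 * (S 0 + S 1 + S 2 + S 3)))
      - κ * (0.0363 * (S 0 + S 1 + S 2 + S 3))
      - (Ng σ a + Ng σ (mir a)) ≤
    TE b (cen a) σ + TE b' (cen a) σ
        + κ * ((vAs - vAx) - lE b (cen a) K - lE b' (cen a) K)
        - 0.26 * ((vAs - vAx) - max (lE b (cen a) K) (lE b' (cen a) K))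
        - κ * (xiE b (cen a) K + xiE b' (cen a) K) := by
  have ha' := mir_dist ha
  have hp' : ∀ x ∈ K, Pl (mir a) x := fun x hx => mir_Pl (hp x hx)
  have hQ' : ∀ x ∈ K, ∀ i, Qv (mir a) i x ≤ S (Pool.Agent.Helper95.MEI.Fub.mp i) := by
    intro x hx i
    rw [mir_perm]
    exact hQ x hx _
  have m1 := mass_le h ha hp hb hS0 hS hQ
  have m2 := mass_le h ha' hp' hb' (S := fun i => S (Pool.Agent.Helper95.MEI.Fub.mp i))
    (fun i => hS0 _) (fun i => hS _) hQ'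
  have t1 := TE_exc h ha hb
  have t2 := TE_exc h ha' hb'
  have x1 := xi_le h.cpt ha hull hb hS0 hQ
  have x2 := xi_le h.cpt ha' hull hb' (S := fun i => S (Pool.Agent.Helper95.MEI.Fub.mp i))
    (fun i => hS0 _) hQ'
  rw [mir_cen] at t2 x2
  have x2' : xiE b' (cen a) K ≤ 0.0363 * (S 2 + S 3) := x2
  rw [mir_Zp] at hA' hY' t2 m2
  simp only [mir_eV, mir_eY] at hA' hY'
  have hQ2 : ∀ x ∈ K, ∀ i, Qv a i x ≤ 0.002 := fun x hx i => (hQ x hx i).trans (hS i)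
  obtain ⟨k1, k2⟩ := thmIg (gram_of_dist ha) h.cpt hp hd h.mem hQ2 m1 m2 hY hY'
  rw [← t1, ← t2] at k1 k2
  have i0 := hS0 0
  have i1 := hS0 1
  have i2 := hS0 2
  have i3 := hS0 3
  have k3 := arith2 (W := TE b (cen a) σ + TE b' (cen a) σ + (Ng σ a + Ng σ (mir a)))
    hA hA' k2 (by linarith)
  have k4 := pair_cor_s (κ := κ) (v := vAs - vAx) (l := lE b (cen a) K)
    (l' := lE b' (cen a) K) (k := 0.0564 * (S 0 + S 1 + S 2 + S 3))
    (k' := 0.0564 * (S 0 + S 1 + S 2 + S 3))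
    (T := TE b (cen a) σ + TE b' (cen a) σ)
    (N := Ng σ a + Ng σ (mir a))
    (m := 0.0564 * (S 0 + S 1 + S 2 + S 3)) hκ hv (lE_le _) (lE_le _)
    (by positivity) (by positivity) le_rfl le_rfl (by linarith)
  have x3 : κ * (xiE b (cen a) K + xiE b' (cen a) K) ≤
      κ * (0.0363 * (S 0 + S 1 + S 2 + S 3)) :=
    mul_le_mul_of_nonneg_left (by linarith) (by linarith)
  linarith

end pair

section global
variable {a : Fin 4 → E3} {K : Set E3} {σ : Measure (E3 × E3)} [IsFiniteMeasure σ]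
  {B : Fin 3 → Bool → OrthonormalBasis (Fin 3) ℝ E3}

/-- **edge part of regime I** with the losses `l1` -/
theorem regS_E {κ : ℝ} (hκ : 0.26 < κ)
    (hv : (2 * κ - 0.26) ^ 2 < 2832 * (κ - 0.26) * (vAs - vAx)) (h : PM K σ)
    (ha : ∀ i j, i ≠ j → dist (a i) (a j) = 1)
    (hp : ∀ x ∈ K, Pl a x) (hd : ∀ x ∈ K, ∀ y ∈ K, ‖x - y‖ ≤ 1)
    (hull : ∀ p, (∀ q ∈ K, ‖p - q‖ ≤ 1) → p ∈ K)
    (hB : ∀ m e, Fr (fun i => a (pr m e i)) (B m e)) {S : Fin 4 → ℝ} (hS0 : ∀ i, 0 ≤ S i)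
    (hS : ∀ i, S i ≤ 0.002) (hQ : ∀ x ∈ K, ∀ i, Qv a i x ≤ S i) :
    -(3 * ((2 * κ - 0.26) * 0.0564 + κ * 0.0363) * (S 0 + S 1 + S 2 + S 3))
      - ∑ m, (Ng σ (ap a m false) + Ng σ (ap a m true)) ≤
    ∑ m, (TE (B m false) (cen a) σ + TE (B m true) (cen a) σ
        + κ * ((vAs - vAx) - lE (B m false) (cen a) K - lE (B m true) (cen a) K)
        - 0.26 * ((vAs - vAx) - max (lE (B m false) (cen a) K) (lE (B m true) (cen a) K))
        - κ * (xiE (B m false) (cen a) K + xiE (B m true) (cen a) K)) := by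
  have hcomp : ∀ p, (∀ q ∈ K, dist p q ≤ 1) → p ∈ K := fun p hq =>
    hull p fun q hqK => by rw [← dist_eq_norm]; exact hq q hqK
  have haa : ∀ m e, ∀ i j, i ≠ j → dist ((fun i => a (pr m e i)) i)
      ((fun i => a (pr m e i)) j) = 1 :=
    fun m e i j hij => ha _ _ (fun h => hij ((pr m e).injective h))
  have hpp : ∀ m e, ∀ x ∈ K, Pl (fun i => a (pr m e i)) x := fun m e x hx => Pl_perm _ (hp x hx)
  have hcc : ∀ m e, cen (fun i => a (pr m e i)) = cen a := fun m e => cen_perm _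
  have hsum : ∀ m e, S (pr m e 0) + S (pr m e 1) + S (pr m e 2) + S (pr m e 3) =
      S 0 + S 1 + S 2 + S 3 := by
    intro m e
    have := Equiv.sum_comp (pr m e) S
    rwa [Fin.sum_univ_four, Fin.sum_univ_four] at this
  have hA : ∀ m e, 12.2 * (lE (B m e) (cen a) K - 0.0564 * (S 0 + S 1 + S 2 + S 3)) ≤
      ∫ z in Zp (fun i => a (pr m e i)) 2 3, eV (fun i => a (pr m e i)) z.2 ∂σ := by
    intro m e
    have h1 := Helper21.Alp.alpha (S := fun i => S (pr m e i)) (haa m e) h hcomp (hpp m e)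
      (hB m e) (fun x hx i => hQ x hx _) (fun i => hS0 _) (fun i => hS _)
    rw [hcc] at h1
    have h2 := hsum m e
    have h3 := hS0 (pr m e 0)
    have h4 := hS0 (pr m e 1)
    refine le_trans ?_ h1
    linarith
  have hY : ∀ m e, |∫ z in Zp (fun i => a (pr m e i)) 2 3, (eY (fun i => a (pr m e i)) z.1 -
      eY (fun i => a (pr m e i)) z.2) ∂σ| ≤ 0.0045 := by
    intro m e
    have h1 := Helper21.Alp.null (S := fun i => S (pr m e i)) (haa m e) h hcomp (hpp m e)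
      (hB m e) (fun x hx i => hQ x hx _) (fun i => hS0 _) (fun i => hS _)
    exact h1.trans (by norm_num)
  have key : ∀ m : Fin 3, -((2 * κ - 0.26) * (0.0564 * (S 0 + S 1 + S 2 + S 3)))
      - κ * (0.0363 * (S 0 + S 1 + S 2 + S 3))
      - (Ng σ (fun i => a (pr m false i)) + Ng σ (fun i => a (pr m true i))) ≤
      TE (B m false) (cen a) σ + TE (B m true) (cen a) σ
        + κ * ((vAs - vAx) - lE (B m false) (cen a) K - lE (B m true) (cen a) K)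
        - 0.26 * ((vAs - vAx) - max (lE (B m false) (cen a) K) (lE (B m true) (cen a) K))
        - κ * (xiE (B m false) (cen a) K + xiE (B m true) (cen a) K) := by
    intro m
    have hc : cen (fun i => a (pr m false i)) = cen a := cen_perm _
    have hb' : Fr (mir (fun i => a (pr m false i))) (B m true) := by
      rw [← pr_mir]; exact hB m true
    have h1 := hA m false
    have h2 := hA m true
    have h3 := hY m false
    have h4 := hY m true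
    have h6 := hsum m false
    rw [pr_mir] at h2 h4 ⊢
    have h5 := pair_regS hκ hv h (haa m false) (hpp m false) hd hull (hB m false) hb'
      (S := fun i => S (pr m false i)) (fun i => hS0 _) (fun i => hS _)
      (fun x hx i => hQ x hx _) (by rw [hc, h6]; exact h1) (by rw [hc, h6]; exact h2) h3 h4
    rw [hc] at h5
    rw [h6] at h5
    exact h5
  have h1 := Finset.sum_le_sum fun m (_ : m ∈ (Finset.univ : Finset (Fin 3))) => key m
  rw [Finset.sum_sub_distrib, Finset.sum_const, Finset.card_univ, Fintype.card_fin] at h1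
  simp only [nsmul_eq_mul, Nat.cast_ofNat] at h1
  refine le_trans (le_of_eq ?_) h1
  unfold ap
  ring

/-- **regime I in the form of `star_W`**, losses `l1` -/
theorem regS_W {κ : ℝ} (hκ : 0.26 < κ)
    (hv : (2 * κ - 0.26) ^ 2 < 2832 * (κ - 0.26) * (vAs - vAx)) (h : PM K σ)
    (ha : ∀ i j, i ≠ j → dist (a i) (a j) = 1)
    (hp : ∀ x ∈ K, Pl a x) (hz : ∀ᵐ z ∂σ, Pl a z.1 ∧ ∀ k, bar a k z.1 ≠ 0)
    (hd : ∀ x ∈ K, ∀ y ∈ K, ‖x - y‖ ≤ 1)
    (hull : ∀ p, (∀ q ∈ K, ‖p - q‖ ≤ 1) → p ∈ K)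
    (hB : ∀ m e, Fr (fun i => a (pr m e i)) (B m e)) {S : Fin 4 → ℝ} (hS0 : ∀ i, 0 ≤ S i)
    (hS : ∀ i, S i ≤ 0.002) (hQ : ∀ x ∈ K, ∀ i, Qv a i x ≤ S i) :
    ∑ i, Wi a i K σ (3.57 + κ)
      + ∫ z in {z : E3 × E3 | z.1 ∈ T0 a}, (⟪z.1 - cen a, z.1 - z.2⟫ - 1 / 4) ∂σ
      - (1.32 + κ) * (√2 / 12 - volume.real (K ∩ T0 a))
      - 3 * ((2 * κ - 0.26) * 0.0564 + κ * 0.0363) * (S 0 + S 1 + S 2 + S 3)
      - ∑ m, (Ng σ (ap a m false) + Ng σ (ap a m true)) ≤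
    (3.82 + κ) * (volume.real K - Helper82.CW.VM) := by
  have h1 := star_W κ h ha hp hz hB
  have h2 := regS_E hκ hv h ha hp hd hull hB hS0 hS hQ
  have h3 : ∀ m, 0 ≤ (κ - 0.26) * (beE (B m false) (cen a) K + beE (B m true) (cen a) K) :=
    fun m => mul_nonneg (by linarith) (add_nonneg measureReal_nonneg measureReal_nonneg)
  have b0 := h3 0
  have b1 := h3 1
  have b2 := h3 2
  rw [Fin.sum_univ_three (f := fun m => TE (B m false) (cen a) σ + TE (B m true) (cen a) σ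
        + κ * ((vAs - vAx) - lE (B m false) (cen a) K - lE (B m true) (cen a) K)
        - 0.26 * ((vAs - vAx) - max (lE (B m false) (cen a) K) (lE (B m true) (cen a) K))
        + (κ - 0.26) * (beE (B m false) (cen a) K + beE (B m true) (cen a) K)
        - κ * (xiE (B m false) (cen a) K + xiE (B m true) (cen a) K))] at h1
  rw [Fin.sum_univ_three (f := fun m => TE (B m false) (cen a) σ + TE (B m true) (cen a) σ
        + κ * ((vAs - vAx) - lE (B m false) (cen a) K - lE (B m true) (cen a) K)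
        - 0.26 * ((vAs - vAx) - max (lE (B m false) (cen a) K) (lE (B m true) (cen a) K))
        - κ * (xiE (B m false) (cen a) K + xiE (B m true) (cen a) K))] at h2
  linarith

/-- **regime I**, general `κ`, losses `l1`: all small terms inserted (`s i ≤ .002`) -/
theorem asmKs {κ : ℝ} (hκ : 0.26 < κ) (hκ2 : κ ≤ 0.58)
    (hv : (2 * κ - 0.26) ^ 2 < 2832 * (κ - 0.26) * (vAs - vAx)) (h : PM K σ)
    (ha : ∀ i j, i ≠ j → dist (a i) (a j) = 1)
    (hp : ∀ x ∈ K, Pl a x) (hz : ∀ᵐ z ∂σ, Pl a z.1 ∧ ∀ k, bar a k z.1 ≠ 0)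
    (hd : ∀ x ∈ K, ∀ y ∈ K, ‖x - y‖ ≤ 1)
    (hull : ∀ p, (∀ q ∈ K, ‖p - q‖ ≤ 1) → p ∈ K)
    (hB : ∀ m e, Fr (fun i => a (pr m e i)) (B m e)) {s : Fin 4 → ℝ} (hs0 : ∀ i, 0 ≤ s i)
    (hs : ∀ i, s i ≤ 0.002) (hQ : ∀ i, ∀ q ∈ K, Qv a i q ≤ s i) :
    ∑ i, (Wi a i K σ (3.57 + κ) - LLs σ a (l1 a) i
        - (3 * ((2 * κ - 0.26) * 0.0564 + κ * 0.0363) + 2e-6) * s i) ≤
    (3.82 + κ) * (volume.real K - Helper82.CW.VM) := by
  have h1 := regS_W hκ hv h ha hp hz hd hull hB hs0 hs (fun x hx i => hQ i x hx)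
  have h5 := Pool.Agent.Helper52.MEI.ET_row0 h ha hp
  have h6 := Pool.Agent.Helper52.MEI.tau_15 ha h.cpt hull hs0
    (fun i => (hs i).trans (by norm_num)) hQ
  have h9 := sum_LLs (a := a) (σ := σ) (l := l1 a)
  have h3 : ∀ i, s i ^ 3 ≤ 0.000004 * s i := by
    intro i
    nlinarith [hs i, hs0 i, mul_nonneg (hs0 i) (hs0 i), mul_nonneg (hs0 i) (sub_nonneg.2 (hs i)),
      mul_nonneg (mul_nonneg (hs0 i) (hs0 i)) (sub_nonneg.2 (hs i))]
  have h4 : (1.32 + κ) * (√2 / 12 - volume.real (K ∩ T0 a)) ≤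
      (1.32 + κ) * (9e-7 * (s 0 + s 1 + s 2 + s 3)) := by
    refine mul_le_mul_of_nonneg_left (h6.trans ?_) (by linarith)
    have a0 := h3 0
    have a1 := h3 1
    have a2 := h3 2
    have a3 := h3 3
    norm_num at a0 a1 a2 a3 ⊢
    linarith
  have h7 : (1.32 + κ) * (9e-7 * (s 0 + s 1 + s 2 + s 3)) ≤ 2e-6 * (s 0 + s 1 + s 2 + s 3) := by
    have := add_nonneg (add_nonneg (add_nonneg (hs0 0) (hs0 1)) (hs0 2)) (hs0 3)
    nlinarith
  simp only [Ng_sL] at h1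
  simp only [Fin.sum_univ_three, Fin.sum_univ_four, Fintype.sum_bool] at h1 h9 ⊢
  linarith

/-- **regime I**, `κ = .35`, losses `l1` -/
theorem asm1s (h : PM K σ) (ha : ∀ i j, i ≠ j → dist (a i) (a j) = 1)
    (hp : ∀ x ∈ K, Pl a x) (hz : ∀ᵐ z ∂σ, Pl a z.1 ∧ ∀ k, bar a k z.1 ≠ 0)
    (hd : ∀ x ∈ K, ∀ y ∈ K, ‖x - y‖ ≤ 1)
    (hull : ∀ p, (∀ q ∈ K, ‖p - q‖ ≤ 1) → p ∈ K)
    (hB : ∀ m e, Fr (fun i => a (pr m e i)) (B m e)) {s : Fin 4 → ℝ} (hs0 : ∀ i, 0 ≤ s i)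
    (hs : ∀ i, s i ≤ 0.002) (hQ : ∀ i, ∀ q ∈ K, Qv a i q ≤ s i) :
    ∑ i, (Wi a i K σ 3.92 - LLs σ a (l1 a) i - 0.1126 * s i) ≤
    4.17 * (volume.real K - Helper82.CW.VM) := by
  have h1 := asmKs (κ := 0.35) (by norm_num) (by norm_num) (by nlinarith [v_lo]) h ha hp hz hd hull
    hB hs0 hs hQ
  have e1 : (3.57 + 0.35 : ℝ) = 3.92 := by norm_num
  have e3 : (3.82 + 0.35 : ℝ) = 4.17 := by norm_num
  rw [e1, e3] at h1
  refine le_trans (Finset.sum_le_sum fun i _ => ?_) h1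
  have := hs0 i
  norm_num
  linarith

end global

end Helper41.MEI
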