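import Pool.Agent.Helper22.MEI.Facts2

/-!
# Project MEI: area of the two spherical pieces above the square
-/

namespace Helper41.MEI

open Set MeasureTheory Filter Topology Helper22.MEI

/-! ### the inner integral -/

theorem NN_xy (x y : ℝ) : NN (x, y) ^ 2 = 1 + x ^ 2 + y ^ 2 := NN_sq (x, y)

theorem der_inner (x y : ℝ) :
    HasDerivAt (fun y => y / ((1 + x ^ 2) * NN (x, y))) (1 / NN (x, y) ^ 3) y := by
  have hp : 0 < 1 + x ^ 2 + y ^ 2 := by positivity
  have h1 : HasDerivAt (fun y : ℝ => 1 + x ^ 2 + y ^ 2) (2 * y) y := by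
    have := (hasDerivAt_pow 2 y).const_add (1 + x ^ 2)
    simpa using this
  have h2 : HasDerivAt (fun y : ℝ => NN (x, y)) (y / NN (x, y)) y := by
    have := h1.sqrt hp.ne'
    refine this.congr_deriv ?_
    show 2 * y / (2 * NN (x, y)) = _
    have := NN_ne (x, y)
    field_simp
  have hN := NN_pos (x, y)
  have hx : (0 : ℝ) < 1 + x ^ 2 := by positivity
  have h3 := (hasDerivAt_id y).div (h2.const_mul (1 + x ^ 2)) (by positivity)
  refine h3.congr_deriv ?_
  have e := NN_xy x y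
  simp only [id]
  have hN' := hN.ne'
  have hx' := hx.ne'
  field_simp
  linear_combination e

theorem inner_val (x a b : ℝ) : ∫ y in a..b, 1 / NN (x, y) ^ 3
    = b / ((1 + x ^ 2) * NN (x, b)) - a / ((1 + x ^ 2) * NN (x, a)) := by
  refine intervalIntegral.integral_eq_sub_of_hasDerivAt (fun y _ => der_inner x y) ?_
  refine Continuous.intervalIntegrable ?_ _ _
  have hc : Continuous fun y : ℝ => NN (x, y) := NN_cont.comp (by fun_prop)
  exact continuous_const.div (hc.pow 3) fun y => pow_ne_zero 3 (NN_ne _)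

theorem NN_yi (x : ℝ) : NN (x, yi x) = 2 * yi x := by
  have h := yi_sq x
  unfold NN
  rw [show 1 + x ^ 2 + yi x ^ 2 = (2 * yi x) ^ 2 by linarith]
  exact Real.sqrt_sq (by linarith [yi_pos x])

theorem NN_neg (x y : ℝ) : NN (x, -y) = NN (x, y) := by
  unfold NN
  congr 1
  ring

theorem NN_s (x : ℝ) : NN (x, s) = √(3 / 2 + x ^ 2) := by
  unfold NN
  congr 1
  have := s_sq
  linarith

/-- the integral over one column -/
theorem col (x : ℝ) (hx : |x| ≤ s) :
    ∫ y in Ioo (-s) s, (midᶜ).indicator (fun p : ℝ × ℝ => 1 / NN p ^ 3) (x, y)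
      = 2 * (s / ((1 + x ^ 2) * √(3 / 2 + x ^ 2))) - 1 / (1 + x ^ 2) := by
  have hy := yi_pos x
  have hys := yi_le hx
  have hc : Continuous fun y : ℝ => 1 / NN (x, y) ^ 3 := by
    have hc : Continuous fun y : ℝ => NN (x, y) := NN_cont.comp (by fun_prop)
    exact continuous_const.div (hc.pow 3) fun y => pow_ne_zero 3 (NN_ne _)
  have e1 : (fun y : ℝ => (midᶜ).indicator (fun p : ℝ × ℝ => 1 / NN p ^ 3) (x, y))
      = (Icc (-yi x) (yi x))ᶜ.indicator (fun y => 1 / NN (x, y) ^ 3) := by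
    funext y
    by_cases h : |y| ≤ yi x
    · have h1 : (x, y) ∉ midᶜ := by
        rw [notMem_compl_iff]
        exact mid_iff.2 h
      have h2 : y ∉ (Icc (-yi x) (yi x))ᶜ := by
        rw [notMem_compl_iff]
        exact abs_le.1 h
      rw [indicator_of_notMem h1, indicator_of_notMem h2]
    · have h1 : (x, y) ∈ midᶜ := fun h' => h (mid_iff.1 h')
      have h2 : y ∈ (Icc (-yi x) (yi x))ᶜ := fun h' => h (abs_le.2 h')
      rw [indicator_of_mem h1, indicator_of_mem h2]
  rw [e1, setIntegral_indicator measurableSet_Icc.compl]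
  have e2 : Ioo (-s) s ∩ (Icc (-yi x) (yi x))ᶜ = Ioo (-s) (-yi x) ∪ Ioo (yi x) s := by
    ext y
    simp only [mem_inter_iff, mem_compl_iff, mem_Icc, mem_union, mem_Ioo, not_and_or, not_le]
    constructor
    · rintro ⟨⟨h1, h2⟩, h3 | h3⟩
      · exact Or.inl ⟨h1, h3⟩
      · exact Or.inr ⟨h3, h2⟩
    · rintro (⟨h1, h2⟩ | ⟨h1, h2⟩)
      · exact ⟨⟨h1, by linarith⟩, Or.inl h2⟩
      · exact ⟨⟨by linarith, h2⟩, Or.inr h1⟩
  have hd : Disjoint (Ioo (-s) (-yi x)) (Ioo (yi x) s) := by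
    rw [Set.disjoint_left]
    rintro y ⟨_, h2⟩ ⟨h3, _⟩
    linarith
  rw [e2, setIntegral_union hd measurableSet_Ioo
    ((hc.integrableOn_Icc).mono_set Ioo_subset_Icc_self)
    ((hc.integrableOn_Icc).mono_set Ioo_subset_Icc_self)]
  rw [← integral_Ioc_eq_integral_Ioo, ← integral_Ioc_eq_integral_Ioo,
    ← intervalIntegral.integral_of_le (by linarith), ← intervalIntegral.integral_of_le hys,
    inner_val, inner_val, NN_neg, NN_neg, NN_yi, NN_s]
  have h3 : 0 < √(3 / 2 + x ^ 2) := Real.sqrt_pos.2 (by positivity)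
  have hx : (0 : ℝ) < 1 + x ^ 2 := by positivity
  field_simp
  ring

/-! ### the outer integral -/

theorem der_outer (x : ℝ) :
    HasDerivAt (fun x => 2 * Real.arctan (s * x / √(3 / 2 + x ^ 2)) - Real.arctan x)
      (2 * (s / ((1 + x ^ 2) * √(3 / 2 + x ^ 2))) - 1 / (1 + x ^ 2)) x := by
  have hp : 0 < 3 / 2 + x ^ 2 := by positivity
  have h1 : HasDerivAt (fun x : ℝ => 3 / 2 + x ^ 2) (2 * x) x := by
    have := (hasDerivAt_pow 2 x).const_add (3 / 2)
    simpa using this
  have h2 := h1.sqrt hp.ne'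
  have hr : 0 < √(3 / 2 + x ^ 2) := Real.sqrt_pos.2 hp
  have h3 := ((hasDerivAt_id x).const_mul s).div h2 hr.ne'
  have h4 := (h3.arctan.const_mul 2).sub (Real.hasDerivAt_arctan x)
  refine h4.congr_deriv ?_
  have e : √(3 / 2 + x ^ 2) ^ 2 = 3 / 2 + x ^ 2 := Real.sq_sqrt hp.le
  have es := s_sq
  show 2 * (1 / (1 + (s * x / √(3 / 2 + x ^ 2)) ^ 2) * ((s * 1 * √(3 / 2 + x ^ 2)
    - s * x * (2 * x / (2 * √(3 / 2 + x ^ 2)))) / √(3 / 2 + x ^ 2) ^ 2)) - 1 / (1 + x ^ 2) = _
  set r := √(3 / 2 + x ^ 2) with hrdef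
  rw [mul_one]
  have hx : (0 : ℝ) < 1 + x ^ 2 := by positivity
  have h5 : 1 + (s * x / r) ^ 2 = 3 / 2 * (1 + x ^ 2) / r ^ 2 := by
    rw [div_pow, mul_pow, es]
    field_simp
    linear_combination 2 * e
  have h6 : s * r - s * x * (2 * x / (2 * r)) = s * (3 / 2) / r := by
    field_simp
    linear_combination 2 * s * e
  rw [h5, h6]
  have hr' := hr.ne'
  field_simp

theorem outer_val : ∫ x in Ioo (-s) s, (2 * (s / ((1 + x ^ 2) * √(3 / 2 + x ^ 2))) - 1 / (1 + x ^ 2))
    = 4 * Real.arctan (s / 2) - 2 * Real.arctan s := by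
  have hs := s_pos
  rw [← integral_Ioc_eq_integral_Ioo, ← intervalIntegral.integral_of_le (by linarith)]
  rw [intervalIntegral.integral_eq_sub_of_hasDerivAt (fun x _ => der_outer x)]
  · have e1 : √(3 / 2 + s ^ 2) = 2 * s := by
      rw [show 3 / 2 + s ^ 2 = (2 * s) ^ 2 by nlinarith [s_sq]]
      exact Real.sqrt_sq (by linarith)
    have e2 : √(3 / 2 + (-s) ^ 2) = 2 * s := by rw [neg_sq, e1]
    rw [e1, e2]
    have e3 : s * s / (2 * s) = s / 2 := by field_simp
    have e4 : s * -s / (2 * s) = -(s / 2) := by field_simp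
    rw [e3, e4, Real.arctan_neg, Real.arctan_neg]
    ring
  · refine Continuous.intervalIntegrable ?_ _ _
    have h1 : Continuous fun x : ℝ => √(3 / 2 + x ^ 2) := by fun_prop
    have h2 : ∀ x : ℝ, (1 + x ^ 2) * √(3 / 2 + x ^ 2) ≠ 0 := fun x => by
      have : 0 < √(3 / 2 + x ^ 2) := Real.sqrt_pos.2 (by positivity)
      positivity
    have h3 : ∀ x : ℝ, (1 + x ^ 2) ≠ 0 := fun x => by positivity
    exact (continuous_const.mul (continuous_const.div (by fun_prop) h2)).sub
      (continuous_const.div (by fun_prop) h3)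

theorem arctan_id : 4 * Real.arctan (s / 2) - 2 * Real.arctan s = 2 * Real.arctan (s / 11) := by
  have es := s_sq
  have h1 : Real.arctan (s / 2) + Real.arctan (s / 2) = Real.arctan (8 * s / 7) := by
    rw [Real.arctan_add (by nlinarith)]
    congr 1
    rw [show s / 2 * (s / 2) = 1 / 8 by nlinarith]
    ring
  have h2 : Real.arctan s + Real.arctan (s / 11) = Real.arctan (8 * s / 7) := by
    rw [Real.arctan_add (by nlinarith)]
    congr 1
    rw [show s * (s / 11) = 1 / 22 by nlinarith]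
    ring
  linarith

theorem mid_meas : MeasurableSet mid := by
  have : IsClosed mid := isClosed_le (by fun_prop) (by fun_prop)
  exact this.measurableSet

/-- **the area of the spherical pieces** -/
theorem lens_int : ∫ p in SQ \ mid, 1 / NN p ^ 3 = 2 * Real.arctan (s / 11) := by
  have hc : Continuous fun p : ℝ × ℝ => 1 / NN p ^ 3 :=
    continuous_const.div (NN_cont.pow 3) fun p => pow_ne_zero 3 (NN_ne _)
  rw [show SQ \ mid = SQ ∩ midᶜ from rfl, ← setIntegral_indicator mid_meas.compl]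
  have hI : IntegrableOn ((midᶜ).indicator fun p : ℝ × ℝ => 1 / NN p ^ 3) SQ :=
    ((hc.locallyIntegrable.integrableOn_isCompact
      (isCompact_Icc.prod isCompact_Icc : IsCompact (Icc (-s) s ×ˢ Icc (-s) s))).mono_set
      (prod_mono Ioo_subset_Icc_self Ioo_subset_Icc_self)).indicator mid_meas.compl
  unfold SQ at hI ⊢
  rw [Measure.volume_eq_prod] at hI ⊢
  rw [setIntegral_prod _ hI, ← arctan_id, ← outer_val]
  exact setIntegral_congr_fun measurableSet_Ioo fun x hx => col x (abs_le.2 ⟨hx.1.le, hx.2.le⟩)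

theorem lens_int_le : ∫ p in SQ \ mid, 1 / NN p ^ 3 ≤ 13 / 100 := by
  rw [lens_int]
  have hs := s_pos
  have h1 : Real.arctan (s / 11) ≤ s / 11 := by
    have h := Real.le_tan (x := Real.arctan (s / 11)) (Real.arctan_nonneg.2 (by positivity))
      (Real.arctan_lt_pi_div_two _)
    rwa [Real.tan_arctan] at h
  have h2 : s ≤ 71 / 100 := by nlinarith [s_sq]
  linarith

theorem lens_int_ge : 127 / 1000 ≤ ∫ p in SQ \ mid, 1 / NN p ^ 3 := by
  rw [lens_int]
  have hs := s_pos
  have h0 : (707 / 1000 : ℝ) ≤ s := by nlinarith [s_sq]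
  have hc : 1 - (635 / 10000 : ℝ) ^ 2 / 2 ≤ Real.cos (635 / 10000) :=
    Real.one_sub_sq_div_two_le_cos
  have hsn : Real.sin (635 / 10000) ≤ 635 / 10000 := Real.sin_le (by norm_num)
  have ht : Real.tan (635 / 10000) ≤ s / 11 := by
    rw [Real.tan_eq_sin_div_cos, div_le_iff₀ (by nlinarith)]
    nlinarith
  have h1 : Real.arctan (Real.tan (635 / 10000)) ≤ Real.arctan (s / 11) :=
    Real.arctan_strictMono.monotone ht
  rw [Real.arctan_tan (by linarith [Real.pi_gt_three]) (by linarith [Real.pi_gt_three])] at h1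
  linarith

end Helper41.MEI
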